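import Pool.Agent.P.MP_382f0d_gt.KN.Defs

/-! An abstract Temperley-Lieb calculus: a ring with a shift, a cap and a cup. -/

namespace Pool.Agent.P.MP_382f0d_gt.KN

open Polynomial Finset

/-- an algebra with a shift `S`, a cap `η` and a cup `ε` on the first two positions -/
class TL (Λ : Type) [Ring Λ] [Algebra ℂ Λ] where
  S : Λ →ₐ[ℂ] Λ
  η : Λ
  ε : Λ
  z1 : ε * S η = 1
  z2 : S ε * η = 1
  sη : ∀ T, S (S T) * η = η * T
  sε : ∀ T, ε * S (S T) = T * ε
  uv : ∃ (C : Type) (_ : Fintype C) (u v : C → Λ), ∑ c, u c * v c = 1 ∧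
    (∀ c T, S T * u c = u c * T) ∧ (∀ c T, v c * S T = T * v c) ∧
    ∀ T, ε * S T * η = ∑ c, v c * T * u c

open TL

variable {Λ : Type} [Ring Λ] [Algebra ℂ Λ] [TL Λ] {a : ℂ}

/-- iterated shift -/
def Sp (k : ℕ) : Λ →ₐ[ℂ] Λ := S ^ k

@[simp] theorem Sp_zero (T : Λ) : Sp 0 T = T := rfl
theorem Sp_succ (k : ℕ) (T : Λ) : Sp (k + 1) T = S (Sp k T) := by
  rw [Sp, pow_succ']; rfl
theorem Sp_succ' (k : ℕ) (T : Λ) : Sp (k + 1) T = Sp k (S T) := by
  rw [Sp, pow_succ]; rfl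
theorem Sp_add (k l : ℕ) (T : Λ) : Sp (k + l) T = Sp k (Sp l T) := by
  rw [Sp, pow_add]; rfl

theorem sη' (T U : Λ) : S (S T) * (η * U) = η * (T * U) := by
  rw [← mul_assoc, sη, mul_assoc]
theorem sε' (T U : Λ) : ε * (S (S T) * U) = T * (ε * U) := by
  rw [← mul_assoc, sε, mul_assoc]
theorem z1' (U : Λ) : ε * (S η * U) = U := by rw [← mul_assoc, z1, one_mul]
theorem z2' (U : Λ) : S ε * (η * U) = U := by rw [← mul_assoc, z2, one_mul]

/-- trace over the first position -/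
def lp : Λ →ₗ[ℂ] Λ where
  toFun T := ε * S T * η
  map_add' T U := by simp [mul_add, add_mul]
  map_smul' c T := by simp

theorem lp_apply (T : Λ) : lp T = ε * S T * η := rfl

/-- trace over the first `m` positions -/
def tr (m : ℕ) : Λ →ₗ[ℂ] Λ := lp ^ m

@[simp] theorem tr_zero (T : Λ) : tr 0 T = T := rfl
theorem tr_succ (m : ℕ) (T : Λ) : tr (m + 1) T = tr m (lp T) := by
  rw [tr, pow_succ]; rfl
theorem tr_add (k n : ℕ) (T : Λ) : tr (k + n) T = tr n (tr k T) := by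
  rw [tr, add_comm, pow_add]; rfl

theorem lp_left (Z T : Λ) : lp (S Z * T) = Z * lp T := by
  simp only [lp_apply, map_mul, mul_assoc, sε']
theorem lp_right (Z T : Λ) : lp (T * S Z) = lp T * Z := by
  simp only [lp_apply, map_mul, mul_assoc, sη]

theorem tr_left (m : ℕ) (Z T : Λ) : tr m (Sp m Z * T) = Z * tr m T := by
  induction m generalizing T with
  | zero => rfl
  | succ m ih => rw [tr_succ, Sp_succ, lp_left, ih, tr_succ]
theorem tr_right (m : ℕ) (Z T : Λ) : tr m (T * Sp m Z) = tr m T * Z := by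
  induction m generalizing T with
  | zero => rfl
  | succ m ih => rw [tr_succ, Sp_succ, lp_right, ih, tr_succ]

/-- `y` only involves `m` positions above and `m'` positions below -/
def Wd (m m' : ℕ) (y : Λ) : Prop := ∀ z, Sp m' z * y = y * Sp m z

theorem Wd.cyc {m m' : ℕ} {y : Λ} (h : Wd m m' y) (T : Λ) : tr m' (y * T) = tr m (T * y) := by
  obtain ⟨C, _, u, v, h1, h2, h3, h4⟩ := TL.uv (Λ := Λ)
  induction m' generalizing y T with
  | zero =>
    induction m generalizing y T with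
    | zero => simpa using (h T).symm
    | succ m ih =>
      have : ∀ c, Wd m 0 (y * u c) := fun c z => by
        rw [← mul_assoc, h z, Sp_succ, mul_assoc, h2, mul_assoc]
      have e : ∀ c, tr m (v c * (T * y) * u c) = y * (u c * v c) * T := fun c => by
        have := ih (this c) (v c * T)
        simp only [tr_zero, mul_assoc] at this ⊢
        exact this.symm
      rw [tr_succ, lp_apply, h4, map_sum]
      simp only [e, ← sum_mul, ← mul_sum, h1, mul_one, tr_zero]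
  | succ m' ih =>
    have : ∀ c, Wd m m' (v c * y) := fun c z => by
      rw [← mul_assoc, ← h3, ← Sp_succ, mul_assoc, h z, mul_assoc]
    have e : ∀ c, tr m' (v c * (y * T) * u c) = tr m (T * (u c * v c) * y) := fun c => by
      have := ih (this c) (T * u c)
      simpa only [mul_assoc] using this
    rw [tr_succ, lp_apply, h4, map_sum]
    simp only [e, ← map_sum, ← sum_mul, ← mul_sum, h1, mul_one]

/-- Temperley-Lieb words from `m` positions above to `m'` positions below -/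
inductive Wo : ℕ → ℕ → Λ → Prop
  | one (m : ℕ) : Wo m m 1
  | cap (m : ℕ) : Wo m (m + 2) η
  | cup (m : ℕ) : Wo (m + 2) m ε
  | sh {m m' : ℕ} {y : Λ} : Wo m m' y → Wo (m + 1) (m' + 1) (S y)
  | mul {k m m' : ℕ} {y z : Λ} : Wo m m' y → Wo k m z → Wo k m' (y * z)
  | add {m m' : ℕ} {y z : Λ} : Wo m m' y → Wo m m' z → Wo m m' (y + z)
  | smul {m m' : ℕ} {y : Λ} (c : ℂ) : Wo m m' y → Wo m m' (c • y)

theorem Wo.wd {m m' : ℕ} {y : Λ} (h : Wo m m' y) : Wd m m' y := by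
  intro z
  induction h with
  | one m => simp
  | cap m => rw [Sp_succ, Sp_succ, sη]
  | cup m => rw [Sp_succ, Sp_succ, sε]
  | sh _ ih => rw [Sp_succ, Sp_succ, ← map_mul, ih, map_mul]
  | mul _ _ i1 i2 => rw [← mul_assoc, i1, mul_assoc, i2, mul_assoc]
  | add _ _ i1 i2 => rw [mul_add, add_mul, i1, i2]
  | smul c _ ih => rw [mul_smul_comm, smul_mul_assoc, ih]

theorem Wo.cyc {m m' : ℕ} {y : Λ} (h : Wo m m' y) (T : Λ) : tr m' (y * T) = tr m (T * y) :=
  h.wd.cyc T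

theorem Wo.wide {m m' : ℕ} {y : Λ} (h : Wo m m' y) : Wo (m + 1) (m' + 1) y := by
  induction h with
  | one m => exact .one _
  | cap m => exact .cap _
  | cup m => exact .cup _
  | sh _ ih => exact ih.sh
  | mul _ _ i1 i2 => exact i1.mul i2
  | add _ _ i1 i2 => exact i1.add i2
  | smul c _ ih => exact ih.smul c

theorem Wo.wides {m m' : ℕ} {y : Λ} (h : Wo m m' y) (k : ℕ) : Wo (m + k) (m' + k) y := by
  induction k with
  | zero => exact h
  | succ k ih => exact ih.wide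

theorem Wo.le {m n : ℕ} {y : Λ} (h : Wo m m y) (hn : m ≤ n) : Wo n n y := by
  obtain ⟨k, rfl⟩ := Nat.exists_eq_add_of_le hn
  exact h.wides k

theorem Wo.sp {m m' : ℕ} {y : Λ} (h : Wo m m' y) (k : ℕ) : Wo (m + k) (m' + k) (Sp k y) := by
  induction k with
  | zero => exact h
  | succ k ih => rw [Sp_succ]; exact ih.sh

theorem Wo.cast {m m' n n' : ℕ} {y : Λ} (h : Wo m m' y) (e : m = n) (e' : m' = n') : Wo n n' y :=
  e ▸ e' ▸ h

theorem Wo.pow {m : ℕ} {y : Λ} (h : Wo m m y) (j : ℕ) : Wo m m (y ^ j) := by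
  induction j with
  | zero => rw [pow_zero]; exact .one m
  | succ j ih => rw [pow_succ]; exact ih.mul h

theorem Wo.lp {m m' : ℕ} {y : Λ} (h : Wo (m + 1) (m' + 1) y) : Wo m m' (lp y) :=
  ((Wo.cup m').mul h.sh).mul (Wo.cap m)

theorem Wo.tr {m m' k : ℕ} {y : Λ} (h : Wo (m + k) (m' + k) y) : Wo m m' (tr k y) := by
  induction k generalizing y with
  | zero => exact h
  | succ k ih => rw [tr_succ]; exact ih h.lp

/-- the crossing -/
noncomputable def σ (a : ℂ) : Λ := a • 1 + a⁻¹ • (η * ε)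

/-- the first strand crosses the next `m` -/
noncomputable def Tn (a : ℂ) : ℕ → Λ
  | 0 => 1
  | m + 1 => σ a * S (Tn a m)

/-- the first `m` strands cross the next one -/
noncomputable def Un (a : ℂ) : ℕ → Λ
  | 0 => 1
  | m + 1 => S (Un a m) * σ a

/-- the first strand goes around the next `m` -/
noncomputable def Jn (a : ℂ) (m : ℕ) : Λ := Tn a m * Un a m

/-- the first `p` strands cross the next `q` -/
noncomputable def Xn (a : ℂ) : ℕ → ℕ → Λ
  | 0, _ => 1
  | p + 1, q => S (Xn a p q) * Tn a q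

/-- a loop around the first `m` strands -/
noncomputable def cn (a : ℂ) : ℕ → Λ
  | 0 => (-a ^ 2 - a⁻¹ ^ 2) • 1
  | m + 1 => (1 - a ^ 4) • Jn a m + a⁻¹ ^ 2 • S (cn a m)

/-- the framed full twist on the first `m` strands -/
noncomputable def th (a : ℂ) : ℕ → Λ
  | 0 => 1
  | m + 1 => kap a • (Jn a m * S (th a m))

/-- the cabled long trefoil -/
noncomputable def H3 (a : ℂ) (m : ℕ) : Λ := tr m (Xn a m m * Xn a m m * Xn a m m)

theorem wo_σ (a : ℂ) (m : ℕ) : Wo (m + 2) (m + 2) (σ a : Λ) :=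
  ((Wo.one _).smul _).add (((Wo.cap m).mul (Wo.cup m)).smul _)

theorem wo_T (a : ℂ) (m : ℕ) : Wo (m + 1) (m + 1) (Tn a m : Λ) := by
  induction m with
  | zero => exact .one _
  | succ m ih => exact (wo_σ a m).mul ih.sh

theorem wo_U (a : ℂ) (m : ℕ) : Wo (m + 1) (m + 1) (Un a m : Λ) := by
  induction m with
  | zero => exact .one _
  | succ m ih => exact ih.sh.mul (wo_σ a m)

theorem wo_J (a : ℂ) (m : ℕ) : Wo (m + 1) (m + 1) (Jn a m : Λ) := (wo_T a m).mul (wo_U a m)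

theorem wo_X (a : ℂ) (p q : ℕ) : Wo (p + q) (p + q) (Xn a p q : Λ) := by
  induction p with
  | zero => exact .one _
  | succ p ih => exact (ih.sh.cast (by omega) (by omega)).mul ((wo_T a q).le (by omega))

theorem wo_c (a : ℂ) (m : ℕ) : Wo m m (cn a m : Λ) := by
  induction m with
  | zero => exact (Wo.one _).smul _
  | succ m ih => exact ((wo_J a m).smul _).add (ih.sh.smul _)

theorem wo_th (a : ℂ) (m : ℕ) : Wo m m (th a m : Λ) := by
  induction m with
  | zero => exact Wo.one _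
  | succ m ih => exact ((wo_J a m).mul ih.sh).smul _

theorem wo_H3 (a : ℂ) (m : ℕ) : Wo m m (H3 a m : Λ) :=
  (((wo_X a m m).mul (wo_X a m m)).mul (wo_X a m m)).tr

/-- the loop value is `-a² - a⁻²` -/
structure Gd (Λ : Type) [Ring Λ] [Algebra ℂ Λ] [TL Λ] (a : ℂ) : Prop where
  ne : a ≠ 0
  eq : (ε * η : Λ) = (-a ^ 2 - a⁻¹ ^ 2) • 1

theorem σ_comm (a : ℂ) (T : Λ) : σ a * S (S T) = S (S T) * σ a := by
  simp only [σ, add_mul, mul_add, smul_mul_assoc, mul_smul_comm, one_mul, mul_one, mul_assoc, sε,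
    sη']

theorem σ_comm' (a : ℂ) (T U : Λ) : σ a * (S (S T) * U) = S (S T) * (σ a * U) := by
  rw [← mul_assoc, σ_comm, mul_assoc]

theorem Sσ (a : ℂ) : (S (σ a) : Λ) = a • 1 + a⁻¹ • (S η * S ε) := by simp [σ]

theorem Sσ_η (a : ℂ) : (S (σ a) * η : Λ) = a • η + a⁻¹ • S η := by
  simp [Sσ, add_mul, mul_assoc, z2]

theorem σ_Sη (a : ℂ) : (σ a * S η : Λ) = a • S η + a⁻¹ • η := by
  simp [σ, add_mul, mul_assoc, z1]

theorem ε_Sσ (a : ℂ) : (ε * S (σ a) : Λ) = a • ε + a⁻¹ • S ε := by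
  simp [Sσ, mul_add, z1']

theorem Sε_σ (a : ℂ) : (S ε * σ a : Λ) = a • S ε + a⁻¹ • ε := by
  simp [σ, mul_add, z2']

theorem Gd.σ_η (ha : Gd Λ a) : (σ a * η : Λ) = (-a⁻¹ ^ 3) • η := by
  have := ha.ne
  simp only [σ, add_mul, smul_mul_assoc, one_mul, mul_assoc, ha.eq, mul_smul_comm, mul_one]
  match_scalars; field_simp; ring

theorem Gd.ε_σ (ha : Gd Λ a) : (ε * σ a : Λ) = (-a⁻¹ ^ 3) • ε := by
  have := ha.ne
  simp only [σ, mul_add, smul_mul_assoc, one_mul, ← mul_assoc, ha.eq, mul_smul_comm, mul_one]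
  match_scalars; field_simp; ring

theorem Gd.σσ (ha : Gd Λ a) : (σ a * σ a : Λ) = a ^ 2 • 1 + (1 - a⁻¹ ^ 4) • (η * ε) := by
  have := ha.ne
  have e : (σ a * σ a : Λ) = a • σ a + a⁻¹ • (σ a * η * ε) := by
    show σ a * (a • 1 + a⁻¹ • (η * ε)) = _
    simp only [mul_add, mul_smul_comm, mul_one, mul_assoc]
  rw [e, ha.σ_η, σ, smul_mul_assoc]
  match_scalars <;> field_simp
  ring

theorem Gd.r1 (ha : Gd Λ a) : (σ a * (S (σ a) * η) : Λ) = S η := by
  have := ha.ne
  simp only [Sσ_η, mul_add, mul_smul_comm, ha.σ_η, σ_Sη]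
  match_scalars <;> field_simp
  ring

theorem Gd.r2 (ha : Gd Λ a) : (S ε * σ a * S (σ a) : Λ) = ε := by
  have := ha.ne
  simp only [Sε_σ, add_mul, smul_mul_assoc, ← map_mul, ha.ε_σ, ε_Sσ, map_smul]
  match_scalars <;> field_simp
  ring

theorem Gd.r3 (ha : Gd Λ a) : (S (σ a) * (σ a * S η) : Λ) = η := by
  have := ha.ne
  simp only [σ_Sη, mul_add, mul_smul_comm, ← map_mul, ha.σ_η, Sσ_η, map_smul]
  match_scalars <;> field_simp
  ring

theorem Gd.r4 (ha : Gd Λ a) : (ε * S (σ a) * σ a : Λ) = S ε := by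
  have := ha.ne
  simp only [ε_Sσ, add_mul, smul_mul_assoc, ha.ε_σ, Sε_σ]
  match_scalars <;> field_simp
  ring

theorem Gd.T_nat (ha : Gd Λ a) {m m' : ℕ} {y : Λ} (h : Wo m m' y) :
    Tn a m' * y = S y * Tn a m := by
  induction h with
  | one m => simp
  | cap m =>
    simp only [Tn, map_mul, mul_assoc, sη]
    rw [← mul_assoc (S _), ← mul_assoc, ha.r1]
  | cup m =>
    simp only [Tn, map_mul, ← mul_assoc]
    rw [ha.r2, sε]
  | sh _ ih => rw [Tn, Tn, mul_assoc, ← map_mul, ih, map_mul, σ_comm']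
  | mul _ _ i1 i2 => rw [← mul_assoc, i1, mul_assoc, i2, map_mul, mul_assoc]
  | add _ _ i1 i2 => rw [mul_add, map_add, add_mul, i1, i2]
  | smul c _ ih => rw [mul_smul_comm, map_smul, smul_mul_assoc, ih]

theorem Gd.U_nat (ha : Gd Λ a) {m m' : ℕ} {y : Λ} (h : Wo m m' y) :
    Un a m' * S y = y * Un a m := by
  induction h with
  | one m => simp
  | cap m =>
    simp only [Un, map_mul, mul_assoc]
    rw [ha.r3, sη]
  | cup m =>
    simp only [Un, map_mul, ← mul_assoc, sε]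
    rw [mul_assoc _ ε, mul_assoc, ha.r4]
  | sh _ ih => rw [Un, Un, mul_assoc, σ_comm, ← mul_assoc, ← map_mul, ih, map_mul, mul_assoc]
  | mul _ _ i1 i2 => rw [map_mul, ← mul_assoc, i1, mul_assoc, i2, mul_assoc]
  | add _ _ i1 i2 => rw [map_add, mul_add, add_mul, i1, i2]
  | smul c _ ih => rw [map_smul, mul_smul_comm, smul_mul_assoc, ih]

theorem Gd.J_nat (ha : Gd Λ a) {m m' : ℕ} {y : Λ} (h : Wo m m' y) :
    Jn a m' * S y = S y * Jn a m := by
  rw [Jn, mul_assoc, ha.U_nat h, ← mul_assoc, ha.T_nat h, mul_assoc, Jn]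

theorem J_zero (a : ℂ) : (Jn a 0 : Λ) = 1 := by simp [Jn, Tn, Un]

theorem J_succ (a : ℂ) (m : ℕ) : (Jn a (m + 1) : Λ) = σ a * S (Jn a m) * σ a := by
  simp only [Jn, Tn, Un, map_mul, mul_assoc]

theorem Gd.c_eq (ha : Gd Λ a) (m : ℕ) : (cn a m : Λ) = lp (Jn a m) := by
  induction m with
  | zero => simp [cn, J_zero, lp_apply, ha.eq]
  | succ m ih =>
    have := ha.ne
    have e : (lp (Jn a (m + 1)) : Λ) = (ε * S (σ a)) * S (S (Jn a m)) * (S (σ a) * η) := by
      simp only [J_succ, lp_apply, map_mul, mul_assoc]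
    have e1 : (ε * (η * Jn a m) : Λ) = (-a ^ 2 - a⁻¹ ^ 2) • Jn a m := by
      rw [← mul_assoc, ha.eq]; simp
    rw [e, cn, ih, lp_apply, ε_Sσ, Sσ_η]
    simp only [add_mul, mul_add, smul_mul_assoc, mul_smul_comm, mul_assoc, sη, sε', z1, z2',
      map_mul, mul_one, e1]
    match_scalars <;> field_simp
    ring

/-- natural families -/
def Nt (H : ℕ → Λ) : Prop := ∀ ⦃m m' : ℕ⦄ ⦃y : Λ⦄, Wo m m' y → H m' * y = y * H m

theorem Nt.one : Nt fun _ => (1 : Λ) := fun _ _ _ _ => by simp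

theorem Nt.mul {H K : ℕ → Λ} (h : Nt H) (k : Nt K) : Nt fun m => H m * K m := fun _ _ _ hy => by
  rw [mul_assoc, k hy, ← mul_assoc, h hy, mul_assoc]

theorem Nt.pow {H : ℕ → Λ} (h : Nt H) (j : ℕ) : Nt fun m => H m ^ j := by
  induction j with
  | zero => simpa using Nt.one
  | succ j ih => simpa only [pow_succ] using ih.mul h

theorem Nt.sub_smul {H : ℕ → Λ} (h : Nt H) (c : ℂ) : Nt fun m => H m - c • 1 := fun _ _ _ hy => by
  simp [sub_mul, mul_sub, h hy]

theorem Nt.lp {H : ℕ → Λ} (h : Nt H) : Nt fun m => lp (H (m + 1)) := fun _ _ _ hy => by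
  rw [← lp_right, h hy.sh, lp_left]

theorem Nt.tr {H : ℕ → Λ} (h : Nt H) (k : ℕ) : Nt fun m => tr k (H (m + k)) := fun _ _ _ hy => by
  rw [← tr_right, h (hy.sp k), tr_left]

theorem Gd.c_nat (ha : Gd Λ a) : Nt (cn a : ℕ → Λ) := fun _ _ _ hy => by
  rw [ha.c_eq, ha.c_eq, ← lp_right, ha.J_nat hy, lp_left]

theorem X_zero (a : ℂ) (p : ℕ) : (Xn a p 0 : Λ) = 1 := by
  induction p with
  | zero => rfl
  | succ p ih => simp [Xn, ih, Tn]

theorem X_succ (a : ℂ) (p q : ℕ) : (Xn a p (q + 1) : Λ) = Un a p * S (Xn a p q) := by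
  induction p with
  | zero => simp [Xn, Un]
  | succ p ih => simp only [Xn, ih, Tn, Un, map_mul, mul_assoc, σ_comm']

theorem Gd.X_r (ha : Gd Λ a) (p : ℕ) {q q' : ℕ} {y : Λ} (h : Wo q q' y) :
    Xn a p q' * y = Sp p y * Xn a p q := by
  induction p with
  | zero => simp [Xn]
  | succ p ih => rw [Xn, Xn, mul_assoc, ha.T_nat h, ← mul_assoc, ← map_mul, ih, map_mul, Sp_succ,
      mul_assoc]

theorem Gd.X_l (ha : Gd Λ a) (q : ℕ) {p p' : ℕ} {y : Λ} (h : Wo p p' y) :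
    Xn a p' q * Sp q y = y * Xn a p q := by
  induction q with
  | zero => simp [X_zero]
  | succ q ih => rw [X_succ, X_succ, Sp_succ, mul_assoc, ← map_mul, ih, map_mul, ← mul_assoc,
      ha.U_nat h, mul_assoc]

theorem T_add (a : ℂ) (p q : ℕ) : (Tn a (p + q) : Λ) = Tn a p * Sp p (Tn a q) := by
  induction p with
  | zero => simp [Tn]
  | succ p ih => rw [Nat.add_right_comm, Tn, ih, Tn, map_mul, Sp_succ, mul_assoc]

theorem U_add (a : ℂ) (p q : ℕ) : (Un a (p + q) : Λ) = Sp p (Un a q) * Un a p := by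
  induction p with
  | zero => simp [Un]
  | succ p ih => rw [Nat.add_right_comm, Un, ih, Un, map_mul, Sp_succ, mul_assoc]

theorem J_add (a : ℂ) (p q : ℕ) : (Jn a (p + q) : Λ) = Tn a p * (Sp p (Jn a q) * Un a p) := by
  simp only [Jn, T_add, U_add, map_mul, mul_assoc]

theorem Gd.th_add (ha : Gd Λ a) (p q : ℕ) :
    (th a (p + q) : Λ) = Xn a p q * (Xn a q p * (th a p * Sp p (th a q))) := by
  induction p with
  | zero => simp [Xn, X_zero, th]
  | succ p ih =>
    have e1 := ha.J_nat (wo_X a p q)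
    have e2 := ha.X_r q (wo_J a p)
    rw [X_succ] at e2
    rw [Nat.add_right_comm, th, ih, map_mul, ← mul_assoc, e1, add_comm p q, J_add, X_succ, Xn, th,
      Sp_succ]
    simp only [map_mul, mul_smul_comm, smul_mul_assoc, mul_assoc] at e2 ⊢
    rw [← mul_assoc (Un a q), ← mul_assoc (Sp q _), ← mul_assoc (Un a q) _ (_ * _),
      ← mul_assoc (Un a q * _), mul_assoc (Un a q), e2]

theorem Gd.th_two (ha : Gd Λ a) : (th a 2 * η : Λ) = η ∧ (ε * th a 2 : Λ) = ε := by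
  have := ha.ne
  simp only [th, J_succ, J_zero, map_one, mul_one, map_smul, mul_smul_comm, smul_mul_assoc,
    mul_assoc, ha.σ_η, kap]
  simp only [← mul_assoc, ha.ε_σ, smul_mul_assoc]
  constructor <;> match_scalars <;> field_simp

theorem Gd.th_nat (ha : Gd Λ a) : Nt (th a : ℕ → Λ) := by
  intro m m' y h
  have s2 : ∀ T : Λ, Sp 2 T = S (S T) := fun T => rfl
  induction h with
  | one m => simp
  | cap m =>
    have e1 := ha.X_r m (Wo.cap 0)
    have e2 := ha.X_l m (Wo.cap 0)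
    simp only [X_zero, Xn.eq_1, mul_one, zero_add] at e1 e2
    rw [add_comm m 2, ha.th_add]
    simp only [mul_assoc, s2, sη]
    rw [← mul_assoc (th a 2), ha.th_two.1, ← mul_assoc (Xn a m 2), e1, ← mul_assoc, e2]
  | cup m =>
    have e1 := ha.X_r m (Wo.cup 0)
    have e2 := ha.X_l m (Wo.cup 0)
    simp only [X_zero, Xn.eq_1, one_mul, zero_add] at e1 e2
    rw [add_comm m 2, ha.th_add, ← mul_assoc, ← e2, ← mul_assoc, ← e1, ← mul_assoc, ha.th_two.2,
      s2, sε]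
  | sh hy ih =>
    simp only [th, smul_mul_assoc, mul_smul_comm]
    rw [mul_assoc, ← map_mul, ih, map_mul, ← mul_assoc, ha.J_nat hy, mul_assoc]
  | mul _ _ i1 i2 => rw [← mul_assoc, i1, mul_assoc, i2, mul_assoc]
  | add _ _ i1 i2 => rw [mul_add, add_mul, i1, i2]
  | smul c _ ih => rw [mul_smul_comm, smul_mul_assoc, ih]

theorem Gd.H3_nat (ha : Gd Λ a) : Nt (H3 a : ℕ → Λ) := fun m m' y hy => by
  have r := fun p => ha.X_r p hy
  have l := fun q => ha.X_l q hy
  rw [H3, H3, ← tr_right, ← tr_left, mul_assoc, l, mul_assoc, ← mul_assoc _ y, r, mul_assoc,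
    ← mul_assoc, l, mul_assoc, hy.cyc, mul_assoc, mul_assoc, r, ← mul_assoc (Xn a m' m), l,
    ← mul_assoc, ← mul_assoc, r]
  simp only [mul_assoc]

end Pool.Agent.P.MP_382f0d_gt.KN
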