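import Pool.Agent.P.MP_382f0d_gt.Final

/-! Interface for the granny knot: the numbers, the operator of the diagram, the decoration. -/

namespace Pool.Agent.P.MP_382f0d_gt.KN

open Finset

section
variable {K : Type} [Field K]

/-- the value of the unknot coloured by `TT (m + 1)` -/
def dl (a : K) (m : ℕ) : K := (-1) ^ m * ∑ i ∈ range (m + 1), (a ^ 2) ^ i * (a⁻¹ ^ 2) ^ (m - i)

/-- the twist coefficient of the colour `TT (m + 1)` -/
def tw (a : K) (m : ℕ) : K := (-1) ^ m * a ^ (m * (m + 2))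

/-- the coloured trefoil with framing six -/
def sm (a : K) (m : ℕ) : K := ∑ c ∈ range (m + 1), (-1) ^ c * a ^ (6 * c * (c + 1)) * dl a (2 * c)

/-- the granny knot with the blackboard framing coloured by `TT n` -/
def fv (a : K) : ℕ → K
  | 0 => 0
  | m + 1 => sm a m ^ 2 / (dl a m * tw a m ^ 6)

/-- the granny knot coloured by `X ^ k * TT n` -/
def vv (a : K) : ℕ → ℕ → K
  | 0, n => fv a n
  | _ + 1, 0 => 0
  | k + 1, n + 1 => vv a k (n + 2) + vv a k n

end

section
variable {ι C : Type} [DecidableEq ι] [Fintype C] [DecidableEq C]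

/-- a long trefoil, read from the bottom to the top -/
noncomputable def tre (a : ℂ) (i b₁ b₂ b₃ b₄ b₅ b₆ b₇ o : List ι) : Op ι C :=
  cupP (b₄.zip b₅.reverse) * cpyP (i.zip b₁) * xx a b₅ b₁ * cpyP (b₁.zip b₂) * cpyP (b₅.zip b₆) *
    xx a b₂ b₆ * cpyP (b₂.zip b₃) * cpyP (b₆.zip b₇) * xx a b₇ b₃ * capP (b₄.zip b₃.reverse) *
    cpyP (b₇.zip o)

/-- the cabled granny knot with `j` loops around the part `l` of the cable -/
noncomputable def gra (a : ℂ) (B : Fin 18 → List ι) (l : List ι) (j : ℕ) : Op ι C :=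
  cupP ((B 17).zip (B 0).reverse) * cc a l ^ j *
    tre a (B 0) (B 1) (B 2) (B 3) (B 4) (B 5) (B 6) (B 7) (B 8) *
    tre a (B 8) (B 9) (B 10) (B 11) (B 12) (B 13) (B 14) (B 15) (B 16) *
    capP ((B 17).zip (B 16).reverse)

end

open Classical in
/-- `n` parallel strands on every edge of `L`, and `j` loops at `p` around the edge `pq` -/
noncomputable def deco1 (L : PLink) (p q : Pt) (n j : ℕ) : Deco where
  th e := if e ∈ L.edges then n else 1
  dj x := if x = p then j else 0
  dw _ := s(p, q)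

/-- one component -/
def IsKnot (L : PLink) : Prop :=
  (∃ v, L.next v ≠ v) ∧ ∀ v w, L.next v ≠ v → L.next w ≠ w → L.next.SameCycle v w

end Pool.Agent.P.MP_382f0d_gt.KN
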