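import Pool.Agent.P.MP_382f0d_gt.KN.EvalA

/-! The granny polygon and its parallel copies as links; the value of the invariant. -/

namespace Pool.Agent.P.MP_382f0d_gt.KN

open Filter Topology

theorem cross_dis {p q a b : Pt} (h1 : p.2.1 ≠ q.2.1) (h2 : a.2.1 ≠ b.2.1)
    (h : g0.IsCross s(p, q) s(a, b))
    (hz : g0.Z s(a, b) (g0.lev (.inr (s(p, q), s(a, b)))) <
      g0.Z s(p, q) (g0.lev (.inr (s(p, q), s(a, b))))) :
    Disjoint (sgm s(p, q)) (sgm s(a, b)) := by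
  have key : ∀ p q x : Pt, p.2.1 ≠ q.2.1 → x ∈ segment ℝ p q →
      g0.X s(p, q) x.2.1 = x.1 ∧ g0.Z s(p, q) x.2.1 = x.2.2 := fun p q x h k => by
    obtain ⟨s, -, -, rfl⟩ := mem_seg.1 k
    exact ⟨Geo.val_param (g := g0) h g0.x s, Geo.val_param (g := g0) h g0.z s⟩
  refine Set.disjoint_left.2 fun x k1 k2 => ?_
  obtain ⟨a1, a2⟩ := key p q x h1 k1
  obtain ⟨b1, b2⟩ := key a b x h2 k2
  rw [Geo.lev_eq h.1.ne (a1.trans b1.symm), a2, b2] at hz
  exact lt_irrefl _ hz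

variable {W : ℕ × Fin 18 ↪ Pt}

theorem Gr.y_ne (h : Gr W) (c : ℕ) (t : Fin 18) : (W (c, t)).2.1 ≠ (W (c, t + 1)).2.1 := by
  by_cases k : t ∈ dwn
  exacts [(h.dn c t k).ne', (h.up c t k).ne]

theorem Gr.dis (h : Gr W) {c d : ℕ} {t u : Fin 18}
    (k : ¬ (c = d ∧ (u = t ∨ u = t + 1 ∨ t = u + 1))) :
    Disjoint (sgm (ee W c t)) (sgm (ee W d u)) := by
  rcases h.far c d t u with k1 | k1 | k1 | k1
  · exact absurd k1 k
  · exact cross_dis (h.y_ne _ _) (h.y_ne _ _) (h.cr _ k1 c d).1 (h.cr _ k1 c d).2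
  · exact (cross_dis (h.y_ne _ _) (h.y_ne _ _) (h.cr _ k1 d c).1 (h.cr _ k1 d c).2).symm
  · exact k1.dis

variable (W) in
/-- the cyclic permutation of the vertices of the copies in `S` -/
noncomputable def cyc (S : Finset ℕ) : Equiv.Perm Pt :=
  Equiv.Perm.viaEmbedding (Equiv.prodCongrRight fun m => if m ∈ S then finRotate 18 else 1) W

theorem cyc_apply {S : Finset ℕ} {m : ℕ} (h : m ∈ S) (a : Fin 18) :
    cyc W S (W (m, a)) = W (m, a + 1) := by
  rw [cyc, Equiv.Perm.viaEmbedding_apply, Equiv.prodCongrRight_apply, if_pos h, finRotate_apply]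

theorem cyc_ne {S : Finset ℕ} {v : Pt} : cyc W S v ≠ v ↔ ∃ m ∈ S, ∃ a, v = W (m, a) := by
  constructor
  · intro h
    by_cases c : v ∈ Set.range W
    · obtain ⟨⟨m, a⟩, rfl⟩ := c
      refine ⟨m, ?_, a, rfl⟩
      by_contra k
      exact h (by rw [cyc, Equiv.Perm.viaEmbedding_apply, Equiv.prodCongrRight_apply, if_neg k]; rfl)
    · exact absurd (Equiv.Perm.viaEmbedding_apply_of_notMem _ _ _ c) h
  · rintro ⟨m, hm, a, rfl⟩
    rw [cyc_apply hm]
    simp

/-- the link formed by the copies in `S` -/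
noncomputable def Gr.link (h : Gr W) (S : Finset ℕ) : PLink where
  next := cyc W S
  finite := ((S ×ˢ (Finset.univ : Finset (Fin 18))).finite_toSet.image W).subset fun v hv => by
    obtain ⟨m, hm, a, rfl⟩ := cyc_ne.1 hv
    exact ⟨(m, a), by simp [hm], rfl⟩
  simple v w hv hw hvw x hx := by
    obtain ⟨m, hm, a, rfl⟩ := cyc_ne.1 hv
    obtain ⟨m', hm', b, rfl⟩ := cyc_ne.1 hw
    rw [cyc_apply hm, cyc_apply hm'] at *
    by_cases c : m = m' ∧ (b = a ∨ b = a + 1 ∨ a = b + 1)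
    · obtain ⟨rfl, rfl | rfl | rfl⟩ := c
      · exact absurd rfl hvw
      · simp [tri_inter (h.det m a) hx.1 hx.2]
      · simp [tri_inter (h.det m b) hx.2 hx.1]
    · exact absurd hx.2 (Set.disjoint_left.1 (h.dis c) hx.1)

theorem Gr.mem_edges (h : Gr W) {S : Finset ℕ} {e : Sym2 Pt} :
    e ∈ (h.link S).edges ↔ ∃ m ∈ S, ∃ t, e = ee W m t := by
  constructor
  · rintro ⟨v, hv, rfl⟩
    obtain ⟨m, hm, a, rfl⟩ := cyc_ne.1 hv
    exact ⟨m, hm, a, by rw [Gr.link, cyc_apply hm]; rfl⟩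
  · rintro ⟨m, hm, t, rfl⟩
    exact ⟨_, cyc_ne.2 ⟨m, hm, t, rfl⟩, by rw [Gr.link, cyc_apply hm]; rfl⟩

theorem Gr.knot (h : Gr W) : IsKnot (h.link {0}) := by
  refine ⟨⟨_, cyc_ne.2 ⟨0, by simp, 0, rfl⟩⟩, fun v w hv hw => ?_⟩
  obtain ⟨m, hm, a, rfl⟩ := cyc_ne.1 hv
  obtain ⟨m', hm', b, rfl⟩ := cyc_ne.1 hw
  obtain rfl : m = 0 := by simpa using hm
  obtain rfl : m' = 0 := by simpa using hm'
  have k1 : ∀ n : ℕ, (cyc W {0} ^ n) (W (0, a)) = W (0, a + n • 1) := fun n => by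
    induction n with
    | zero => simp
    | succ n ih => rw [pow_succ', Equiv.Perm.mul_apply, ih, cyc_apply hm, succ_nsmul, add_assoc]
  have k2 : ∀ a b : Fin 18, a + (b - a).val • 1 = b := by decide +kernel
  exact ⟨((b - a).val : ℕ), by rw [zpow_natCast]; exact (k1 _).trans (by rw [k2])⟩

/-- `k` parallel copies -/
noncomputable def Gr.par (h : Gr W) (k : ℕ) : Framed (h.link {0}) where
  toPLink := h.link (Finset.Icc 1 k)
  fr _ := 0
  fr_next _ := rfl
  disj := Set.disjoint_left.2 fun x ⟨v, hv, h1⟩ ⟨w, hw, h2⟩ => by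
    obtain ⟨m, hm, a, rfl⟩ := cyc_ne.1 hv
    obtain ⟨m', hm', b, rfl⟩ := cyc_ne.1 hw
    rw [Gr.link, cyc_apply hm] at h1
    rw [Gr.link, cyc_apply hm'] at h2
    exact Set.disjoint_left.1 (h.dis (c := m) (d := m') (t := a) (u := b) fun c => by
      simp at hm hm'; omega) h1 h2

/-- the copies from the left to the right -/
def usk (k : ℕ) : List ℕ := (List.range' 1 k).reverse

theorem mem_usk {k c : ℕ} : c ∈ usk k ++ [0] ↔ c ≤ k := by
  simp only [usk, List.mem_append, List.mem_reverse, List.mem_range'_1, List.mem_singleton]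
  omega

theorem usk_pw (k : ℕ) : (usk k ++ [0]).Pairwise fun c d => d < c := by
  rw [List.pairwise_append, usk, List.pairwise_reverse]
  refine ⟨List.pairwise_lt_range', by simp, fun c hc d hd => ?_⟩
  simp only [List.mem_reverse, List.mem_range'_1, List.mem_singleton] at hc hd
  omega

theorem usk_nd (k : ℕ) : (usk k ++ [0]).Nodup := (usk_pw k).imp fun h => h.ne'

theorem Gr.ed (h : Gr W) (k : ℕ) (e : Sym2 Pt) : e ∈ (h.par k).edges ∪ (h.link {0}).edges ↔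
    ∃ c ∈ usk k ++ [0], ∃ t, e = ee W c t := by
  simp only [Gr.par, Set.mem_union, h.mem_edges, Finset.mem_Icc, Finset.mem_singleton, mem_usk,
    ← exists_or, ← or_and_right]
  exact exists_congr fun m => and_congr_left fun _ => by omega

theorem inl_grp (t : Fin 18) : .inl t ∈ grp := by fin_cases t <;> simp [grp]

theorem inr_grp {p : Fin 18 × Fin 18} : .inr p ∈ grp ↔ p ∈ six := by simp [grp, six]

theorem inl_evs {cs : List ℕ} {v : Pt} : .inl v ∈ evs W cs ↔ ∃ c ∈ cs, ∃ t, v = W (c, t) := by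
  simp only [evs, List.mem_flatMap]
  constructor
  · rintro ⟨t | p, -, hx⟩
    · simp only [blk, List.mem_map, mem_ord, Sum.inl.injEq] at hx
      obtain ⟨c, hc, rfl⟩ := hx
      exact ⟨c, hc, t, rfl⟩
    · simp [blk] at hx
  · rintro ⟨c, hc, t, rfl⟩
    exact ⟨.inl t, inl_grp t, List.mem_map.2 ⟨c, mem_ord.2 hc, rfl⟩⟩

theorem inr_evs {cs : List ℕ} {e f : Sym2 Pt} : .inr (e, f) ∈ evs W cs ↔
    ∃ p ∈ six, ∃ c ∈ cs, ∃ d ∈ cs, e = ee W c p.1 ∧ f = ee W d p.2 := by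
  simp only [evs, List.mem_flatMap]
  constructor
  · rintro ⟨t | p, hp, hx⟩
    · simp [blk] at hx
    · simp only [blk, List.mem_flatMap, List.mem_map, List.mem_reverse, Sum.inr.injEq,
        Prod.mk.injEq] at hx
      obtain ⟨c, hc, d, hd, rfl, rfl⟩ := hx
      exact ⟨p, inr_grp.1 hp, c, hc, d, hd, rfl, rfl⟩
  · rintro ⟨p, hp, c, hc, d, hd, rfl, rfl⟩
    exact ⟨.inr p, inr_grp.2 hp, List.mem_flatMap.2
      ⟨c, List.mem_reverse.2 hc, List.mem_map.2 ⟨d, hd, rfl⟩⟩⟩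

/-- the place of a group of events on an edge -/
def plc : Fin 18 ⊕ Fin 18 × Fin 18 → Fin 18 → ℕ
  | .inl v, t => if v = t then (if t ∈ dwn then 2 else 0)
      else if v = t + 1 then (if t ∈ dwn then 0 else 2) else 3
  | .inr p, t => if t = p.1 ∨ t = p.2 then 1 else 3

theorem grp_pw : grp.Pairwise fun γ δ => ∀ t, plc γ t ≠ 3 → plc δ t ≠ 3 → plc γ t < plc δ t := by
  decide +kernel

theorem Gr.plc_spec (h : Gr W) {cs : List ℕ} {γ : Fin 18 ⊕ Fin 18 × Fin 18} (hγ : γ ∈ grp)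
    {x : Ev Pt} (hx : x ∈ blk W cs γ) {c : ℕ} {t : Fin 18} (hi : Invo x (ee W c t)) :
    (plc γ t = 0 ∧ g0.lev x = g0.lo (ee W c t)) ∨
      (plc γ t = 1 ∧ g0.lo (ee W c t) < g0.lev x ∧ g0.lev x < g0.hi (ee W c t)) ∨
      (plc γ t = 2 ∧ g0.lev x = g0.hi (ee W c t)) := by
  rcases γ with v | p
  · obtain ⟨d, -, rfl⟩ := List.mem_map.1 hx
    have n1 : t + 1 ≠ t := by simp
    obtain ⟨rfl, rfl | rfl⟩ := mem_ee.1 hi
    · by_cases k : v ∈ dwn
      · exact Or.inr (Or.inr ⟨by simp [plc, k], (max_eq_left (h.dn d v k).le).symm⟩)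
      · exact Or.inl ⟨by simp [plc, k], (min_eq_left (h.up d v k).le).symm⟩
    · by_cases k : t ∈ dwn
      · exact Or.inl ⟨by simp [plc, k], (min_eq_right (h.dn d t k).le).symm⟩
      · exact Or.inr (Or.inr ⟨by simp [plc, k], (max_eq_right (h.up d t k).le).symm⟩)
  · obtain ⟨c', -, hx⟩ := List.mem_flatMap.1 hx
    obtain ⟨d, -, rfl⟩ := List.mem_map.1 hx
    have k := (h.cr p (inr_grp.1 hγ) c' d).1
    rcases hi with hi | hi
    · obtain ⟨rfl, rfl⟩ := ee_iff.1 hi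
      exact Or.inr (Or.inl ⟨by simp [plc], k.2.1, k.2.2.1⟩)
    · obtain ⟨rfl, rfl⟩ := ee_iff.1 hi
      exact Or.inr (Or.inl ⟨by simp [plc], k.2.2.2⟩)

theorem Gr.evs_pw (h : Gr W) {cs : List ℕ} (hs : cs.Pairwise fun c d => d < c)
    {E : Set (Sym2 Pt)} (hE : ∀ e ∈ E, ∃ c t, e = ee W c t) :
    (evs W cs).Pairwise fun x y => (∃ e ∈ E, Invo x e ∧ Invo y e) → g0.lev x < g0.lev y := by
  rw [evs, List.pairwise_flatMap]
  refine ⟨fun γ hγ => ?_, grp_pw.imp_of_mem fun {γ δ} hγ hδ k x hx y hy ⟨e, he, i1, i2⟩ => ?_⟩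
  · rcases γ with v | p
    · rw [blk, List.pairwise_map]
      refine (nodup_ord (hs.imp fun k => k.ne') _).imp fun {c d} hcd ⟨e, he, i1, i2⟩ => ?_
      obtain ⟨c', t, rfl⟩ := hE e he
      exact absurd ((mem_ee.1 i1).1.trans (mem_ee.1 i2).1.symm) hcd
    · have hp := inr_grp.1 hγ
      have n := (six_spec (t := p.1) (u := p.2) hp).2.2
      rw [blk, List.pairwise_flatMap]
      refine ⟨fun c _ => ?_, ?_⟩
      · rw [List.pairwise_map]
        exact hs.imp fun k _ => h.o2 p hp _ _ _ k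
      · rw [List.pairwise_reverse]
        refine hs.imp fun {c' c} k x hx y hy ⟨e, _, i1, i2⟩ => ?_
        obtain ⟨d, -, rfl⟩ := List.mem_map.1 hx
        obtain ⟨d', -, rfl⟩ := List.mem_map.1 hy
        rcases i1 with rfl | rfl <;> rcases i2 with i2 | i2 <;> have i3 := ee_iff.1 i2
        · exact absurd i3.1 k.ne
        · exact absurd i3.2 n
        · exact absurd i3.2.symm n
        · obtain ⟨rfl, -⟩ := i3
          exact h.o1 p hp _ _ _ k
  · obtain ⟨c, t, rfl⟩ := hE e he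
    have a1 := h.plc_spec hγ hx i1
    have a2 := h.plc_spec hδ hy i2
    have a3 := k t (by omega) (by omega)
    have a4 : g0.lo (ee W c t) < g0.hi (ee W c t) := min_lt_max.2 (h.y_ne c t)
    rcases a1 with a1 | a1 | a1 <;> rcases a2 with a2 | a2 | a2 <;>
      first | omega | linarith [a1.2, a2.2]

theorem abs_wt {V : Type} [DecidableEq V] (D : Dat V) (E : Set (Sym2 V))
    (hm : ∀ e f, |D.mu e f| ≤ 1) (l : List (Ev V)) : |(l.map (D.wt E)).sum| ≤ l.length := by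
  induction l with
  | nil => simp
  | cons x l ih =>
    have : |D.wt E x| ≤ 1 := by
      cases x with
      | inl v => simp [Dat.wt]
      | inr p =>
        rw [Dat.wt]
        split_ifs
        · rw [abs_mul]
          have := hm p.1 p.2
          cases D.eps p.1 p.2 <;> simpa [sgn] using this
        · simp
    rw [List.map_cons, List.sum_cons, List.length_cons]
    push_cast
    linarith [abs_add_le (D.wt E x) (l.map (D.wt E)).sum]

theorem exists_granny_of (h : Gr W) : ∃ (L : PLink) (p q : Pt) (v : ℕ → Framed L), IsKnot L ∧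
    s(p, q) ∈ L.edges ∧ p.2.1 < q.2.1 ∧ ∀ k, ∃ W : Finset ℤ, ∀ᶠ i in (atTop : Filter Ix),
      ∃ w ∈ W, ∀ (n j : ℕ), ∃ (B : Fin 18 → List (Lb Pt)) (u l : List (Lb Pt)), B 0 = u ++ l ∧
        u.length = k ∧ l.length = n ∧ (∀ t, (B t).length = k + n) ∧ (∀ t, (B t).Nodup) ∧
        (∀ s t, s ≠ t → ∀ x ∈ B s, x ∉ B t) ∧
        ∀ (C : Type) [Fintype C] [DecidableEq C] [Inhabited C] (a : ℂ), Good C a →
          phi (v k) (deco1 L p q n j) (gg i) C a =
            kap a ^ w * (gra a B l j : Op (Lb Pt) C) (fun _ => 1) fun _ => default := by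
  have hpq : s(W (0, 0), W (0, 0 + 1)) ∈ (h.link {0}).edges := h.mem_edges.2 ⟨0, by simp, 0, rfl⟩
  have hy := h.up 0 0 (by decide)
  refine ⟨h.link {0}, W (0, 0), W (0, 0 + 1), h.par, h.knot, hpq, hy, fun k => ?_⟩
  have ed := h.ed k
  set E := (h.par k).edges ∪ (h.link {0}).edges with hE
  set cs := usk k ++ [0] with hcs
  have fin : E.Finite := fin2 (L := h.link {0}) (h.par k).toPLink
  refine ⟨Finset.Icc (-((evs W cs).length : ℤ)) (evs W cs).length, ?_⟩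
  have h1 := ev_list gg_tendsto fin (m := evs W cs)
    (h.evs_pw (usk_pw k) fun e he => by obtain ⟨c, -, t⟩ := (ed e).1 he; exact ⟨c, t⟩)
    (fun v => by
      rw [inl_evs]
      constructor
      · rintro ⟨c, hc, t, rfl⟩
        exact ⟨_, (ed _).2 ⟨c, hc, t, rfl⟩, mem_ee.2 ⟨rfl, Or.inl rfl⟩⟩
      · rintro ⟨e, he, hv⟩
        obtain ⟨c, hc, t, rfl⟩ := (ed e).1 he
        rcases Sym2.mem_iff.1 hv with rfl | rfl <;> exact ⟨c, hc, _, rfl⟩)
    (fun e f hx => by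
      obtain ⟨p, hp, c, hc, d, hd, rfl, rfl⟩ := inr_evs.1 hx
      exact ⟨(ed _).2 ⟨c, hc, _, rfl⟩, (ed _).2 ⟨d, hd, _, rfl⟩, (h.cr p hp c d).1⟩)
    fun e he f hf => by
      obtain ⟨c, hc, t, rfl⟩ := (ed e).1 he
      obtain ⟨d, hd, u, rfl⟩ := (ed f).1 hf
      rcases h.far c d t u with ⟨rfl, rfl | rfl | rfl⟩ | k1 | k1 | k1
      · exact Or.inl ⟨W (c, u), mem_ee.2 ⟨rfl, Or.inl rfl⟩, mem_ee.2 ⟨rfl, Or.inl rfl⟩⟩
      · exact Or.inl ⟨W (c, t + 1), mem_ee.2 ⟨rfl, Or.inr rfl⟩, mem_ee.2 ⟨rfl, Or.inl rfl⟩⟩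
      · exact Or.inl ⟨W (c, u + 1), mem_ee.2 ⟨rfl, Or.inl rfl⟩, mem_ee.2 ⟨rfl, Or.inr rfl⟩⟩
      · exact Or.inr (Or.inl (inr_evs.2 ⟨_, k1, c, hc, d, hd, rfl, rfl⟩))
      · exact Or.inr (Or.inr (Or.inl (inr_evs.2 ⟨_, k1, d, hd, c, hc, rfl, rfl⟩)))
      · exact Or.inr (Or.inr (Or.inr k1))
  have h2 : ∀ᶠ i in (atTop : Filter Ix), ∀ c ∈ {c | c ∈ cs}, ∀ t,
      (t ∉ dwn → (gg i).y (W (c, t)) < (gg i).y (W (c, t + 1))) ∧
      (t ∈ dwn → (gg i).y (W (c, t + 1)) < (gg i).y (W (c, t))) :=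
    (eventually_all_finite (List.finite_toSet _)).2 fun c _ => eventually_all.2 fun t => by
      by_cases k : t ∈ dwn
      · exact (ev_lt gg_tendsto (h.dn c t k)).mono fun i hi => ⟨fun k' => absurd k k', fun _ => hi⟩
      · exact (ev_lt gg_tendsto (h.up c t k)).mono fun i hi => ⟨fun _ => hi, fun k' => absurd k' k⟩
  have h3 : ∀ᶠ i in (atTop : Filter Ix), ∀ p ∈ {p | p ∈ six}, ∀ c ∈ {c | c ∈ cs},
      ∀ d ∈ {c | c ∈ cs},
      (gg i).Z (ee W d p.2) ((gg i).lev (.inr (ee W c p.1, ee W d p.2))) <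
        (gg i).Z (ee W c p.1) ((gg i).lev (.inr (ee W c p.1, ee W d p.2))) :=
    (eventually_all_finite (List.finite_toSet _)).2 fun p hp =>
      (eventually_all_finite (List.finite_toSet _)).2 fun c _ =>
        (eventually_all_finite (List.finite_toSet _)).2 fun d _ =>
          (td_Z gg_tendsto (h.cr p hp c d).1).2.eventually_lt
            (td_Z gg_tendsto (h.cr p hp c d).1).1 (h.cr p hp c d).2
  filter_upwards [h1, h2, h3, gg_gen fin (nd2 (L := h.link {0}) (h.par k).toPLink)]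
    with i k1 k2 k3 k4
  have wb := abs_le.1 (abs_wt (dat (gg i) (deco1 (h.link {0}) (W (0, 0)) (W (0, 0 + 1)) 0 0)
    (muE (gg i) (h.par k).edges)) E (fun e f => by
      simp only [dat, muE]
      split_ifs <;> simp) (evs W cs))
  refine ⟨-((evs W cs).map ((dat (gg i) (deco1 (h.link {0}) (W (0, 0)) (W (0, 0 + 1)) 0 0)
    (muE (gg i) (h.par k).edges)).wt E)).sum, Finset.mem_Icc.2 ⟨by linarith [wb.2],
      by linarith [wb.1]⟩, fun n j => ?_⟩
  set D := dat (gg i) (deco1 (h.link {0}) (W (0, 0)) (W (0, 0 + 1)) n j)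
    (muE (gg i) (h.par k).edges) with hD
  have sh : Sh W (D.wmu 0) E (usk k) n j :=
    ⟨usk_nd k, ed, fun c hc t => (k2 c hc t).1, fun c hc t => (k2 c hc t).2, fun c _ t => by
      simp only [hD, Dat.wmu, dat, deco1, h.mem_edges, Finset.mem_singleton, exists_eq_left, ee_iff,
        exists_and_left, exists_eq', and_true], fun c t => by
      simp only [hD, Dat.wmu, dat, deco1, EmbeddingLike.apply_eq_iff_eq, Prod.mk.injEq], rfl,
      fun p hp c hc d hd => decide_eq_true (k3 p hp c hc d hd), fun _ _ => rfl⟩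
  have dc : D.DecOK E := fun x _ hx => by
    obtain rfl : x = W (0, 0) := by
      by_contra k
      exact hx (if_neg k)
    refine ⟨Or.inr hpq, Sym2.mem_mk_left _ _, ?_⟩
    exact (min_eq_left ((k2 0 (by simp [hcs]) 0).1 (by decide)).le).symm
  have nd : (evs W cs).Nodup := k1.2.imp_of_mem fun {x y} hx _ k e => by
    obtain ⟨f, hf, hi⟩ := Geo.exists_inv ((k1.1 x).1 hx)
    exact (k ⟨f, hf, hi, e ▸ hi⟩).ne (by rw [e])
  have l0 : ((D.wmu 0).cab (ee W 0 0)).length = n := by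
    rw [Dat.cab_length, sh.th 0 (by simp), if_pos rfl]
  have lk : (usk k).length = k := by simp [usk]
  have b0 : big W (D.wmu 0) cs 0 =
      ((usk k).flatMap fun c => (D.wmu 0).cab (ee W c 0)) ++ (D.wmu 0).cab (ee W 0 0) := by
    simp [big, ord, dwn, hcs]
  refine ⟨big W (D.wmu 0) cs, _, _, b0, ?_, l0, fun t => by rw [sh.len, lk],
    big_nodup (usk_nd k), fun s t => big_disj, fun C _ _ _ a ha => ?_⟩
  · have := sh.len 0
    rw [b0, List.length_append, l0, lk] at this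
    omega
  · have e0 : (h.par k).tot = 0 := by simp [Framed.tot, Gr.par]
    rw [phi, e0, zpow_zero, one_mul, br_list (D := D) a k4.1 dc nd k1.1 k1.2, Dat.run_wt ha,
      sh.run_evs]
    rfl

end Pool.Agent.P.MP_382f0d_gt.KN
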