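import Pool.Agent.P.MP_382f0d_gt.KN.Shape

/-! The events of parallel copies of the granny polygon multiply to the operator `gra`. -/

namespace Pool.Agent.P.MP_382f0d_gt.KN

section
variable {α ι C : Type} [DecidableEq ι] [Fintype C] [DecidableEq C]

omit [DecidableEq ι] in
theorem zip_flat {l : List α} {f g : α → List ι} (h : ∀ c ∈ l, (f c).length = (g c).length) :
    (l.flatMap f).zip (l.flatMap g) = l.flatMap fun c => (f c).zip (g c) := by
  induction l with
  | nil => rfl
  | cons c l ih =>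
    rw [List.flatMap_cons, List.flatMap_cons, List.flatMap_cons,
      List.zip_append (h c List.mem_cons_self), ih fun d hd => h d (List.mem_cons_of_mem _ hd)]

omit [DecidableEq C] in
theorem cupP_flat (l : List α) (f : α → List (ι × ι)) :
    (cupP (l.flatMap f) : Op ι C) = (l.map fun c => cupP (f c)).prod := by
  induction l with
  | nil => rfl
  | cons c l ih => rw [List.flatMap_cons, List.map_cons, List.prod_cons, ← ih]; simp [cupP]

omit [DecidableEq ι] [Fintype C] in
theorem capP_flat (l : List α) (f : α → List (ι × ι)) :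
    (capP (l.flatMap f) : Op ι C) = (l.map fun c => capP (f c)).prod := by
  induction l with
  | nil => rfl
  | cons c l ih => rw [List.flatMap_cons, List.map_cons, List.prod_cons, ← ih]; simp [capP]

omit [DecidableEq C] [Fintype C] in
theorem cpyP_flat (l : List α) (f : α → List (ι × ι)) :
    (cpyP (l.flatMap f) : Op ι C) = (l.map fun c => cpyP (f c)).prod := by
  induction l with
  | nil => rfl
  | cons c l ih => rw [List.flatMap_cons, List.map_cons, List.prod_cons, ← ih]; simp [cpyP]

theorem xx_flat_right (a : ℂ) {u : List ι} {m : List α} {g : α → List ι}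
    (hn : (u ++ m.flatMap g).Nodup) :
    (xx a u (m.flatMap g) : Op ι C) = (m.map fun d => xx a u (g d)).prod := by
  induction m with
  | nil => exact LinearMap.ext fun F => xx_nil_right a u F
  | cons d m ih =>
    rw [List.flatMap_cons] at hn ⊢
    rw [List.map_cons, List.prod_cons,
      ← ih (hn.sublist ((List.Sublist.refl _).append (List.sublist_append_right _ _)))]
    exact LinearMap.ext fun F => xx_append_right hn F

theorem xx_flat (a : ℂ) {l m : List α} {f g : α → List ι}
    (hn : (l.flatMap f ++ m.flatMap g).Nodup) :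
    (xx a (l.flatMap f) (m.flatMap g) : Op ι C) =
      (l.reverse.map fun c => (m.map fun d => xx a (f c) (g d)).prod).prod := by
  induction l with
  | nil => rfl
  | cons c l ih =>
    rw [List.flatMap_cons] at hn ⊢
    rw [List.reverse_cons, List.map_append, List.prod_append,
      ← ih (hn.sublist ((List.sublist_append_right _ _).append (List.Sublist.refl _))),
      List.map_singleton, List.prod_singleton,
      ← xx_flat_right a (hn.sublist ((List.sublist_append_left _ _).append (List.Sublist.refl _)))]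
    exact LinearMap.ext fun F => xx_append a _ _ _ F

end

variable {V : Type} (W : ℕ × Fin 18 ↪ V)

/-- the groups of events, from the bottom to the top -/
def grp : List (Fin 18 ⊕ Fin 18 × Fin 18) :=
  [.inl 0, .inl 5, .inl 1, .inr (5, 1), .inl 2, .inl 6, .inr (2, 6), .inl 3, .inl 7, .inr (7, 3),
    .inl 4, .inl 8, .inl 13, .inl 9, .inr (13, 9), .inl 10, .inl 14, .inr (10, 14), .inl 11,
    .inl 15, .inr (15, 11), .inl 12, .inl 16, .inl 17]

/-- the order of the copies along a cable -/
def ord (cs : List ℕ) (b : Bool) : List ℕ := if b then cs.reverse else cs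

/-- the events of a group -/
def blk (cs : List ℕ) : Fin 18 ⊕ Fin 18 × Fin 18 → List (Ev V)
  | .inl v => (ord cs (decide (v ∈ dwn ∨ v - 1 ∈ dwn))).map fun c => .inl (W (c, v))
  | .inr p => cs.reverse.flatMap fun c => cs.map fun d => .inr (ee W c p.1, ee W d p.2)

/-- all events -/
def evs (cs : List ℕ) : List (Ev V) := grp.flatMap (blk W cs)

/-- the big cables -/
def big (D : Dat V) (cs : List ℕ) (t : Fin 18) : List (Lb V) :=
  (ord cs (decide (t ∈ dwn))).flatMap fun c => D.cab (ee W c t)

variable {W}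

theorem six_spec {t u : Fin 18} (hp : (t, u) ∈ six) : t ∉ dwn ∧ u ∉ dwn ∧ t ≠ u := by
  simp only [six, List.mem_cons, Prod.mk.injEq, List.not_mem_nil, or_false] at hp
  rcases hp with ⟨rfl, rfl⟩ | ⟨rfl, rfl⟩ | ⟨rfl, rfl⟩ | ⟨rfl, rfl⟩ | ⟨rfl, rfl⟩ | ⟨rfl, rfl⟩ <;>
    decide

theorem mem_ord {cs : List ℕ} {b : Bool} {c : ℕ} : c ∈ ord cs b ↔ c ∈ cs := by
  cases b <;> simp [ord]

theorem nodup_ord {cs : List ℕ} (h : cs.Nodup) (b : Bool) : (ord cs b).Nodup := by
  cases b <;> simp [ord, h]

theorem ee_iff {c d : ℕ} {t u : Fin 18} : ee W c t = ee W d u ↔ c = d ∧ t = u := by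
  have : ∀ t u : Fin 18, t = u + 1 → t + 1 ≠ u := by decide
  simp only [ee, Sym2.eq_iff, EmbeddingLike.apply_eq_iff_eq, Prod.mk.injEq]
  constructor
  · rintro (h | h)
    · exact h.1
    · exact absurd h.2.2 (this _ _ h.1.2)
  · rintro ⟨rfl, rfl⟩; simp

theorem mem_ee {c d : ℕ} {t u : Fin 18} : W (c, t) ∈ ee W d u ↔ c = d ∧ (t = u ∨ t = u + 1) := by
  simp only [ee, Sym2.mem_iff, EmbeddingLike.apply_eq_iff_eq, Prod.mk.injEq]
  tauto

theorem mem_big {D : Dat V} {cs : List ℕ} {t : Fin 18} {x : Lb V} (h : x ∈ big W D cs t) :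
    ∃ c ∈ cs, x.1 = ee W c t := by
  obtain ⟨c, hc, hx⟩ := List.mem_flatMap.1 h
  exact ⟨c, mem_ord.1 hc, (Dat.mem_cab.1 hx).1⟩

theorem big_disj {D : Dat V} {cs : List ℕ} {s t : Fin 18} (h : s ≠ t) :
    ∀ x ∈ big W D cs s, x ∉ big W D cs t := fun x h1 h2 => by
  obtain ⟨c, -, e1⟩ := mem_big h1
  obtain ⟨d, -, e2⟩ := mem_big h2
  exact h (ee_iff.1 (e1.symm.trans e2)).2

theorem big_nodup {D : Dat V} {cs : List ℕ} (h : cs.Nodup) (t : Fin 18) :
    (big W D cs t).Nodup := by
  rw [big, List.nodup_flatMap]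
  refine ⟨fun c _ => Dat.cab_nodup _, (nodup_ord h _).imp fun {c d} hcd => ?_⟩
  exact List.disjoint_of_nodup_append (Dat.cab_nodup2 fun k => hcd (ee_iff.1 k).1)

variable (W) in
/-- the data needed to evaluate the diagram -/
structure Sh (D : Dat V) (E : Set (Sym2 V)) (us : List ℕ) (n j : ℕ) : Prop where
  nd : (us ++ [0]).Nodup
  ed : ∀ e, e ∈ E ↔ ∃ c ∈ us ++ [0], ∃ t, e = ee W c t
  up : ∀ c ∈ us ++ [0], ∀ t, t ∉ dwn → D.y (W (c, t)) < D.y (W (c, t + 1))
  dn : ∀ c ∈ us ++ [0], ∀ t, t ∈ dwn → D.y (W (c, t + 1)) < D.y (W (c, t))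
  th : ∀ c ∈ us ++ [0], ∀ t, D.th (ee W c t) = if c = 0 then n else 1
  dj : ∀ c t, D.dj (W (c, t)) = if c = 0 ∧ t = 0 then j else 0
  dw : D.dw (W (0, 0)) = ee W 0 0
  eps : ∀ p ∈ six, ∀ c ∈ us ++ [0], ∀ d ∈ us ++ [0], D.eps (ee W c p.1) (ee W d p.2) = true
  mu : ∀ e f, D.mu e f = 0

namespace Sh

variable {C : Type} [DecidableEq V] [Fintype C] [DecidableEq C] {a : ℂ} {D : Dat V}
  {E : Set (Sym2 V)} {us : List ℕ} {n j : ℕ} (h : Sh W D E us n j)
include h

omit [DecidableEq V] in
theorem len (t : Fin 18) : (big W D (us ++ [0]) t).length = us.length + n := by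
  have h0 : ∀ c ∈ us, c ≠ 0 := fun c hc e => by
    have := h.nd
    rw [List.nodup_append] at this
    exact this.2.2 c hc 0 (by simp) e
  have e : (us.map fun c => (D.cab (ee W c t)).length) = us.map fun _ => 1 :=
    List.map_congr_left fun c hc => by
      rw [Dat.cab_length, h.th c (by simp [hc]), if_neg (h0 c hc)]
  have e0 : (D.cab (ee W 0 t)).length = n := by rw [Dat.cab_length, h.th 0 (by simp), if_pos rfl]
  rw [big, List.length_flatMap]
  cases decide (t ∈ dwn)
  · simp [ord, e, e0]
  · simp [ord, List.map_reverse, e, e0, add_comm]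

omit [DecidableEq V] in
theorem two {c : ℕ} (hc : c ∈ us ++ [0]) (t : Fin 18) :
    Two E (W (c, t + 1)) (ee W c t) (ee W c (t + 1)) := by
  refine ⟨fun k => ?_, fun e => ⟨?_, ?_⟩⟩
  · have := (ee_iff.1 k).2
    simp at this
  · rintro ⟨he, hv⟩
    obtain ⟨d, -, u, rfl⟩ := (h.ed e).1 he
    obtain ⟨rfl, k | k⟩ := mem_ee.1 hv
    · exact Or.inr (by rw [k])
    · exact Or.inl (by rw [add_right_cancel k])
  · rintro (rfl | rfl)
    · exact ⟨(h.ed _).2 ⟨c, hc, t, rfl⟩, mem_ee.2 ⟨rfl, Or.inr rfl⟩⟩
    · exact ⟨(h.ed _).2 ⟨c, hc, _, rfl⟩, mem_ee.2 ⟨rfl, Or.inl rfl⟩⟩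

omit [DecidableEq V] in
theorem th2 {c : ℕ} (hc : c ∈ us ++ [0]) (t u : Fin 18) : D.th (ee W c t) = D.th (ee W c u) := by
  rw [h.th c hc, h.th c hc]

omit [DecidableEq V] in
theorem top1 {c : ℕ} (hc : c ∈ us ++ [0]) (t : Fin 18) :
    D.top (ee W c t) (W (c, t + 1)) = decide (t ∉ dwn) := by
  by_cases k : t ∈ dwn
  · rw [Dat.top_lo (by simp [ee, h.dn c hc t k])]; simp [k]
  · rw [Dat.top_hi (by simp [ee, (h.up c hc t k).le])]; simp [k]

omit [DecidableEq V] in
theorem top2 {c : ℕ} (hc : c ∈ us ++ [0]) (t : Fin 18) :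
    D.top (ee W c t) (W (c, t)) = decide (t ∈ dwn) := by
  by_cases k : t ∈ dwn
  · rw [Dat.top_hi (by simp [ee, (h.dn c hc t k).le])]; simp [k]
  · rw [Dat.top_lo (by simp [ee, h.up c hc t k])]; simp [k]

theorem evv {c : ℕ} (hc : c ∈ us ++ [0]) (t : Fin 18) :
    (D.evop a E (.inl (W (c, t + 1))) : Op (Lb V) C) =
      joinL (D.cab (ee W c t)) (D.cab (ee W c (t + 1))) (decide (t ∉ dwn))
        (decide (t + 1 ∈ dwn)) * D.dec a (W (c, t + 1)) := by
  rw [Dat.evop_two a (h.two hc t) (h.th2 hc _ _), Dat.join, h.top1 hc, h.top2 hc]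

theorem dec0 {c : ℕ} {t : Fin 18} (k : ¬ (c = 0 ∧ t = 0)) :
    (D.dec a (W (c, t)) : Op (Lb V) C) = 1 := by
  rw [Dat.dec, h.dj, if_neg k, pow_zero]

omit [DecidableEq V] in
theorem len2 {c : ℕ} (hc : c ∈ us ++ [0]) (t u : Fin 18) :
    (D.cab (ee W c t)).length = (D.cab (ee W c u)).length := by
  rw [Dat.cab_length, Dat.cab_length, h.th2 hc]

theorem g_mono {t v : Fin 18} (hv : v = t + 1) (h1 : t ∉ dwn) (h2 : v ∉ dwn) (h3 : v ≠ 0) :
    (D.run a E (blk W (us ++ [0]) (.inl v)) : Op (Lb V) C) =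
      cpyP ((big W D (us ++ [0]) t).zip (big W D (us ++ [0]) v)) := by
  subst hv
  simp only [blk, big, add_sub_cancel_right, h1, h2, or_self, decide_false, ord,
    Bool.false_eq_true, if_false]
  rw [zip_flat fun c hc => h.len2 hc _ _, cpyP_flat, Dat.run, List.map_map]
  refine congrArg _ (List.map_congr_left fun c hc => ?_)
  simp only [Function.comp_apply, h.evv hc, h.dec0 fun k => h3 k.2, h1, h2, mul_one,
    not_false_eq_true, decide_true, decide_false, joinL]

theorem g_max {t v : Fin 18} (hv : v = t + 1) (h1 : t ∉ dwn) (h2 : v ∈ dwn) (h3 : v ≠ 0) :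
    (D.run a E (blk W (us ++ [0]) (.inl v)) : Op (Lb V) C) =
      capP ((big W D (us ++ [0]) v).zip (big W D (us ++ [0]) t).reverse) := by
  subst hv
  simp only [blk, big, add_sub_cancel_right, h1, h2, true_or, decide_false, decide_true, ord,
    Bool.false_eq_true, if_false, if_true, List.reverse_flatMap]
  rw [zip_flat fun c hc => by simpa using h.len2 (List.mem_reverse.1 hc) _ _, capP_flat, Dat.run,
    List.map_map]
  refine congrArg _ (List.map_congr_left fun c hc => ?_)
  have hc' := List.mem_reverse.1 hc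
  rw [Function.comp_apply, h.evv hc', h.dec0 fun k => h3 k.2, mul_one,
    joinL_symm (h.len2 hc' _ _) (Dat.cab_nodup2 (h.two hc' t).1)]
  simp only [h1, h2, not_false_eq_true, decide_true, joinL, Function.comp_apply]

theorem g_min' {t v : Fin 18} (hv : v = t + 1) (h1 : t ∈ dwn) (h2 : v ∉ dwn) :
    (D.run a E (blk W (us ++ [0]) (.inl v)) : Op (Lb V) C) =
      ((us ++ [0]).reverse.map fun c =>
        cupP ((D.cab (ee W c t)).zip (D.cab (ee W c v)).reverse) * D.dec a (W (c, v))).prod ∧
    (cupP ((big W D (us ++ [0]) t).zip (big W D (us ++ [0]) v).reverse) : Op (Lb V) C) =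
      ((us ++ [0]).reverse.map fun c =>
        cupP ((D.cab (ee W c t)).zip (D.cab (ee W c v)).reverse)).prod := by
  subst hv
  simp only [blk, big, add_sub_cancel_right, h1, h2, or_true, decide_false, decide_true, ord,
    Bool.false_eq_true, if_false, if_true, List.reverse_flatMap]
  rw [zip_flat fun c hc => by simpa using h.len2 (List.mem_reverse.1 hc) _ _, cupP_flat, Dat.run,
    List.map_map]
  refine ⟨congrArg _ (List.map_congr_left fun c hc => ?_), rfl⟩
  rw [Function.comp_apply, h.evv (List.mem_reverse.1 hc)]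
  simp only [h1, h2, not_true_eq_false, decide_false, joinL]

theorem g_min {t v : Fin 18} (hv : v = t + 1) (h1 : t ∈ dwn) (h2 : v ∉ dwn) (h3 : v ≠ 0) :
    (D.run a E (blk W (us ++ [0]) (.inl v)) : Op (Lb V) C) =
      cupP ((big W D (us ++ [0]) t).zip (big W D (us ++ [0]) v).reverse) := by
  obtain ⟨e1, e2⟩ := h.g_min' (a := a) (C := C) hv h1 h2
  rw [e1, e2]
  simp only [h.dec0 fun k => h3 k.2, mul_one]

theorem g_zero : (D.run a E (blk W (us ++ [0]) (.inl 0)) : Op (Lb V) C) =
    cupP ((big W D (us ++ [0]) 17).zip (big W D (us ++ [0]) 0).reverse) *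
      cc a (D.cab (ee W 0 0)) ^ j := by
  have h0 : ∀ c ∈ us, c ≠ 0 := fun c hc e => by
    have := h.nd
    rw [List.nodup_append] at this
    exact this.2.2 c hc 0 (by simp) e
  obtain ⟨e1, e2⟩ := h.g_min' (a := a) (C := C) (t := 17) (v := 0) (by decide) (by decide)
    (by decide)
  have e3 : (us.reverse.map fun c => (cupP ((D.cab (ee W c 17)).zip (D.cab (ee W c 0)).reverse) :
      Op (Lb V) C) * D.dec a (W (c, 0))) =
      us.reverse.map fun c => cupP ((D.cab (ee W c 17)).zip (D.cab (ee W c 0)).reverse) :=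
    List.map_congr_left fun c hc => by
      rw [h.dec0 fun k => h0 c (List.mem_reverse.1 hc) k.1, mul_one]
  rw [e1, e2, List.reverse_append, List.reverse_singleton, List.singleton_append, List.map_cons,
    List.map_cons, List.prod_cons, List.prod_cons, e3, Dat.dec, h.dw, h.dj, if_pos ⟨rfl, rfl⟩,
    mul_assoc, mul_assoc]
  refine congrArg _ (Commute.eq (Commute.list_prod_right _ _ fun X hX => ?_))
  obtain ⟨c, hc, rfl⟩ := List.mem_map.1 hX
  refine (loc_commute (Dat.cc_cab_loc a _) (cupP_loc _) fun k k1 k2 => ?_).pow_left _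
  have := mem_lab_zip k2
  simp only [List.mem_reverse, Dat.mem_cab] at this
  have k3 : k.1 = ee W 0 0 := k1
  rcases this with k4 | k4 <;>
    exact h0 c (List.mem_reverse.1 hc) (ee_iff.1 (k4.1.symm.trans k3)).1

theorem g_x {t u : Fin 18} (hp : (t, u) ∈ six) :
    (D.run a E (blk W (us ++ [0]) (.inr (t, u))) : Op (Lb V) C) =
      xx a (big W D (us ++ [0]) t) (big W D (us ++ [0]) u) := by
  obtain ⟨h1, h2, h3⟩ := six_spec hp
  have hn : (big W D (us ++ [0]) t ++ big W D (us ++ [0]) u).Nodup :=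
    List.nodup_append.2 ⟨big_nodup h.nd _, big_nodup h.nd _,
      fun x hx y hy e => big_disj h3 x hx (e ▸ hy)⟩
  simp only [big, h1, h2, decide_false, ord, Bool.false_eq_true, if_false] at hn ⊢
  rw [xx_flat a hn, blk, Dat.run, List.map_flatMap, List.flatMap, List.prod_flatten, List.map_map]
  refine congrArg _ (List.map_congr_left fun c hc => ?_)
  rw [Function.comp_apply, List.map_map]
  refine congrArg _ (List.map_congr_left fun d hd => ?_)
  have hc' := List.mem_reverse.1 hc
  rw [Function.comp_apply, Dat.evop_cross a ((h.ed _).2 ⟨c, hc', _, rfl⟩)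
    ((h.ed _).2 ⟨d, hd, _, rfl⟩), Dat.xop, h.mu, h.eps _ hp c hc' d hd]
  simp [pm]

theorem run_evs : (D.run a E (evs W (us ++ [0])) : Op (Lb V) C) =
    gra a (big W D (us ++ [0])) (D.cab (ee W 0 0)) j := by
  have e : (D.run a E (evs W (us ++ [0])) : Op (Lb V) C) =
      (grp.map fun γ => D.run a E (blk W (us ++ [0]) γ)).prod := by
    rw [evs, Dat.run, List.map_flatMap, List.flatMap, List.prod_flatten, List.map_map]
    rfl
  rw [e]
  simp only [grp, List.map_cons, List.map_nil, List.prod_cons, List.prod_nil]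
  rw [h.g_zero,
    h.g_min (t := 4) (v := 5) (by decide) (by decide) (by decide) (by decide),
    h.g_min (t := 12) (v := 13) (by decide) (by decide) (by decide) (by decide),
    h.g_max (t := 3) (v := 4) (by decide) (by decide) (by decide) (by decide),
    h.g_max (t := 11) (v := 12) (by decide) (by decide) (by decide) (by decide),
    h.g_max (t := 16) (v := 17) (by decide) (by decide) (by decide) (by decide),
    h.g_mono (t := 0) (v := 1) (by decide) (by decide) (by decide) (by decide),
    h.g_mono (t := 1) (v := 2) (by decide) (by decide) (by decide) (by decide),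
    h.g_mono (t := 2) (v := 3) (by decide) (by decide) (by decide) (by decide),
    h.g_mono (t := 5) (v := 6) (by decide) (by decide) (by decide) (by decide),
    h.g_mono (t := 6) (v := 7) (by decide) (by decide) (by decide) (by decide),
    h.g_mono (t := 7) (v := 8) (by decide) (by decide) (by decide) (by decide),
    h.g_mono (t := 8) (v := 9) (by decide) (by decide) (by decide) (by decide),
    h.g_mono (t := 9) (v := 10) (by decide) (by decide) (by decide) (by decide),
    h.g_mono (t := 10) (v := 11) (by decide) (by decide) (by decide) (by decide),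
    h.g_mono (t := 13) (v := 14) (by decide) (by decide) (by decide) (by decide),
    h.g_mono (t := 14) (v := 15) (by decide) (by decide) (by decide) (by decide),
    h.g_mono (t := 15) (v := 16) (by decide) (by decide) (by decide) (by decide),
    h.g_x (t := 5) (u := 1) (by decide), h.g_x (t := 2) (u := 6) (by decide),
    h.g_x (t := 7) (u := 3) (by decide), h.g_x (t := 13) (u := 9) (by decide),
    h.g_x (t := 10) (u := 14) (by decide), h.g_x (t := 15) (u := 11) (by decide)]
  simp only [gra, tre, mul_assoc, mul_one]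

end Sh

end Pool.Agent.P.MP_382f0d_gt.KN
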