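import Pool.Agent.P.MP_382f0d_gt.KN.Defs

/-! The final contradiction for the granny knot: the numbers `vv A k n` satisfy no monic relation
with coefficients polynomial in the meridian eigenvalue. -/

namespace Pool.Agent.P.MP_382f0d_gt.KN

open Filter Polynomial Finset WithZero

namespace FinK

variable {K : Type} [Field K]

/-- `x` has order at least `e` -/
def Od (v : Valuation K (WithZero (Multiplicative ℤ))) (e : ℤ) (x : K) : Prop := v x ≤ exp (-e)

section Od
variable {v : Valuation K (WithZero (Multiplicative ℤ))}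

theorem Od.mono {e f : ℤ} {x : K} (h : Od v f x) (hef : e ≤ f) : Od v e x :=
  le_trans h (exp_le_exp.2 (by omega))

theorem Od.zero (e : ℤ) : Od v e (0 : K) := by simp [Od]

theorem Od.one : Od v 0 (1 : K) := by simp [Od]

theorem Od.add {e : ℤ} {x y : K} (hx : Od v e x) (hy : Od v e y) : Od v e (x + y) :=
  le_trans (v.map_add x y) (max_le hx hy)

theorem Od.neg {e : ℤ} {x : K} (hx : Od v e x) : Od v e (-x) := by
  unfold Od; rw [v.map_neg]; exact hx

theorem Od.sub {e : ℤ} {x y : K} (hx : Od v e x) (hy : Od v e y) : Od v e (x - y) := by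
  rw [sub_eq_add_neg]; exact hx.add hy.neg

theorem Od.mul {e f : ℤ} {x y : K} (hx : Od v e x) (hy : Od v f y) : Od v (e + f) (x * y) := by
  unfold Od at *
  rw [v.map_mul, neg_add, exp_add]
  exact mul_le_mul' hx hy

theorem Od.pow {e : ℤ} {x : K} (hx : Od v e x) (n : ℕ) : Od v (n * e) (x ^ n) := by
  induction n with
  | zero => simpa using Od.one
  | succ n ih =>
    rw [pow_succ]
    have := ih.mul hx
    exact this.mono (by push_cast; linarith)

theorem Od.sum {ι : Type} {e : ℤ} (s : Finset ι) {f : ι → K} (h : ∀ i ∈ s, Od v e (f i)) :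
    Od v e (∑ i ∈ s, f i) :=
  Finset.sum_induction f (Od v e) (fun _ _ => Od.add) (Od.zero e) h

theorem Od.sign (n : ℕ) : Od v 0 ((-1 : K) ^ n) := by
  have := (Od.one (v := v)).neg.pow n
  simpa using this

theorem exists_od (x : K) : ∃ e : ℕ, Od v (-e) x := by
  by_cases hx : v x = 0
  · exact ⟨0, by simp [Od, hx]⟩
  · refine ⟨(log (v x)).natAbs, ?_⟩
    unfold Od
    conv_lhs => rw [← exp_log hx]
    exact exp_le_exp.2 (by omega)

theorem eq_zero_of_od {x : K} (h : ∀ e : ℕ, Od v e x) : x = 0 := by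
  by_contra hx
  have hv : v x ≠ 0 := by simpa using hx
  have := h ((log (v x)).natAbs + 1)
  unfold Od at this
  conv_lhs at this => rw [← exp_log hv]
  have := exp_le_exp.1 this
  omega

theorem od_inv_of_one {x : K} (h : Od v 1 (x - 1)) : x ≠ 0 ∧ Od v 0 x⁻¹ := by
  have h1 : v (x - 1) < 1 := lt_of_le_of_lt h (by rw [← exp_zero, exp_lt_exp]; omega)
  have h2 : v x = 1 := by
    have := v.map_one_add_of_lt h1
    simpa using this
  refine ⟨fun h0 => by simp [h0] at h2, ?_⟩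
  simp [Od, h2]

variable {a : K}

theorem od_a (ha : v a = exp (-1)) : Od v 1 a := le_of_eq ha

theorem od_ainv (ha : v a = exp (-1)) : Od v (-1) a⁻¹ := by
  unfold Od; rw [map_inv₀, ha]; simp

theorem a_ne (ha : v a = exp (-1)) : a ≠ 0 := by
  intro h; rw [h, map_zero] at ha; exact exp_ne_zero ha.symm

theorem pow_ne_one (ha : v a = exp (-1)) {n : ℕ} (hn : 0 < n) : a ^ n ≠ 1 := by
  intro h
  have h1 := (od_a ha).pow n
  rw [h] at h1
  unfold Od at h1
  rw [map_one, ← exp_zero, exp_le_exp] at h1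
  omega

theorem od_eval (P : K[X]) : ∃ e : ℕ, ∀ x : K, Od v 0 x → Od v (-e) (P.eval x) := by
  induction P using Polynomial.induction_on' with
  | add p q hp hq =>
    obtain ⟨e, he⟩ := hp
    obtain ⟨f, hf⟩ := hq
    refine ⟨e + f, fun x hx => ?_⟩
    rw [eval_add]
    exact ((he x hx).mono (by push_cast; omega)).add ((hf x hx).mono (by push_cast; omega))
  | monomial n c =>
    obtain ⟨e, he⟩ := exists_od (v := v) c
    refine ⟨e, fun x hx => ?_⟩
    rw [eval_monomial]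
    simpa using he.mul (hx.pow n)

theorem od_qpow (ha : v a = exp (-1)) (m : ℕ) : Od v (2 * m) ((a ^ 2) ^ m) :=
  (((od_a ha).pow 2).pow m).mono (by push_cast; linarith)

theorem od_qinv (ha : v a = exp (-1)) (m : ℕ) : Od v (-(2 * m)) ((a ^ 2) ^ m)⁻¹ := by
  rw [← inv_pow, ← inv_pow]
  exact (((od_ainv ha).pow 2).pow m).mono (by push_cast; linarith)

theorem poly_zero (ha : v a = exp (-1)) (n : ℕ) : ∀ P : K[X], P.natDegree = n →
    (∀ D : ℕ, ∀ᶠ m : ℕ in atTop, Od v (D * m) (P.eval ((a ^ 2) ^ m))) → P = 0 := by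
  induction n using Nat.strong_induction_on with
  | _ n ih =>
    intro P hP h
    have hq : ∀ m : ℕ, (a ^ 2) ^ m ≠ 0 := fun m => pow_ne_zero _ (pow_ne_zero _ (a_ne ha))
    have hs : ∀ x : K, P.eval x = P.coeff 0 + x * (divX P).eval x := fun x => by
      conv_lhs => rw [← X_mul_divX_add P]
      rw [eval_add, eval_mul, eval_X, eval_C, add_comm]
    have h0 : P.coeff 0 = 0 := by
      obtain ⟨e, he⟩ := od_eval (v := v) (divX P)
      apply eq_zero_of_od (v := v)
      intro f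
      obtain ⟨m, hm, hm2⟩ := ((h 1).and (eventually_ge_atTop (e + f))).exists
      have h1 : P.coeff 0 = P.eval ((a ^ 2) ^ m) - (a ^ 2) ^ m * (divX P).eval ((a ^ 2) ^ m) := by
        rw [hs]; ring
      rw [h1]
      have h2 := (od_qpow ha m).mul (he _ ((od_qpow ha m).mono (by positivity)))
      exact (hm.mono (by push_cast; omega)).sub (h2.mono (by omega))
    by_cases hn : n = 0
    · rw [eq_C_of_natDegree_eq_zero (hP.trans hn), h0, map_zero]
    · have h1 : divX P = 0 := by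
        refine ih (n - 1) (by omega) _ (by rw [natDegree_divX_eq_natDegree_tsub_one, hP]) ?_
        intro D
        filter_upwards [h (D + 2)] with m hm
        have h2 : (divX P).eval ((a ^ 2) ^ m) = ((a ^ 2) ^ m)⁻¹ * P.eval ((a ^ 2) ^ m) := by
          rw [hs, h0, zero_add, ← mul_assoc, inv_mul_cancel₀ (hq m), one_mul]
        rw [h2]
        exact ((od_qinv ha m).mul hm).mono (by push_cast; linarith)
      rw [← X_mul_divX_add P, h1, h0]; simp

end Od

/-- Laurent polynomial functions -/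
def LP (φ : K → K) : Prop := ∃ (P : K[X]) (d : ℕ), ∀ M : K, M ≠ 0 → φ M = P.eval M * M⁻¹ ^ d

theorem LP.const (c : K) : LP fun _ : K => c := ⟨C c, 0, fun M _ => by simp⟩

theorem LP.id : LP fun M : K => M := ⟨X, 0, fun M _ => by simp⟩

theorem LP.inv : LP fun M : K => M⁻¹ := ⟨1, 1, fun M _ => by simp⟩

theorem LP.add {φ ψ : K → K} (h : LP φ) (h' : LP ψ) : LP fun M => φ M + ψ M := by
  obtain ⟨P, d, hP⟩ := h
  obtain ⟨Q, e, hQ⟩ := h'
  refine ⟨P * X ^ e + Q * X ^ d, d + e, fun M hM => ?_⟩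
  simp only [hP M hM, hQ M hM, eval_add, eval_mul, eval_pow, eval_X, inv_pow, pow_add]
  field_simp

theorem LP.mul {φ ψ : K → K} (h : LP φ) (h' : LP ψ) : LP fun M => φ M * ψ M := by
  obtain ⟨P, d, hP⟩ := h
  obtain ⟨Q, e, hQ⟩ := h'
  refine ⟨P * Q, d + e, fun M hM => ?_⟩
  simp only [hP M hM, hQ M hM, eval_mul, pow_add]
  ring

theorem LP.neg {φ : K → K} (h : LP φ) : LP fun M => -φ M := by
  simpa using (LP.const (-1 : K)).mul h

theorem LP.sub {φ ψ : K → K} (h : LP φ) (h' : LP ψ) : LP fun M => φ M - ψ M := by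
  simpa [sub_eq_add_neg] using h.add h'.neg

theorem LP.pow {φ : K → K} (h : LP φ) (n : ℕ) : LP fun M => φ M ^ n := by
  induction n with
  | zero => simpa using LP.const (1 : K)
  | succ n ih => simpa [pow_succ] using ih.mul h

theorem LP.sum {ι : Type} (s : Finset ι) {φ : ι → K → K} (h : ∀ i ∈ s, LP (φ i)) :
    LP fun M => ∑ i ∈ s, φ i M := by
  classical
  induction s using Finset.induction_on with
  | empty => simpa using LP.const (0 : K)
  | insert i s hi ih =>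
    simp only [Finset.sum_insert hi]
    exact (h i (mem_insert_self _ _)).add (ih fun j hj => h j (mem_insert_of_mem hj))

theorem LP.prod {ι : Type} (s : Finset ι) {φ : ι → K → K} (h : ∀ i ∈ s, LP (φ i)) :
    LP fun M => ∏ i ∈ s, φ i M := by
  classical
  induction s using Finset.induction_on with
  | empty => simpa using LP.const (1 : K)
  | insert i s hi ih =>
    simp only [Finset.prod_insert hi]
    exact (h i (mem_insert_self _ _)).mul (ih fun j hj => h j (mem_insert_of_mem hj))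

theorem LP.eval {φ : K → K} (h : LP φ) (P : K[X]) : LP fun M => P.eval (φ M) := by
  induction P using Polynomial.induction_on' with
  | add p q hp hq => simpa using hp.add hq
  | monomial n c => simpa [eval_monomial] using (LP.const c).mul (h.pow n)

section Core
variable {v : Valuation K (WithZero (Multiplicative ℤ))} {a : K}

theorem LP.od (ha : v a = exp (-1)) {φ : K → K} (h : LP φ) :
    ∃ e : ℕ, ∀ m : ℕ, Od v (-(e * (m + 1))) (φ ((a ^ 2) ^ m)) := by
  obtain ⟨P, d, hP⟩ := h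
  obtain ⟨e, he⟩ := od_eval (v := v) P
  refine ⟨e + 2 * d, fun m => ?_⟩
  rw [hP _ (pow_ne_zero _ (pow_ne_zero _ (a_ne ha)))]
  have h1 := (he _ ((od_qpow ha m).mono (by positivity))).mul ((od_qinv ha m).pow d)
  refine h1.mono ?_
  push_cast
  have : (0 : ℤ) ≤ e * m := by positivity
  nlinarith

theorem LP.vanish (ha : v a = exp (-1)) {φ : K → K} (h : LP φ)
    (h0 : ∀ D : ℕ, ∀ᶠ m : ℕ in atTop, Od v (D * m) (φ ((a ^ 2) ^ m))) (M : K) (hM : M ≠ 0) :
    φ M = 0 := by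
  obtain ⟨P, d, hP⟩ := h
  have : P = 0 := by
    refine poly_zero ha _ P rfl fun D => ?_
    filter_upwards [h0 D] with m hm
    have hq : (a ^ 2) ^ m ≠ 0 := pow_ne_zero _ (pow_ne_zero _ (a_ne ha))
    have h1 : P.eval ((a ^ 2) ^ m) = φ ((a ^ 2) ^ m) * ((a ^ 2) ^ m) ^ d := by
      rw [hP _ hq, mul_assoc, ← mul_pow, inv_mul_cancel₀ hq, one_pow, mul_one]
    rw [h1]
    refine (hm.mul ((od_qpow ha m).pow d)).mono ?_
    have : (0 : ℤ) ≤ d * (2 * m) := by positivity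
    linarith
  rw [hP M hM, this]; simp

theorem od_dl (ha : v a = exp (-1)) (m : ℕ) : Od v (-(2 * m)) (dl a m) := by
  unfold dl
  have h1 : Od v (-(2 * m)) (∑ i ∈ range (m + 1), (a ^ 2) ^ i * (a⁻¹ ^ 2) ^ (m - i)) := by
    refine Od.sum _ fun i hi => ?_
    have h2 := od_qinv ha (m - i)
    rw [← inv_pow, ← inv_pow] at h2
    refine ((od_qpow ha i).mul h2).mono ?_
    have : m - i ≤ m := Nat.sub_le _ _
    omega
  simpa using (Od.sign m).mul h1

theorem od_term (ha : v a = exp (-1)) (c : ℕ) :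
    Od v (6 * c * c + 2 * c) ((-1) ^ c * a ^ (6 * c * (c + 1)) * dl a (2 * c)) := by
  refine (((Od.sign c).mul ((od_a ha).pow (6 * c * (c + 1)))).mul (od_dl ha (2 * c))).mono ?_
  push_cast
  linarith

theorem od_sm_sub (ha : v a = exp (-1)) (m j : ℕ) :
    Od v (6 * m * m + 1) (sm a (m + j) - sm a m) := by
  induction j with
  | zero => simpa using Od.zero _
  | succ j ih =>
    have h1 : sm a (m + (j + 1)) - sm a m = (sm a (m + j) - sm a m) +
        (-1) ^ (m + j + 1) * a ^ (6 * (m + j + 1) * (m + j + 1 + 1)) * dl a (2 * (m + j + 1)) := by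
      unfold sm
      rw [← add_assoc, Finset.sum_range_succ _ (m + j + 1)]
      ring
    rw [h1]
    refine ih.add ((od_term ha (m + j + 1)).mono ?_)
    push_cast
    have h2 : (0 : ℤ) ≤ m := by positivity
    have h3 : (0 : ℤ) ≤ j := by positivity
    nlinarith

theorem od_sm_one (ha : v a = exp (-1)) (m : ℕ) : Od v 1 (sm a m - 1) := by
  have := od_sm_sub ha 0 m
  have h0 : sm a 0 = 1 := by simp [sm, dl]
  simpa [h0] using this

theorem od_sm (ha : v a = exp (-1)) (m : ℕ) : Od v 0 (sm a m) := by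
  have := ((od_sm_one ha m).mono (by omega : (0 : ℤ) ≤ 1)).add Od.one
  simpa using this

theorem core (ha : v a = exp (-1)) (t : ℕ) (τ : ℕ → K → K) (hτ : ∀ j, LP (τ j))
    (h : ∀ m, ∑ j ∈ range t, τ j ((a ^ 2) ^ m) * sm a (m + j) ^ 2 = 0) (M : K) (hM : M ≠ 0) :
    ∑ j ∈ range t, τ j M = 0 := by
  refine LP.vanish ha (LP.sum (range t) fun j _ => hτ j) (fun D => ?_) M hM
  choose e he using fun j => LP.od ha (hτ j)
  obtain ⟨E, hE⟩ : ∃ E : ℕ, ∀ j ∈ range t, e j ≤ E :=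
    ⟨(range t).sup e, fun j hj => Finset.le_sup hj⟩
  filter_upwards [eventually_ge_atTop (D + E + 1)] with m hm
  obtain ⟨hs, hs'⟩ := od_inv_of_one (od_sm_one ha m)
  have h1 : ∑ j ∈ range t, τ j ((a ^ 2) ^ m) = ∑ j ∈ range t, τ j ((a ^ 2) ^ m) *
      (-(sm a (m + j) - sm a m) * (sm a (m + j) + sm a m) * (sm a m)⁻¹ ^ 2) := by
    have h2 : ∀ j, τ j ((a ^ 2) ^ m) *
        (-(sm a (m + j) - sm a m) * (sm a (m + j) + sm a m) * (sm a m)⁻¹ ^ 2) =
        τ j ((a ^ 2) ^ m) - τ j ((a ^ 2) ^ m) * sm a (m + j) ^ 2 * (sm a m)⁻¹ ^ 2 := fun j => by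
      field_simp
      ring
    simp only [h2, Finset.sum_sub_distrib, ← Finset.sum_mul, h m]
    simp
  rw [h1]
  refine Od.sum _ fun j hj => ?_
  have h3 := (he j m).mul (((od_sm_sub ha m j).neg.mul ((od_sm ha (m + j)).add (od_sm ha m))).mul
    (hs'.pow 2))
  refine h3.mono ?_
  have h4 : (e j : ℤ) ≤ E := by exact_mod_cast hE j hj
  have h5 : (D : ℤ) + E + 1 ≤ m := by exact_mod_cast hm
  have h6 : (0 : ℤ) ≤ e j := by positivity
  have h7 : (0 : ℤ) ≤ D := by positivity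
  push_cast
  nlinarith

end Core

theorem vv_lin (a : K) (k : ℕ) : ∃ b : ℕ → K, ∀ x,
    vv a k (x + k) = fv a (x + 2 * k) + ∑ j ∈ range (2 * k), b j * fv a (x + j) := by
  induction k with
  | zero => exact ⟨fun _ => 0, fun x => by simp [vv]⟩
  | succ k ih =>
    obtain ⟨b, hb⟩ := ih
    refine ⟨fun j => (if 2 ≤ j then b (j - 2) else 0) + (if j < 2 * k then b j else 0) +
      (if j = 2 * k then 1 else 0), fun x => ?_⟩
    have h1 : vv a (k + 1) (x + (k + 1)) = vv a k (x + 2 + k) + vv a k (x + k) := by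
      rw [← add_assoc, vv]
      congr 2
      omega
    rw [h1, hb, hb]
    simp only [add_mul, Finset.sum_add_distrib]
    have e1 : ∑ j ∈ range (2 * (k + 1)), (if 2 ≤ j then b (j - 2) else 0) * fv a (x + j) =
        ∑ j ∈ range (2 * k), b j * fv a (x + 2 + j) := by
      rw [show 2 * (k + 1) = 2 + 2 * k by ring, Finset.sum_range_add]
      simp [Finset.sum_range_succ, add_assoc]
    have e2 : ∑ j ∈ range (2 * (k + 1)), (if j < 2 * k then b j else 0) * fv a (x + j) =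
        ∑ j ∈ range (2 * k), b j * fv a (x + j) := by
      rw [show 2 * (k + 1) = 2 * k + 1 + 1 by ring, Finset.sum_range_succ, Finset.sum_range_succ]
      simp only [lt_irrefl, if_false, zero_mul, add_zero, show ¬ (2 * k + 1 < 2 * k) by omega]
      exact Finset.sum_congr rfl fun j hj => by rw [if_pos (mem_range.1 hj)]
    have e3 : ∑ j ∈ range (2 * (k + 1)), (if j = 2 * k then (1 : K) else 0) * fv a (x + j) =
        fv a (x + 2 * k) := by
      rw [Finset.sum_eq_single (2 * k)]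
      · simp
      · intro j _ hj; simp [hj]
      · intro hj; exact absurd (mem_range.2 (by omega)) hj
    rw [e1, e2, e3, show x + 2 + 2 * k = x + 2 * (k + 1) by ring]
    ring

/-- for `k < r` only lower terms occur -/
theorem vv_low (a : K) {k r : ℕ} (hk : k < r) : ∃ b : ℕ → K, ∀ x,
    vv a k (x + r) = ∑ j ∈ range (2 * r), b j * fv a (x + j) := by
  obtain ⟨d, rfl⟩ : ∃ d, r = k + d + 1 := ⟨r - k - 1, by omega⟩
  obtain ⟨b, hb⟩ := vv_lin a k
  refine ⟨fun j => (if j = d + 1 + 2 * k then 1 else 0) +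
    ∑ i ∈ range (2 * k), if j = d + 1 + i then b i else 0, fun x => ?_⟩
  rw [show x + (k + d + 1) = (x + d + 1) + k by ring, hb]
  simp only [add_mul, Finset.sum_add_distrib, Finset.sum_mul]
  congr 1
  · rw [Finset.sum_eq_single (d + 1 + 2 * k)]
    · simp [add_assoc]
    · intro j _ hj; simp [hj]
    · intro hj; exact absurd (mem_range.2 (by omega)) hj
  · rw [Finset.sum_comm]
    refine Finset.sum_congr rfl fun i hi => ?_
    have := mem_range.1 hi
    rw [Finset.sum_eq_single (d + 1 + i)]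
    · simp [add_assoc]
    · intro j _ hj; simp [hj]
    · intro hj; exact absurd (mem_range.2 (by omega)) hj

theorem dl_eq (a : K) (m : ℕ) :
    dl a m * (a ^ 2 - a⁻¹ ^ 2) = (-1) ^ m * ((a ^ 2) ^ (m + 1) - (a⁻¹ ^ 2) ^ (m + 1)) := by
  unfold dl
  have := geom_sum₂_mul (a ^ 2) (a⁻¹ ^ 2) (m + 1)
  simp only [Nat.add_sub_cancel] at this
  rw [mul_assoc, this]

/-- the denominator -/
def ee (a : K) (j : ℕ) (M : K) : K := M * (a ^ 2) ^ (j + 1) - M⁻¹ * (a⁻¹ ^ 2) ^ (j + 1)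

/-- the monomial factor -/
def yy (a : K) (j : ℕ) (M : K) : K := (-1) ^ j * a⁻¹ ^ (6 * j * (j + 2)) * M⁻¹ ^ (6 * (j + 1))

theorem ee_lp (a : K) (j : ℕ) : LP (ee a j) :=
  (LP.id.mul (LP.const _)).sub (LP.inv.mul (LP.const _))

theorem yy_lp (a : K) (j : ℕ) : LP (yy a j) := (LP.const _).mul (LP.inv.pow _)

section Main
variable {v : Valuation K (WithZero (Multiplicative ℤ))} {a : K}

theorem qp_ne (ha : v a = exp (-1)) {n : ℕ} (hn : 0 < n) : (a ^ 2) ^ n - (a⁻¹ ^ 2) ^ n ≠ 0 := by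
  intro h
  have h0 := a_ne ha
  apply pow_ne_one ha (show 0 < 4 * n by omega)
  have h1 : (a ^ 2) ^ n = (a⁻¹ ^ 2) ^ n := sub_eq_zero.1 h
  have h2 : (a ^ 2) ^ n * (a⁻¹ ^ 2) ^ n = 1 := by
    rw [← mul_pow, ← mul_pow, mul_inv_cancel₀ h0]; simp
  rw [← h1] at h2
  rw [← h2]; ring

theorem ee_q (a : K) (m j : ℕ) :
    ee a j ((a ^ 2) ^ m) = (a ^ 2) ^ (m + j + 1) - (a⁻¹ ^ 2) ^ (m + j + 1) := by
  unfold ee
  rw [← inv_pow, ← inv_pow]
  ring

theorem fv_eq (ha : v a = exp (-1)) (m j : ℕ) :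
    fv a (m + 1 + j) * ee a j ((a ^ 2) ^ m) =
      ((a ^ 2 - a⁻¹ ^ 2) * (-1) ^ m * a⁻¹ ^ (6 * m * m)) *
        (yy a j ((a ^ 2) ^ m) * sm a (m + j) ^ 2) := by
  have h0 := a_ne ha
  have h1 : a ^ 2 - a⁻¹ ^ 2 ≠ 0 := by simpa using qp_ne ha (n := 1) one_pos
  have h2 := qp_ne ha (n := m + j + 1) (by omega)
  have h3 := dl_eq a (m + j)
  have h4 : ((-1 : K) ^ (m + j)) * (-1) ^ (m + j) = 1 := by rw [← mul_pow]; simp
  have h5 : dl a (m + j) ≠ 0 := by
    intro h
    rw [h, zero_mul] at h3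
    exact (mul_ne_zero (pow_ne_zero _ (by simp)) h2) h3.symm
  have h6 : tw a (m + j) ^ 6 = a ^ (6 * (m + j) * (m + j + 2)) := by
    unfold tw
    rw [mul_pow, ← pow_mul, ← pow_mul, mul_comm (m + j) 6, pow_mul]
    norm_num
    ring
  have h7 : ee a j ((a ^ 2) ^ m) = (-1) ^ (m + j) * (dl a (m + j) * (a ^ 2 - a⁻¹ ^ 2)) := by
    rw [h3, ← mul_assoc, h4, one_mul, ee_q a]
  have h8 : a⁻¹ ^ (6 * m * m) * (a⁻¹ ^ (6 * j * (j + 2)) * ((a ^ 2) ^ m)⁻¹ ^ (6 * (j + 1))) =
      (a ^ (6 * (m + j) * (m + j + 2)))⁻¹ * ((a ^ 2) ^ m)⁻¹ ^ 0 := by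
    rw [← inv_pow, ← inv_pow, ← inv_pow]
    ring
  rw [show m + 1 + j = m + j + 1 by ring, fv, h6, h7]
  unfold yy
  have h9 : a ^ (6 * (m + j) * (m + j + 2)) ≠ 0 := pow_ne_zero _ h0
  calc sm a (m + j) ^ 2 / (dl a (m + j) * a ^ (6 * (m + j) * (m + j + 2))) *
        ((-1) ^ (m + j) * (dl a (m + j) * (a ^ 2 - a⁻¹ ^ 2)))
      = (a ^ 2 - a⁻¹ ^ 2) * (-1) ^ (m + j) * sm a (m + j) ^ 2 *
        ((a ^ (6 * (m + j) * (m + j + 2)))⁻¹ * ((a ^ 2) ^ m)⁻¹ ^ 0) := by
        rw [pow_zero, mul_one]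
        generalize (a ^ 2 - a⁻¹ ^ 2) = u
        field_simp
    _ = _ := by rw [← h8, pow_add]; ring

theorem no_rel (ha : v a = exp (-1)) (t : ℕ) (σ : ℕ → K → K) (hσ : ∀ j, LP (σ j))
    (h : ∀ m, fv a (m + 1 + t) = ∑ j ∈ range t, σ j ((a ^ 2) ^ m) * fv a (m + 1 + j)) : False := by
  have h0 := a_ne ha
  let σ' : ℕ → K → K := fun j M => if j = t then -1 else σ j M
  have hσ' : ∀ j, LP (σ' j) := fun j => by
    by_cases hj : j = t
    · simpa [σ', hj] using LP.const (-1 : K)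
    · simpa [σ', hj] using hσ j
  have h' : ∀ m, ∑ j ∈ range (t + 1), σ' j ((a ^ 2) ^ m) * fv a (m + 1 + j) = 0 := fun m => by
    rw [Finset.sum_range_succ, h m]
    have : ∑ j ∈ range t, σ' j ((a ^ 2) ^ m) * fv a (m + 1 + j) =
        ∑ j ∈ range t, σ j ((a ^ 2) ^ m) * fv a (m + 1 + j) :=
      Finset.sum_congr rfl fun j hj => by simp [σ', (mem_range.1 hj).ne]
    rw [this]
    simp [σ']
  let τ : ℕ → K → K := fun j M => σ' j M * yy a j M * ∏ i ∈ (range (t + 1)).erase j, ee a i M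
  have hτ : ∀ j, LP (τ j) := fun j =>
    ((hσ' j).mul (yy_lp a j)).mul (LP.prod _ fun i _ => ee_lp a i)
  have hM : (a⁻¹ ^ 2) ^ (t + 1) ≠ 0 := pow_ne_zero _ (pow_ne_zero _ (inv_ne_zero h0))
  have hc := core ha (t + 1) τ hτ (fun m => by
    have hu : (a ^ 2 - a⁻¹ ^ 2) * (-1) ^ m * a⁻¹ ^ (6 * m * m) ≠ 0 := by
      have h1 : a ^ 2 - a⁻¹ ^ 2 ≠ 0 := by simpa using qp_ne ha (n := 1) one_pos
      exact mul_ne_zero (mul_ne_zero h1 (pow_ne_zero _ (by simp))) (pow_ne_zero _ (inv_ne_zero h0))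
    apply mul_left_cancel₀ hu
    rw [mul_zero, Finset.mul_sum, ← zero_mul (∏ i ∈ range (t + 1), ee a i ((a ^ 2) ^ m)), ← h' m,
      Finset.sum_mul]
    refine Finset.sum_congr rfl fun j hj => ?_
    rw [← Finset.mul_prod_erase _ _ hj]
    have := fv_eq ha m j
    simp only [τ]
    linear_combination (-(σ' j ((a ^ 2) ^ m) *
      ∏ i ∈ (range (t + 1)).erase j, ee a i ((a ^ 2) ^ m))) * this) _ hM
  have hz : ee a t ((a⁻¹ ^ 2) ^ (t + 1)) = 0 := by
    unfold ee
    rw [← inv_pow, ← inv_pow, inv_inv]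
    ring
  have hnz : ∀ i, i < t → ee a i ((a⁻¹ ^ 2) ^ (t + 1)) ≠ 0 := fun i hi => by
    obtain ⟨d, rfl⟩ : ∃ d, t = i + d + 1 := ⟨t - i - 1, by omega⟩
    have h1 : ee a i ((a⁻¹ ^ 2) ^ (i + d + 1 + 1)) =
        -((a ^ 2) ^ (d + 1) - (a⁻¹ ^ 2) ^ (d + 1)) * ((a ^ 2) ^ (i + 1) * (a⁻¹ ^ 2) ^ (i + 1)) := by
      unfold ee
      rw [← inv_pow, ← inv_pow, inv_inv]
      ring
    rw [h1]
    exact mul_ne_zero (neg_ne_zero.2 (qp_ne ha (by omega)))
      (mul_ne_zero (pow_ne_zero _ (pow_ne_zero _ h0)) (pow_ne_zero _ (pow_ne_zero _ (inv_ne_zero h0))))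
  rw [Finset.sum_range_succ, Finset.sum_eq_zero, zero_add] at hc
  · refine (mul_ne_zero (mul_ne_zero (by simp [σ']) ?_) ?_) hc
    · exact mul_ne_zero (mul_ne_zero (pow_ne_zero _ (by simp)) (pow_ne_zero _ (inv_ne_zero h0)))
        (pow_ne_zero _ (inv_ne_zero hM))
    · refine Finset.prod_ne_zero_iff.2 fun i hi => hnz i ?_
      have := Finset.mem_erase.1 hi
      have := mem_range.1 this.2
      omega
  · intro j hj
    have hj' := mem_range.1 hj
    simp only [τ]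
    rw [Finset.prod_eq_zero (i := t) (Finset.mem_erase.2 ⟨by omega, mem_range.2 (by omega)⟩) hz,
      mul_zero]

theorem final (ha : v a = exp (-1)) (r : ℕ) (ρ : ℕ → K[X])
    (h : ∀ n, vv a r n = ∑ k ∈ range r, (ρ k).eval (ml (a ^ 2) (a⁻¹ ^ 2) n) * vv a k n) :
    False := by
  obtain ⟨b, hb⟩ := vv_lin a r
  have hc : ∀ k, ∃ c : ℕ → K, k < r → ∀ x,
      vv a k (x + r) = ∑ j ∈ range (2 * r), c j * fv a (x + j) := fun k => by
    by_cases hk : k < r
    · obtain ⟨c, hc⟩ := vv_low a hk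
      exact ⟨c, fun _ => hc⟩
    · exact ⟨fun _ => 0, fun h => absurd h hk⟩
  choose c hc using hc
  let μ : K → K := fun M => -(M * (a ^ 2) ^ (1 + r) + M⁻¹ * (a⁻¹ ^ 2) ^ (1 + r))
  have hμ : LP μ := ((LP.id.mul (LP.const _)).add (LP.inv.mul (LP.const _))).neg
  have hμm : ∀ m, μ ((a ^ 2) ^ m) = ml (a ^ 2) (a⁻¹ ^ 2) (m + 1 + r) := fun m => by
    simp only [μ, ml]
    rw [← inv_pow, ← inv_pow]
    ring
  refine no_rel ha (2 * r) (fun j M => (∑ k ∈ range r, (ρ k).eval (μ M) * c k j) - b j)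
    (fun j => (LP.sum _ fun k _ => (hμ.eval _).mul (LP.const _)).sub (LP.const _)) fun m => ?_
  have h1 := h (m + 1 + r)
  rw [hb] at h1
  simp only [sub_mul, Finset.sum_sub_distrib, Finset.sum_mul, hμm]
  rw [Finset.sum_comm, eq_sub_iff_add_eq, h1]
  refine Finset.sum_congr rfl fun k hk => ?_
  rw [hc k (mem_range.1 hk), Finset.mul_sum]
  exact Finset.sum_congr rfl fun j _ => by ring

end Main

end FinK

theorem final_knot (r : ℕ) (ρ : ℕ → (RatFunc ℚ)[X])
    (h : ∀ n, vv A r n = ∑ k ∈ range r, (ρ k).eval (ml (A ^ 2) (A⁻¹ ^ 2) n) * vv A k n) :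
    False :=
  FinK.final (v := (Polynomial.idealX ℚ).valuation (RatFunc ℚ))
    (Polynomial.valuation_X_eq_neg_one ℚ) r ρ h

end Pool.Agent.P.MP_382f0d_gt.KN
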