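import Pool.Agent.P.MP_382f0d_gt.KN.Tr

/-! Transfer from labelled strands to positions. -/

namespace Pool.Agent.P.MP_382f0d_gt.KN

open Finset TL Function

variable {ι C : Type} [DecidableEq ι] [Fintype C] [DecidableEq C] {a : ℂ}

set_option linter.unusedSectionVars false

/-- put a colour in front -/
def cns (c : C) (x : ℕ → C) : ℕ → C
  | 0 => c
  | n + 1 => x n

/-- forget the first colour -/
def tl (x : ℕ → C) : ℕ → C := fun n => x (n + 1)

theorem cns_tl (x : ℕ → C) : cns (x 0) (tl x) = x := by funext n; cases n <;> rfl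

/-- the shift of an operator -/
def shf (T : Op ℕ C) : Op ℕ C where
  toFun F x := T (subO (cns (x 0)) F) (tl x)
  map_add' F G := by funext x; simp
  map_smul' c F := by funext x; simp

theorem shf_apply (T : Op ℕ C) (F : Fn ℕ C) (x : ℕ → C) :
    shf T F x = T (fun y => F (cns (x 0) y)) (tl x) := rfl

/-- the shift as an algebra map -/
def shA : Op ℕ C →ₐ[ℂ] Op ℕ C where
  toFun := shf
  map_one' := LinearMap.ext fun F => funext fun x => congrArg F (cns_tl x)
  map_mul' _ _ := rfl
  map_zero' := rfl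
  map_add' _ _ := rfl
  commutes' c := LinearMap.ext fun F => funext fun x => congrArg (fun y => c * F y) (cns_tl x)

/-- the cap on the first two positions -/
def etaO : Op ℕ C := (tstO fun y => y 0 = y 1) * subO fun y => tl (tl y)

/-- the cup on the first two positions -/
def epsO : Op ℕ C := ∑ c : C, subO fun y => cns c (cns c y)

/-- a new first position of colour `c` -/
def uO (c : C) : Op ℕ C := (tstO fun y => y 0 = c) * subO tl

theorem etaO_apply (F : Fn ℕ C) (x : ℕ → C) :
    etaO F x = if x 0 = x 1 then F (tl (tl x)) else 0 := rfl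

theorem epsO_apply (F : Fn ℕ C) (x : ℕ → C) : epsO F x = ∑ c : C, F (cns c (cns c x)) := by
  simp [epsO, subO, LinearMap.sum_apply, Finset.sum_apply]

theorem lin_ite (T : Op ℕ C) (p : Prop) [Decidable p] (F : Fn ℕ C) (x : ℕ → C) :
    T (fun y => if p then F y else 0) x = if p then T F x else 0 := by
  split_ifs
  · rfl
  · exact congrFun (map_zero T) x

instance : TL (Op ℕ C) where
  S := shA
  η := etaO
  ε := epsO
  z1 := LinearMap.ext fun F => funext fun x => by
    rw [Module.End.mul_apply, epsO_apply]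
    have : ∀ c, (shA etaO : Op ℕ C) F (cns c (cns c x)) =
        if c = x 0 then F (cns c (tl x)) else 0 := fun c => rfl
    simp [this, cns_tl]
  z2 := LinearMap.ext fun F => funext fun x => by
    have : ∀ c, etaO F (cns (x 0) (cns c (cns c (tl x)))) =
        if x 0 = c then F (cns c (tl x)) else 0 := fun c => rfl
    change epsO (fun y => etaO F (cns (x 0) y)) (tl x) = F x
    simp [epsO_apply, this, cns_tl]
  sη T := LinearMap.ext fun F => funext fun x => lin_ite T (x 0 = x 1) F (tl (tl x))
  sε T := LinearMap.ext fun F => funext fun x => by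
    have : epsO F = ∑ c : C, fun y => F (cns c (cns c y)) := by
      funext y; simp [epsO_apply, Finset.sum_apply]
    rw [Module.End.mul_apply, Module.End.mul_apply, epsO_apply, this, map_sum, Finset.sum_apply]
    rfl
  uv := ⟨C, inferInstance, uO, fun c => subO (cns c),
    LinearMap.ext fun F => funext fun x => by
      have : ∀ c, (uO c * subO (cns c) : Op ℕ C) F x =
          if x 0 = c then F (cns c (tl x)) else 0 := fun c => rfl
      simp [LinearMap.sum_apply, Finset.sum_apply, this, cns_tl, -Module.End.mul_apply],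
    fun c T => LinearMap.ext fun F => funext fun x => lin_ite T (x 0 = c) F (tl x),
    fun c T => rfl,
    fun T => LinearMap.ext fun F => funext fun x => by
      rw [Module.End.mul_apply, Module.End.mul_apply, epsO_apply, LinearMap.sum_apply,
        Finset.sum_apply]
      refine Finset.sum_congr rfl fun c _ => ?_
      change T (fun y => if c = y 0 then F (tl y) else 0) (cns c x) =
        T (fun y => if y 0 = c then F (tl y) else 0) (cns c x)
      simp only [eq_comm]⟩

theorem gd_of (ha : Good C a) : Gd (Op ℕ C) a :=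
  ⟨ha.ne, LinearMap.ext fun F => funext fun x => by
    change epsO (etaO F) x = (-a ^ 2 - a⁻¹ ^ 2) * F x
    have : ∀ c, etaO F (cns c (cns c x)) = F x := fun c => if_pos rfl
    rw [← ha.eq]; simp [epsO_apply, this]⟩

variable [Inhabited C]

/-- the colours of the strands of `l`, in order -/
def emb (x : ι → C) : List ι → ℕ → C
  | [] => fun _ => default
  | s :: l => cns (x s) (emb x l)

theorem emb_update {x : ι → C} {s : ι} {c : C} {l : List ι} (h : s ∉ l) :
    emb (update x s c) l = emb x l := by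
  induction l with
  | nil => rfl
  | cons t l ih =>
    simp only [List.mem_cons, not_or] at h
    rw [emb, emb, ih h.2, update_of_ne (Ne.symm h.1)]

/-- `O` acts as `T` between the orderings `l` (below) and `l'` (above) of the strands -/
def Tf (O : Op ι C) (l l' : List ι) (T : Op ℕ C) : Prop :=
  ∀ F, O (fun x => F (emb x l')) = fun x => T F (emb x l)

theorem Tf.mul {O O' : Op ι C} {l l' l'' : List ι} {T T' : Op ℕ C} (h : Tf O l l' T)
    (k : Tf O' l' l'' T') : Tf (O * O') l l'' (T * T') := fun F => by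
  rw [Module.End.mul_apply, k, h]; rfl

theorem Tf.one (l : List ι) : Tf (1 : Op ι C) l l 1 := fun _ => rfl

theorem Tf.add {O O' : Op ι C} {l l' : List ι} {T T' : Op ℕ C} (h : Tf O l l' T)
    (k : Tf O' l l' T') : Tf (O + O') l l' (T + T') := fun F => by
  rw [LinearMap.add_apply, k, h]; rfl

theorem Tf.smul {O : Op ι C} {l l' : List ι} {T : Op ℕ C} (h : Tf O l l' T) (c : ℂ) :
    Tf (c • O) l l' (c • T) := fun F => by
  rw [LinearMap.smul_apply, h]; rfl

theorem Tf.pow {O : Op ι C} {l : List ι} {T : Op ℕ C} (h : Tf O l l T) (j : ℕ) :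
    Tf (O ^ j) l l (T ^ j) := by
  induction j with
  | zero => exact .one l
  | succ j ih => rw [pow_succ, pow_succ]; exact ih.mul h

theorem Tf.cast {O O' : Op ι C} {l l' m m' : List ι} {T T' : Op ℕ C} (h : Tf O l l' T)
    (e0 : O = O') (e1 : l = m) (e2 : l' = m') (e3 : T = T') : Tf O' m m' T' :=
  e0 ▸ e1 ▸ e2 ▸ e3 ▸ h

theorem Tf.sh {O : Op ι C} {l l' : List ι} {T : Op ℕ C} (h : Tf O l l' T) {U : Set ι}
    (hO : O ∈ loc U) {s : ι} (hs : s ∉ U) : Tf O (s :: l) (s :: l') (S T) := fun F => by
  have e : (fun x => F (emb x (s :: l'))) =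
      ∑ c : C, indO s c fun x => (fun y => F (cns c y)) (emb x l') := by
    funext x; simp [Finset.sum_apply, indO_apply, emb]
  rw [e, map_sum]
  funext x
  have : ∀ c, O (indO s c fun x => (fun y => F (cns c y)) (emb x l')) x =
      if x s = c then T (fun y => F (cns c y)) (emb x l) else 0 := fun c => by
    rw [← loc_comm (ind_loc s c) hO (by simpa using hs), h fun y => F (cns c y), indO_apply]
  simp only [Finset.sum_apply, this, sum_ite_eq, mem_univ, if_true]
  rfl

theorem Tf.sp {O : Op ι C} {l l' : List ι} {T : Op ℕ C} (h : Tf O l l' T) {U : Set ι}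
    (hO : O ∈ loc U) {p : List ι} (hp : ∀ s ∈ p, s ∉ U) :
    Tf O (p ++ l) (p ++ l') (Sp p.length T) := by
  induction p with
  | nil => exact h
  | cons s p ih =>
    rw [List.length_cons, Sp_succ]
    exact (ih fun t ht => hp t (by simp [ht])).sh hO (hp s (by simp))

theorem tf_cap (s t : ι) (q : List ι) : Tf (cap s t : Op ι C) (s :: t :: q) q η := fun _ => rfl

theorem tf_cup {s t : ι} {q : List ι} (h : (s :: t :: q).Nodup) :
    Tf (cup s t : Op ι C) q (s :: t :: q) ε := fun F => by
  simp only [List.nodup_cons, List.mem_cons, not_or] at h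
  funext x
  change _ = epsO F _
  simp [cup_apply, epsO_apply, emb, emb_update h.1.2, emb_update h.2.1, update_of_ne h.1.1]

theorem tf_cpy (s : ι) {t : ι} {q : List ι} (h : t ∉ q) :
    Tf (cpy s t : Op ι C) (s :: q) (t :: q) 1 := fun F => by
  funext x
  simp [cpy_apply, emb, emb_update h]

theorem tf_rr (a : ℂ) {s t : ι} {q : List ι} (h : (s :: t :: q).Nodup) :
    Tf (rr a s t : Op ι C) (s :: t :: q) (t :: s :: q) (σ a) := by
  have h' : (t :: s :: q).Nodup := (List.Perm.swap _ _ _).nodup_iff.1 h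
  refine (Tf.smul (fun F => ?_) a).add (((tf_cap s t q).mul ((tf_cup h').cast (cup_symm t s) rfl rfl rfl)).smul _)
  simp only [List.nodup_cons, List.mem_cons, not_or] at h
  funext x
  simp [swp_apply, emb, emb_update h.1.2, emb_update h.2.1, update_of_ne h.1.1]

theorem tf_tt (a : ℂ) {s : ι} {m q : List ι} (h : (s :: (m ++ q)).Nodup) :
    Tf (tt a s m : Op ι C) (s :: (m ++ q)) (m ++ s :: q) (Tn a m.length) := by
  induction m with
  | nil => exact .one _
  | cons t m ih =>
    have h' := h
    simp only [List.nodup_cons, List.mem_cons, List.cons_append, List.mem_append] at h' ih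
    exact (tf_rr a h).mul ((ih (by grind)).sh (tt_loc a s m) (by simp; grind))

theorem tf_tt_rev (a : ℂ) {s : ι} {m q : List ι} (h : (s :: (m ++ q)).Nodup) :
    Tf (tt a s m.reverse : Op ι C) (m ++ s :: q) (s :: (m ++ q)) (Un a m.length) := by
  induction m with
  | nil => exact .one _
  | cons t m ih =>
    have h' := h
    simp only [List.nodup_cons, List.mem_cons, List.cons_append, List.mem_append] at h' ih
    exact (((ih (by grind)).sh (tt_loc a s m.reverse) (by simp; grind)).mul
      (tf_rr a ((List.Perm.swap _ _ _).nodup_iff.1 h))).cast (by simp [tt, rr_symm a t s]) rfl rfl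
      rfl

theorem tf_cc (a : ℂ) {l q : List ι} (h : (l ++ q).Nodup) :
    Tf (cc a l : Op ι C) (l ++ q) (l ++ q) (cn a l.length) := by
  induction l with
  | nil => exact (Tf.one _).smul _
  | cons t l ih =>
    have h' := h
    simp only [List.nodup_cons, List.cons_append, List.mem_append] at h'
    exact (((tf_tt a h).mul (tf_tt_rev a h)).smul _).add
      (((ih h'.2).sh (cc_loc a l) (by simp; grind)).smul _)

theorem tf_xx (a : ℂ) {l m q : List ι} (h : (l ++ (m ++ q)).Nodup) :
    Tf (xx a l m : Op ι C) (l ++ (m ++ q)) (m ++ (l ++ q)) (Xn a l.length m.length) := by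
  induction l with
  | nil => exact .one _
  | cons s l ih =>
    simp only [List.nodup_cons, List.cons_append, List.mem_append] at h
    refine (((ih h.2).sh (xx_loc a l m) (by simp; grind)).mul (tf_tt a ?_)).cast (by simp [xx]) rfl
      rfl rfl
    simp only [List.nodup_cons, List.nodup_append, List.mem_append] at h ⊢
    grind

theorem tf_cpyP {l l' q : List ι} (hl : l.length = l'.length) (h : (l ++ (l' ++ q)).Nodup) :
    Tf (cpyP (l.zip l') : Op ι C) (l ++ q) (l' ++ q) 1 := by
  induction l generalizing l' with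
  | nil => obtain rfl := List.length_eq_zero_iff.1 hl.symm; exact .one _
  | cons s l ih =>
    obtain ⟨t, l', rfl⟩ := List.exists_cons_of_length_eq_add_one hl.symm
    have hl' : l.length = l'.length := by simpa using hl
    simp only [List.nodup_cons, List.nodup_append, List.mem_append, List.mem_cons,
      List.cons_append] at h ih
    refine ((tf_cpy s (by simp; grind)).mul ((ih hl' (by grind)).sh (cpyP_loc _) ?_)).cast rfl rfl
      rfl (by simp)
    simp only [lab, List.map_fst_zip hl'.le, List.map_snd_zip hl'.ge, List.mem_append,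
      Set.mem_setOf_eq]
    grind

/-- nested cups -/
def cupN {Λ : Type} [Ring Λ] [Algebra ℂ Λ] [TL Λ] : ℕ → Λ
  | 0 => 1
  | m + 1 => ε * S (cupN m)

/-- nested caps -/
def capN {Λ : Type} [Ring Λ] [Algebra ℂ Λ] [TL Λ] : ℕ → Λ
  | 0 => 1
  | m + 1 => S (capN m) * η

theorem tr_eq {Λ : Type} [Ring Λ] [Algebra ℂ Λ] [TL Λ] (m : ℕ) (T : Λ) :
    tr m T = cupN m * Sp m T * capN m := by
  induction m with
  | zero => simp [cupN, capN]
  | succ m ih =>
    rw [tr_add, ih, cupN, capN, Sp_succ]
    change lp _ = _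
    simp only [lp_apply, map_mul, mul_assoc]

theorem tf_cupP {l r q : List ι} (hl : l.length = r.length) (h : (l ++ (r ++ q)).Nodup) :
    Tf (cupP (l.zip r) : Op ι C) q (l ++ (r.reverse ++ q)) (cupN l.length) := by
  induction l generalizing r q with
  | nil => obtain rfl := List.length_eq_zero_iff.1 hl.symm; exact .one _
  | cons s l ih =>
    obtain ⟨t, r, rfl⟩ := List.exists_cons_of_length_eq_add_one hl.symm
    have hl' : l.length = r.length := by simpa using hl
    have := @ih r (t :: q) hl'
    clear ih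
    simp only [List.nodup_cons, List.nodup_append, List.mem_append, List.mem_cons,
      List.cons_append] at h this
    refine ((tf_cup (s := s) (t := t) (by simp; grind)).mul
      ((this (by grind)).sh (cupP_loc _) ?_)).cast rfl rfl (by simp) rfl
    simp only [lab, List.map_fst_zip hl'.le, List.map_snd_zip hl'.ge, List.mem_append,
      Set.mem_setOf_eq]
    grind

theorem tf_capP {l r q : List ι} (hl : l.length = r.length) (h : (l ++ (r ++ q)).Nodup) :
    Tf (capP (l.zip r) : Op ι C) (l ++ (r.reverse ++ q)) q (capN l.length) := by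
  induction l generalizing r q with
  | nil => obtain rfl := List.length_eq_zero_iff.1 hl.symm; exact .one _
  | cons s l ih =>
    obtain ⟨t, r, rfl⟩ := List.exists_cons_of_length_eq_add_one hl.symm
    have hl' : l.length = r.length := by simpa using hl
    have := @ih r (t :: q) hl'
    clear ih
    simp only [List.nodup_cons, List.nodup_append, List.mem_append, List.mem_cons,
      List.cons_append] at h this
    have hm : ∀ k ∈ lab (l.zip r), k ≠ s ∧ k ≠ t := by
      simp only [lab, List.map_fst_zip hl'.le, List.map_snd_zip hl'.ge, List.mem_append]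
      grind
    refine (((this (by grind)).sh (capP_loc _) fun k => (hm s k).1 rfl).mul (tf_cap s t q)).cast
      ?_ (by simp) rfl rfl
    exact (loc_commute (capP_loc _) (cap_loc s t) (by simp [Set.disjoint_left]; grind)).eq

section
variable {p l m r q : List ι}

theorem mem_lab_zip (hl : l.length = r.length) {k : ι} : k ∈ lab (l.zip r) ↔ k ∈ l ∨ k ∈ r := by
  simp only [lab, List.map_fst_zip hl.le, List.map_snd_zip hl.ge, List.mem_append]

theorem nd_tail (h : (p ++ (l ++ (r ++ q))).Nodup) :
    (l ++ (r ++ q)).Nodup ∧ ∀ s ∈ p, ¬ (s ∈ l ∨ s ∈ r) := by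
  rw [List.nodup_append] at h
  refine ⟨h.2.1, fun s hs k => h.2.2 s hs s ?_ rfl⟩
  simp only [List.mem_append]; tauto

theorem tf_xx' (a : ℂ) (h : (p ++ (l ++ (r ++ q))).Nodup) :
    Tf (xx a l r : Op ι C) (p ++ (l ++ (r ++ q))) (p ++ (r ++ (l ++ q)))
      (Sp p.length (Xn a l.length r.length)) :=
  (tf_xx a (nd_tail h).1).sp (xx_loc a l r) (nd_tail h).2

theorem tf_cpyP' (hl : l.length = r.length) (h : (p ++ (l ++ (r ++ q))).Nodup) :
    Tf (cpyP (l.zip r) : Op ι C) (p ++ (l ++ q)) (p ++ (r ++ q)) 1 :=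
  ((tf_cpyP hl (nd_tail h).1).sp (cpyP_loc _) fun s hs k =>
    (nd_tail h).2 s hs ((mem_lab_zip hl).1 k)).cast rfl rfl rfl (map_one _)

theorem nd_rev (h : (p ++ (l ++ (r ++ q))).Nodup) : (p ++ (l ++ (r.reverse ++ q))).Nodup :=
  ((((List.reverse_perm r).append_right q).append_left l).append_left p).nodup_iff.2 h

theorem tf_cupP' (hl : l.length = r.length) (h : (p ++ (l ++ (r ++ q))).Nodup) :
    Tf (cupP (l.zip r.reverse) : Op ι C) (p ++ q) (p ++ (l ++ (r ++ q)))
      (Sp p.length (cupN l.length)) := by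
  have hl' : l.length = r.reverse.length := by simpa using hl
  simpa using (tf_cupP (C := C) hl' (nd_tail (nd_rev h)).1).sp (cupP_loc _) fun s hs k =>
    (nd_tail (nd_rev h)).2 s hs ((mem_lab_zip hl').1 k)

theorem tf_capP' (hl : l.length = r.length) (h : (p ++ (l ++ (r ++ q))).Nodup) :
    Tf (capP (l.zip r.reverse) : Op ι C) (p ++ (l ++ (r ++ q))) (p ++ q)
      (Sp p.length (capN l.length)) := by
  have hl' : l.length = r.reverse.length := by simpa using hl
  simpa using (tf_capP (C := C) hl' (nd_tail (nd_rev h)).1).sp (capP_loc _) fun s hs k =>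
    (nd_tail (nd_rev h)).2 s hs ((mem_lab_zip hl').1 k)

end

section
variable {κ : Type} {B : κ → List ι} {m : ℕ}

theorem nd_flat (hn : ∀ t, (B t).Nodup) (hd : ∀ s t, s ≠ t → ∀ x ∈ B s, x ∉ B t) {ts : List κ}
    (h : ts.Nodup) : (ts.flatMap B).Nodup :=
  List.nodup_flatMap.2 ⟨fun t _ => hn t, h.imp fun {s t} k => hd s t k⟩

theorem tf_tre (a : ℂ) (hm : ∀ t, (B t).length = m) (hn : ∀ t, (B t).Nodup)
    (hd : ∀ s t, s ≠ t → ∀ x ∈ B s, x ∉ B t) {p i b₁ b₂ b₃ b₄ b₅ b₆ b₇ o : κ}
    (h : [p, i, b₁, b₂, b₃, b₄, b₅, b₆, b₇, o].Nodup) :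
    Tf (tre a (B i) (B b₁) (B b₂) (B b₃) (B b₄) (B b₅) (B b₆) (B b₇) (B o) : Op ι C)
      (B p ++ B i) (B p ++ B o) (Sp m (H3 a m)) := by
  have hl : ∀ s t, (B s).length = (B t).length := fun s t => by rw [hm, hm]
  have n3 : ∀ s t u : κ, [s, t, u].Nodup → (B s ++ (B t ++ (B u ++ []))).Nodup :=
    fun s t u h => by simpa using nd_flat hn hd h
  have n4 : ∀ s t u v : κ, [s, t, u, v].Nodup → (B s ++ (B t ++ (B u ++ B v))).Nodup :=
    fun s t u v h => by simpa using nd_flat hn hd h
  have n4' : ∀ s t u v : κ, [s, t, u, v].Nodup → (B s ++ B t ++ (B u ++ (B v ++ []))).Nodup :=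
    fun s t u v h => by simpa using nd_flat hn hd h
  have n5 : ∀ s t u v w : κ, [s, t, u, v, w].Nodup →
      (B s ++ B t ++ (B u ++ (B v ++ B w))).Nodup := fun s t u v w h => by
    simpa using nd_flat hn hd h
  have n5' : ∀ s t u v w : κ, [s, t, u, v, w].Nodup →
      (B s ++ B t ++ B u ++ (B v ++ (B w ++ []))).Nodup := fun s t u v w h => by
    simpa using nd_flat hn hd h
  simp only [List.nodup_cons, List.mem_cons, List.not_mem_nil, List.nodup_nil] at h n3 n4 n4' n5 n5'
  have t1 := tf_cupP' (C := C) (hl _ _) (n4 p b₄ b₅ i (by grind))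
  have t2 := tf_cpyP' (C := C) (hl _ _) (n5' p b₄ b₅ i b₁ (by grind))
  have t3 := tf_xx' (C := C) a (n4' p b₄ b₅ b₁ (by grind))
  have t4 := tf_cpyP' (C := C) (hl _ _) (n5 p b₄ b₁ b₂ b₅ (by grind))
  have t5 := tf_cpyP' (C := C) (hl _ _) (n5' p b₄ b₂ b₅ b₆ (by grind))
  have t6 := tf_xx' (C := C) a (n4' p b₄ b₂ b₆ (by grind))
  have t7 := tf_cpyP' (C := C) (hl _ _) (n5' p b₄ b₆ b₂ b₃ (by grind))
  have t8 := tf_cpyP' (C := C) (hl _ _) (n5 p b₄ b₆ b₇ b₃ (by grind))
  have t9 := tf_xx' (C := C) a (n4' p b₄ b₇ b₃ (by grind))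
  have t10 := tf_capP' (C := C) (hl _ _) (n4 p b₄ b₃ b₇ (by grind))
  have t11 := tf_cpyP' (C := C) (hl _ _) (n3 p b₇ o (by grind))
  simp only [List.append_assoc, List.append_nil, List.length_append, hm] at t1 t2 t3 t4 t5 t6
  simp only [List.append_assoc, List.append_nil, List.length_append, hm] at t7 t8 t9 t10 t11
  refine ((((((((((t1.mul t2).mul t3).mul t4).mul t5).mul t6).mul t7).mul t8).mul t9).mul t10).mul
    t11).cast rfl rfl rfl ?_
  simp only [H3, tr_eq, map_mul, Sp_add, mul_one, mul_assoc]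

end

open Polynomial in
theorem granny_lab (C : Type) [Fintype C] [DecidableEq C] [Inhabited C] {a : ℂ} (ha : Good C a) :
    ∃ g : ℂ[X] →ₗ[ℂ] ℂ, ((∀ s : ℕ, 0 < s → a ^ s ≠ 1) → ∀ k n, g (X ^ k * TT n) = vv a k n) ∧
      ∀ (ι : Type) [DecidableEq ι] (B : Fin 18 → List ι) (u l : List ι), B 0 = u ++ l →
        (∀ t, (B t).length = u.length + l.length) → (∀ t, (B t).Nodup) →
        (∀ s t, s ≠ t → ∀ x ∈ B s, x ∉ B t) → ∀ (j : ℕ) (x : ι → C),
        (gra a B l j : Op ι C) (fun _ => 1) x = g (X ^ u.length * (PP a ^ j) (X ^ l.length)) := by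
  obtain ⟨g, h1, h2⟩ := (gd_of ha).value
  let ev : Op ℕ C →ₗ[ℂ] ℂ :=
    { toFun := fun T => T (fun _ => 1) fun _ => default
      map_add' := fun _ _ => rfl
      map_smul' := fun _ _ => rfl }
  refine ⟨ev ∘ₗ g, fun hs k n => ?_, fun ι _ B u l h0 hm hn hd j x => ?_⟩
  · rw [LinearMap.comp_apply, h1 hs, map_smul]
    exact mul_one _
  · have hl : ∀ s t, (B s).length = (B t).length := fun s t => by rw [hm, hm]
    have n2 : ∀ s t, s ≠ t → ([] ++ (B s ++ (B t ++ []))).Nodup := fun s t h => by
      simpa using nd_flat hn hd (ts := [s, t]) (by simpa using h)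
    have t1 := tf_cupP' (C := C) (hl _ _) (n2 17 0 (by decide))
    have t5 := tf_capP' (C := C) (hl _ _) (n2 17 16 (by decide))
    have n0 : (B 17 ++ u ++ (l ++ [])).Nodup := by simpa [h0] using n2 17 0 (by decide)
    have t2 := ((tf_cc (C := C) a (List.nodup_append.1 n0).2.1).sp (cc_loc a l)
      (p := B 17 ++ u) fun s hs k => (List.nodup_append.1 n0).2.2 s hs s (by simpa using k) rfl).pow j
    have t3 := tf_tre (C := C) a hm hn hd (p := 17) (i := 0) (b₁ := 1) (b₂ := 2) (b₃ := 3) (b₄ := 4)
      (b₅ := 5) (b₆ := 6) (b₇ := 7) (o := 8) (by decide)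
    have t4 := tf_tre (C := C) a hm hn hd (p := 17) (i := 8) (b₁ := 9) (b₂ := 10) (b₃ := 11)
      (b₄ := 12) (b₅ := 13) (b₆ := 14) (b₇ := 15) (o := 16) (by decide)
    simp only [List.append_assoc, List.append_nil, List.nil_append, List.length_append, hm, ← h0,
      List.length_nil, Sp_zero] at t1 t2 t5
    have := congrFun (((((t1.mul t2).mul t3).mul t4).mul t5) fun _ => 1) x
    rw [LinearMap.comp_apply, ← h2, tr_eq]
    simp only [map_mul, map_pow, ← Sp_add, ← mul_assoc]
    exact this

end Pool.Agent.P.MP_382f0d_gt.KN
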