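import Pool.Agent.P.MP_382f0d_gt.KN.Mer

/-! Assembly: from the value of the cabled granny knot to the failure of finite generation. -/

namespace Pool.Agent.P.MP_382f0d_gt.KN

open Filter Topology Polynomial Finset

section
variable {K K' : Type} [Field K] [Field K'] (φ : K →+* K')

theorem map_dl (a : K) (m : ℕ) : φ (dl a m) = dl (φ a) m := by simp [dl]

theorem map_tw (a : K) (m : ℕ) : φ (tw a m) = tw (φ a) m := by simp [tw]

theorem map_sm (a : K) (m : ℕ) : φ (sm a m) = sm (φ a) m := by simp [sm, map_dl]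

theorem map_fv (a : K) (m : ℕ) : φ (fv a m) = fv (φ a) m := by
  cases m <;> simp [fv, map_dl, map_tw, map_sm]

theorem map_vv (a : K) (k n : ℕ) : φ (vv a k n) = vv (φ a) k n := by
  induction k generalizing n with
  | zero => exact map_fv φ a n
  | succ k ih => cases n <;> simp [vv, ih]

end

theorem cF_dl (f : Ix → ℂ) (m : ℕ) : cF (fun i => dl (f i) m) = dl (cF f) m := by
  have : (fun i => dl (f i) m) =
      (-1) ^ m * ∑ i ∈ range (m + 1), (f ^ 2) ^ i * (f⁻¹ ^ 2) ^ (m - i) := by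
    funext i; simp [dl, Finset.sum_apply]
  rw [this]
  simp [dl, ← cF_inv]

theorem cF_tw (f : Ix → ℂ) (m : ℕ) : cF (fun i => tw (f i) m) = tw (cF f) m := by
  have : (fun i => tw (f i) m) = (-1) ^ m * f ^ (m * (m + 2)) := by
    funext i; simp [tw]
  rw [this]
  simp [tw]

theorem cF_sm (f : Ix → ℂ) (m : ℕ) : cF (fun i => sm (f i) m) = sm (cF f) m := by
  have : (fun i => sm (f i) m) = ∑ c ∈ range (m + 1),
      (-1) ^ c * f ^ (6 * c * (c + 1)) * fun i => dl (f i) (2 * c) := by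
    funext i; simp [sm, Finset.sum_apply]
  rw [this]
  simp [sm, cF_dl]

theorem cF_fv (f : Ix → ℂ) (m : ℕ) : cF (fun i => fv (f i) m) = fv (cF f) m := by
  cases m with
  | zero => exact map_zero cF
  | succ m =>
    have : (fun i => fv (f i) (m + 1)) = (fun i => sm (f i) m) ^ 2 *
        ((fun i => dl (f i) m) * (fun i => tw (f i) m) ^ 6)⁻¹ := by
      funext i; simp [fv, div_eq_mul_inv]
    rw [this, map_mul, ← cF_inv, fv, div_eq_mul_inv]
    simp only [map_mul, map_pow, cF_dl, cF_tw, cF_sm]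

theorem cF_vv (f : Ix → ℂ) (k n : ℕ) : cF (fun i => vv (f i) k n) = vv (cF f) k n := by
  induction k generalizing n with
  | zero => exact cF_fv f n
  | succ k ih =>
    cases n with
    | zero => exact map_zero cF
    | succ n => rw [vv, ← ih, ← ih, ← map_add]; rfl

theorem cF_zpow (f : Ix → ℂ) (w : ℤ) : cF (fun i => f i ^ w) = cF f ^ w := by
  cases w with
  | ofNat n => simp only [Int.ofNat_eq_natCast, zpow_natCast, ← map_pow]; rfl
  | negSucc n => simp only [zpow_negSucc, ← map_pow, cF_inv]; rfl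

theorem aa_pow {N : ℕ} (hN : 2 ≤ N) (s : ℕ) (hs : 0 < s) : aa N ^ s ≠ 1 := fun h => by
  have h1 : ‖aa N‖ = 1 := by
    have := congrArg norm h
    rw [norm_pow, norm_one] at this
    exact (pow_eq_one_iff_of_nonneg (norm_nonneg _) hs.ne').1 this
  have h2 := congrArg norm (aa_good N).eq
  have h3 := norm_sub_le (-aa N ^ 2) ((aa N)⁻¹ ^ 2)
  rw [← h2] at h3
  simp only [Fintype.card_fin, Complex.norm_natCast, norm_neg, norm_pow, norm_inv, h1] at h3
  have : (2 : ℝ) ≤ N := by exact_mod_cast hN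
  push_cast at h3
  linarith

/-- the values of the invariant: `n` strands and `j` loops -/
def WK : Type := ℕ → ℕ → FF

noncomputable instance : AddCommGroup WK := inferInstanceAs (AddCommGroup (ℕ → ℕ → FF))

noncomputable instance : Module (RatFunc ℚ) WK := Module.compHom (ℕ → ℕ → FF) psi

theorem WK.smul_apply (c : RatFunc ℚ) (w : WK) (n j : ℕ) : (c • w) n j = psi c * w n j := rfl

theorem WK.add_apply (v w : WK) (n j : ℕ) : (v + w) n j = v n j + w n j := rfl

/-- one more loop -/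
def shiftK : Module.End (RatFunc ℚ) WK where
  toFun w n j := w n (j + 1)
  map_add' _ _ := rfl
  map_smul' _ _ := rfl

/-- the colour `TT n` -/
noncomputable def colK (n j : ℕ) : WK →+ FF where
  toFun w := ∑ x ∈ (TT n).support, cF (fun _ => (TT n).coeff x) * w x j
  map_zero' := by
    refine sum_eq_zero fun x _ => ?_
    exact mul_zero _
  map_add' v w := by simp only [WK.add_apply, mul_add, sum_add_distrib]

theorem colK_smul (n j : ℕ) (c : RatFunc ℚ) (w : WK) : colK n j (c • w) = psi c * colK n j w := by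
  simp only [colK, AddMonoidHom.coe_mk, ZeroHom.coe_mk, WK.smul_apply, mul_sum]
  exact sum_congr rfl fun x _ => by ring

theorem colK_aeval (n : ℕ) (c : RatFunc ℚ) (ρ : (RatFunc ℚ)[X]) (w : WK)
    (h : ∀ j, colK n (j + 1) w = psi c * colK n j w) (j : ℕ) :
    colK n j (aeval shiftK ρ w) = psi (ρ.eval c) * colK n j w := by
  induction ρ using Polynomial.induction_on generalizing w with
  | C a => rw [aeval_C, Module.algebraMap_end_apply, colK_smul, eval_C]
  | add p q hp hq => simp only [map_add, LinearMap.add_apply, hp w h, hq w h, eval_add, add_mul]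
  | monomial m a ih =>
    rw [pow_succ, ← mul_assoc, map_mul, aeval_X, Module.End.mul_apply,
      ih (shiftK w) fun j => h (j + 1), eval_mul (q := X), eval_X, map_mul psi _ c, mul_assoc, ← h]
    rfl

theorem knot_of
    (hA : ∀ (C : Type) [Fintype C] [DecidableEq C] [Inhabited C] {a : ℂ}, Good C a →
      ∃ g : ℂ[X] →ₗ[ℂ] ℂ, ((∀ s : ℕ, 0 < s → a ^ s ≠ 1) → ∀ k n, g (X ^ k * TT n) = vv a k n) ∧
      ∀ (ι : Type) [DecidableEq ι] (B : Fin 18 → List ι) (u l : List ι), B 0 = u ++ l →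
        (∀ t, (B t).length = u.length + l.length) → (∀ t, (B t).Nodup) →
        (∀ s t, s ≠ t → ∀ x ∈ B s, x ∉ B t) → ∀ (j : ℕ) (x : ι → C),
        (gra a B l j : Op ι C) (fun _ => 1) x = g (X ^ u.length * (PP a ^ j) (X ^ l.length)))
    (hB : ∀ (r : ℕ) (ρ : ℕ → (RatFunc ℚ)[X]),
      (∀ n, vv A r n = ∑ k ∈ range r, (ρ k).eval (ml (A ^ 2) (A⁻¹ ^ 2) n) * vv A k n) → False)
    (hD : ∃ (L : PLink) (p q : Pt) (v : ℕ → Framed L), IsKnot L ∧
      s(p, q) ∈ L.edges ∧ p.2.1 < q.2.1 ∧ ∀ k, ∃ W : Finset ℤ, ∀ᶠ i in (atTop : Filter Ix),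
      ∃ w ∈ W, ∀ (n j : ℕ), ∃ (B : Fin 18 → List (Lb Pt)) (u l : List (Lb Pt)), B 0 = u ++ l ∧
        u.length = k ∧ l.length = n ∧ (∀ t, (B t).length = k + n) ∧ (∀ t, (B t).Nodup) ∧
        (∀ s t, s ≠ t → ∀ x ∈ B s, x ∉ B t) ∧
        ∀ (C : Type) [Fintype C] [DecidableEq C] [Inhabited C] (a : ℂ), Good C a →
          phi (v k) (deco1 L p q n j) (gg i) C a =
            kap a ^ w * (gra a B l j : Op (Lb Pt) C) (fun _ => 1) fun _ => default) :
    ∃ L : PLink, IsKnot L ∧ ¬ FGOverMeridians L := by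
  obtain ⟨L, p, q, v, hL, hpq, hy, hv⟩ := hD
  refine ⟨L, hL, fun fg => ?_⟩
  have hg := fun (E : Set (Sym2 Pt)) (h1 : E.Finite) (h2 : ∀ e ∈ E, ¬ e.IsDiag) => gg_gen h1 h2
  let Φ : Framed L → WK := fun K n j =>
    cF fun i => phi K (deco1 L p q n j) (gg i) (Fin (i.2 + 1)) (aa i.2)
  have pi : ∀ c, psi c⁻¹ = (psi c)⁻¹ := map_inv₀ psi
  obtain ⟨r, ρ, h⟩ := rel_of_fg (aeval shiftK) (RingHom.id _) Φ
    (fun K K' h => funext₂ fun n j => cF_eq
      ((ev_isotopy gg_tendsto hg h (deco1_ok hpq hy n j)).mono fun i k => k _ _ (aa_good _)))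
    (fun K K₀ K₁ h => funext₂ fun n j => by
      rw [WK.add_apply, WK.smul_apply, WK.smul_apply]
      simp only [RingHom.id_apply, pi, psi_A, cF_inv, Φ, ← map_mul, ← map_add]
      exact cF_eq ((ev_kauffman gg_tendsto hg h (deco1_ok hpq hy n j)).mono fun i k =>
        k _ _ (aa_good _)))
    (fun K K' h => funext₂ fun n j => by
      rw [WK.smul_apply]
      simp only [RingHom.id_apply, map_sub psi, map_neg psi, map_pow psi, pi, psi_A,
        cF_inv, Φ, ← map_pow cF, ← map_neg cF, ← map_sub cF, ← map_mul cF]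
      exact cF_eq ((ev_unknot gg_tendsto hg h (deco1_ok hpq hy n j)).mono fun i k =>
        k _ _ (aa_good _)))
    (fun K K' h => ⟨X, funext₂ fun n j => by
      rw [aeval_X]
      exact cF_eq ((ev_meridian1 gg_tendsto hg hL hpq hy h n j).mono fun i k =>
        k _ _ (aa_good _))⟩) fg v
  choose g hg1 hg2 using fun N => hA (Fin (N + 1)) (aa_good N)
  have val : ∀ k, ∃ w : ℤ, ∀ n j, colK n j (Φ (v k)) =
      psi ((-A ^ 3) ^ w * (ml (A ^ 2) (A⁻¹ ^ 2) n ^ j * vv A k n)) := fun k => by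
    obtain ⟨W, hW⟩ := hv k
    obtain ⟨w, -, hw⟩ := (Ultrafilter.eventually_exists_mem_iff (f := UU) W.finite_toSet).1
      (hW.filter_mono UU_le)
    refine ⟨w, fun n j => ?_⟩
    have e1 : ∀ x, Φ (v k) x j =
        cF fun i => kap (aa i.2) ^ w * g i.2 (X ^ k * (PP (aa i.2) ^ j) (X ^ x)) := fun x =>
      Germ.coe_eq.2 (hw.mono fun i hi => by
        obtain ⟨B, u, l, b0, rfl, rfl, b1, b2, b3, b4⟩ := hi x j
        exact (b4 _ _ (aa_good _)).trans (congrArg _ (hg2 _ _ B u l b0 b1 b2 b3 j _)))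
    have e2 : colK n j (Φ (v k)) = cF fun i => kap (aa i.2) ^ w *
        (ml (aa i.2 ^ 2) ((aa i.2)⁻¹ ^ 2) n ^ j * vv (aa i.2) k n) := by
      simp only [colK, AddMonoidHom.coe_mk, ZeroHom.coe_mk, e1, ← map_mul, ← map_sum]
      refine cF_eq ((ix_snd.eventually (eventually_ge_atTop 2)).mono fun i hi => ?_)
      have e3 : ∀ j, (PP (aa i.2) ^ j) (TT n) =
          ml (aa i.2 ^ 2) ((aa i.2)⁻¹ ^ 2) n ^ j • TT n := fun j => by
        induction j with
        | zero => simp
        | succ j ih =>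
          rw [pow_succ', Module.End.mul_apply, ih, map_smul, PP_TT (aa_good _).ne, smul_smul,
            ← pow_succ]
      rw [← hg1 _ (aa_pow hi), ← smul_eq_mul (_ ^ j), ← map_smul, ← mul_smul_comm, ← e3]
      conv_rhs => rw [(TT n).as_sum_support_C_mul_X_pow, sum_congr rfl fun _ _ => C_mul' _ _]
      simp only [Finset.sum_apply, Pi.mul_apply, map_sum, map_smul, mul_sum, mul_smul_comm,
        smul_eq_mul]
      exact sum_congr rfl fun x _ => by ring
    rw [e2]
    simp only [map_mul psi, map_zpow₀, map_pow psi, map_neg psi, map_ml psi, map_vv, pi, psi_A,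
      cF_inv, ← cF_vv, ← map_pow cF, ← map_neg cF, ← cF_zpow, ← map_ml cF, ← map_mul cF]
    rfl
  choose w hw using val
  have hk : (-A ^ 3 : RatFunc ℚ) ≠ 0 := neg_ne_zero.2 (pow_ne_zero _ RatFunc.X_ne_zero)
  refine hB r (fun k => C ((-A ^ 3) ^ (w k - w r)) * ρ k) fun n => ?_
  have e := congrArg (colK n 0) h
  rw [map_sum, sum_congr rfl fun k _ => colK_aeval n (ml (A ^ 2) (A⁻¹ ^ 2) n) (ρ k) _
    (fun j => by rw [hw, hw, ← map_mul]; congr 1; ring) 0] at e
  simp only [hw, ← map_mul, ← map_sum, pow_zero, one_mul] at e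
  have e' := psi.injective e
  rw [← mul_right_inj' (zpow_ne_zero (w r) hk), e', mul_sum]
  refine sum_congr rfl fun k _ => ?_
  rw [eval_mul, eval_C, zpow_sub₀ hk]
  have := zpow_ne_zero (w r) hk
  field_simp

end Pool.Agent.P.MP_382f0d_gt.KN
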