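import Pool.Agent.P.MP_382f0d_gt.KN.Defs

/-! A meridian slides along a knot; reordering the events of the sweep. -/

namespace Pool.Agent.P.MP_382f0d_gt.KN

open Filter Topology

section
variable {ι C : Type} [DecidableEq ι] [Fintype C] [DecidableEq C]

theorem capP_tt_move {a : ℂ} (ha : Good C a) {k : ι} {ps : List (ι × ι)} (hn : (lab ps).Nodup)
    (hk : k ∉ lab ps) {F : Fn ι C} (hF : ∀ k ∈ lab ps, Ind k F) :
    tt a k (ps.map Prod.snd).reverse (capP ps F) =
      tt a⁻¹ k (ps.map Prod.fst).reverse (capP ps F) := by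
  conv_rhs => rw [← tt_tt_capP ha hn hk hF]
  rw [tt_inv' ha]

/-- a loop slides around a cap -/
theorem capP_cc {a : ℂ} (ha : Good C a) {u o : ι} {ps : List (ι × ι)}
    (hn : (u :: o :: lab ps).Nodup) {F : Fn ι C} (hu : Ind u F) (ho : Ind o F)
    (hF : ∀ k ∈ lab ps, Ind k F) :
    cc a (ps.map Prod.snd).reverse (capP ps F) = cc a (ps.map Prod.fst) (capP ps F) := by
  have hn' := hn
  simp only [List.nodup_cons, List.mem_cons] at hn'
  have h1 := @mem_lab_of_fst ι ps
  have h2 := @mem_lab_of_snd ι ps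
  have hl : (ps.map Prod.fst).Nodup := hn'.2.2.of_append_left
  have hm : (ps.map Prod.snd).Nodup := hn'.2.2.of_append_right
  have hd := List.disjoint_of_nodup_append hn'.2.2
  have hd' : ∀ k ∈ ps.map Prod.fst, k ∉ ps.map Prod.snd := fun k h h' => hd h h'
  have hu' : Ind u (capP ps F) := hu.loc (capP_loc _) (by grind)
  have ho' : Ind o (capP ps F) := ho.loc (capP_loc _) (by grind)
  have hG : ∀ k ∈ lab ps, Ind k (cap o u F) := fun k hk =>
    (hF k hk).loc (cap_loc _ _) (by grind)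
  have m1 := capP_tt_move ha.inv (k := u) hn'.2.2 (by grind) hG
  have m2 := capP_tt_move ha (k := o) hn'.2.2 (by grind) hG
  rw [inv_inv] at m1
  generalize hl' : ps.map Prod.fst = l at *
  generalize hm' : ps.map Prod.snd = m at *
  rw [← cup_jj_cap ha (u := u) (o := o) (by simp; grind) hu' ho', ← cc_inv ha hl,
    ← cup_jj_cap ha.inv (u := u) (o := o) (by simp; grind) hu' ho', jj_apply, jj_apply,
    List.reverse_reverse, tt_cap a (by grind) (by grind) (by grind) hm hu' ho',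
    cup_tt a⁻¹ (by grind) (by grind) (by grind) hl, inv_inv,
    loc_comm (cap_loc o u) (capP_loc _) (by grind), m1,
    loc_comm (tt_loc _ o _) (tt_loc _ u _) (by simp; grind), m2]

end

section
variable {V C : Type} [DecidableEq V] [Fintype C] [DecidableEq C] [Inhabited C]
  {D : Dat V} {a : ℂ} {E Γ : Set (Sym2 V)}

theorem W_unique {e : Sym2 V} {p : V} {z z' : ℂ} (h : D.W C a E Γ e p z)
    (h' : D.W C a E Γ e p z') : z = z' := by
  obtain ⟨l₁, l₂, hl, rfl⟩ := h
  obtain ⟨m₁, m₂, hm, rfl⟩ := h'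
  have e1 := hl.unique hm
  have hn := hl.nodup
  have hn' := hm.nodup
  simp only [List.nodup_append, List.nodup_cons, List.mem_cons] at hn hn'
  obtain ⟨rfl, -, rfl⟩ := (List.append_cons_inj_of_notMem (fun k => by grind)
    (fun k => by grind)).1 e1
  rfl

theorem W_exists (hg : D.Gen Γ) (e : Sym2 V) {p : V} (hp : ∃ f ∈ Γ, p ∈ f) :
    ∃ z, D.W C a E Γ e p z := by
  obtain ⟨l, hl⟩ := Dat.exists_evlist hg
  obtain ⟨l₁, l₂, rfl⟩ := List.append_of_mem ((hl.mem (.inl p)).2 hp)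
  exact ⟨_, l₁, l₂, hl, rfl⟩

theorem W_max (ha : Good C a) (hg : D.Gen Γ) (hE : E ⊆ Γ) (hd : D.DecOK E) {e f : Sym2 V}
    {x p q : V} (h2 : Two E x e f) (ht : D.th e = D.th f) (te : D.y x = D.hi e)
    (tf : D.y x = D.hi f) (hp : p ∈ e) (hy : D.y p = D.lo e) (hq : q ∈ f) (hy' : D.y q = D.lo f)
    {z : ℂ} (h : D.W C a E Γ e p z) : D.W C a E Γ f q z := by
  have hg' := hg.mono hE
  have hx : ∃ e ∈ E, x ∈ e := ⟨e, h2.left⟩
  obtain ⟨l, hl⟩ := Dat.exists_evlist hg
  obtain ⟨l₁, l₂, rfl⟩ := List.append_of_mem ((hl.mem (.inl x)).2 ⟨e, hE h2.left.1, h2.left.2⟩)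
  have len : (D.cab e).length = (D.cab f).length := by simp [Dat.cab_length, ht]
  have hp1 := List.pairwise_append.1 hl.pw
  have hp2 := (List.pairwise_cons.1 hp1.2.1).1
  have cut : ∀ g ∈ E, D.y x = D.hi g → ∀ r ∈ g, D.y r = D.lo g → D.W C a E Γ g r
      (D.run a E l₁ (cc a (D.cab g) (D.run a E (.inl x :: l₂) fun _ => 1)) fun _ => (default : C)) :=
    fun g hg1 hg2 r hr1 hr2 => by
      have lt := hg'.lo_lt_hi hg1
      refine Dat.W_of_cut ha hd (hE hg1) hr1 hr2 hl (fun y hy => ?_) fun y hy => ?_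
      · rw [← hg2]; exact hp1.2.2 y hy _ List.mem_cons_self
      · rcases List.mem_cons.1 hy with rfl | hy
        · rw [Geo.lev_inl, hg2]; exact lt
        · have := hp2 y hy
          rw [Geo.lev_inl] at this
          linarith
  have ind : ∀ g ∈ E, D.y x = D.hi g → ∀ k ∈ D.cab g,
      Ind k (D.dec a x (D.run a E l₂ fun _ => 1) : Fn (Lb V) C) := fun g hg1 hg2 k hk => by
    have lt := hg'.lo_lt_hi hg1
    rw [Dat.mem_cab] at hk
    refine Ind.loc (Ind.loc (fun _ _ => rfl) (Dat.run_loc a hd l₂) ?_) (Dat.dec_loc a x) ?_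
    · rintro ⟨-, y, hy, k2⟩
      have := (Geo.Invo.range ((hl.mem y).1 (by simp [hy])) k2).2
      have := hp2 y hy
      rw [Geo.lev_inl] at this
      rw [hk.1] at *
      linarith
    · rintro ⟨k1, k2⟩
      have := (hd x hx k1).2.2
      rw [← k2, hk.1] at this
      linarith
  have key := capP_cc ha (ps := (D.cab e).zip (D.cab f).reverse)
    (Dat.nodup_aux hg' h2.left.1 h2.right.1 x (nodup_lab_zip_rev len (Dat.cab_nodup2 h2.1))
      fun k hk => by
        have := mem_lab_zip hk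
        simp only [List.mem_reverse, Dat.mem_cab] at this
        tauto) (Dat.ind_diag (a := a) hg' hd x 0 hx l₂) (Dat.ind_diag hg' hd x 1 hx l₂)
    (fun k hk => by
      rcases mem_lab_zip hk with k1 | k1
      · exact ind e h2.left.1 te k k1
      · exact ind f h2.right.1 tf k (List.mem_reverse.1 k1))
  rw [List.map_snd_zip (by simp [len]), List.map_fst_zip (by simp [len]),
    List.reverse_reverse] at key
  have e1 : cc a (D.cab e) (D.run a E (.inl x :: l₂) fun _ => 1) =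
      cc a (D.cab f) (D.run a E (.inl x :: l₂) fun _ => 1 : Fn (Lb V) C) := by
    rw [Dat.run_cons, Dat.evop_two a h2 ht]
    simp only [Module.End.mul_apply, Dat.join, Dat.top_hi te, Dat.top_hi tf, joinL, key]
  rw [W_unique h (cut e h2.left.1 te p hp hy), e1]
  exact cut f h2.right.1 tf q hq hy'

/-- one more loop around the edge `e` -/
def WE (D : Dat V) (C : Type) [Fintype C] [DecidableEq C] [Inhabited C] (a : ℂ)
    (E Γ : Set (Sym2 V)) (e : Sym2 V) (z : ℂ) : Prop :=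
  ∀ p ∈ e, D.y p = D.lo e → D.W C a E Γ e p z

theorem WE_step (ha : Good C a) (hg : D.Gen Γ) (hE : E ⊆ Γ) (hd : D.DecOK E) {e f : Sym2 V}
    {x : V} (h2 : Two E x e f) (ht : D.th e = D.th f) {z : ℂ} (h : WE D C a E Γ e z) :
    WE D C a E Γ f z := by
  intro q hq hy
  have hg' := hg.mono hE
  have le := hg'.lo_lt_hi h2.left.1
  have lf := hg'.lo_lt_hi h2.right.1
  rcases Geo.lo_or_hi (g := D.toGeo) h2.left.2 with ke | ke <;>
    rcases Geo.lo_or_hi (g := D.toGeo) h2.right.2 with kf | kf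
  · obtain rfl : q = x := hg'.yinj h2.right.1 h2.right.1 hq h2.right.2 (hy.trans kf.symm)
    exact (h q h2.left.2 ke).min ha hg' hd h2 ht (Dat.top_lo (ke ▸ le)) (Dat.top_lo (kf ▸ lf))
  · exact (h x h2.left.2 ke).mono ha hg hE hd h2.symm ht.symm kf (Dat.top_lo (ke ▸ le)) hq hy
  · obtain rfl : q = x := hg'.yinj h2.right.1 h2.right.1 hq h2.right.2 (hy.trans kf.symm)
    obtain ⟨p, hp, hp'⟩ := Geo.exists_lo (g := D.toGeo) e
    obtain ⟨z', hz⟩ := W_exists (C := C) (a := a) (E := E) hg f ⟨f, hE h2.right.1, hq⟩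
    rw [W_unique (h p hp hp') (hz.mono ha hg hE hd h2 ht ke (Dat.top_lo (kf ▸ lf)) hp hp')]
    exact hz
  · obtain ⟨p, hp, hp'⟩ := Geo.exists_lo (g := D.toGeo) e
    exact W_max ha hg hE hd h2 ht ke kf hp hp' hq hy (h p hp hp')

theorem WE_walk (ha : Good C a) (hg : D.Gen Γ) (hE : E ⊆ Γ) (hd : D.DecOK E) {om : Sym2 V → ℤ}
    (hr : D.Reg om E) {e : Sym2 V} (he : e ∈ E) {x y : V} (hx : x ∈ e) (hc : VConn E x y) {z : ℂ}
    (h : WE D C a E Γ e z) : ∀ f ∈ E, y ∈ f → WE D C a E Γ f z := by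
  have base : ∀ e ∈ E, ∀ x ∈ e, WE D C a E Γ e z → ∀ f ∈ E, x ∈ f → WE D C a E Γ f z :=
    fun e he x hx h f hf hx' => by
      by_cases c : e = f
      · exact c ▸ h
      · have t := hr.two he hf hx hx' c
        exact WE_step ha hg hE hd t.1 t.2.1 h
  induction hc with
  | refl => exact base e he x hx h
  | tail _ k ih => exact base _ k _ (by simp) (ih _ k (by simp))

end

theorem deco1_ok {L : PLink} {p q : Pt} (h : s(p, q) ∈ L.edges) (hy : p.2.1 < q.2.1) (n j : ℕ) :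
    (deco1 L p q n j).OK L where
  th1 e he := if_neg he
  thc x e f k := by simp only [deco1, if_pos k.left.1, if_pos k.right.1]
  dec x hx := by
    obtain rfl : x = p := by
      by_contra k
      exact hx (if_neg k)
    exact ⟨q, rfl, h, hy⟩

theorem deco1_bump (L : PLink) (p q : Pt) (n j : ℕ) (g : Geo Pt) (m : Sym2 Pt → Sym2 Pt → ℤ) :
    (dat g (deco1 L p q n j) m).bump p = dat g (deco1 L p q n (j + 1)) m := by
  simp only [Dat.bump, dat, deco1, Dat.mk.injEq, true_and, and_true]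
  funext x
  by_cases h : x = p
  · subst h; simp
  · rw [Function.update_of_ne h, if_neg h, if_neg h]

theorem phi_mer1 {L : PLink} (hL : IsKnot L) {p q : Pt} (hpq : s(p, q) ∈ L.edges)
    (hy : p.2.1 < q.2.1) {K K' : Framed L} {a b c : Pt} (h : Add K.toPLink K'.toPLink a b c)
    (hf : SameFr K K') (ha : K'.fr a = 0) (n j : ℕ)
    {g : Geo Pt} (hl : (deco1 L p q n j).Low L g) (hg : g.Gen (K'.edges ∪ L.edges))
    (hp : g.Pre {p | ∃ e ∈ K'.edges ∪ L.edges, p ∈ e}) {e : Sym2 Pt} (he : e ∈ L.edges)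
    (y1 : g.y p < g.y q)
    (hi : ∃ s, g.lo e < s ∧ s < g.hi e ∧ g.InT' a b c (g.X e s) s (g.Z e s))
    (hm : ∀ f ∈ K.edges ∪ L.edges, f ≠ e → g.Miss a b c f)
    (C : Type) [Fintype C] [DecidableEq C] [Inhabited C] {r : ℂ} (hq : Good C r) :
    phi K' (deco1 L p q n j) g C r = phi K (deco1 L p q n (j + 1)) g C r := by
  have hd := deco1_ok hpq hy n j
  have ok := add_ok h hd hl hg hp
  obtain ⟨s, s1, s2, s3⟩ := hi
  have sub : K.edges ∪ L.edges ⊆ K'.edges ∪ L.edges := fun e he => (ok.cG e).2 (Or.inl he)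
  have W0 := fun p hp1 hp2 => ok.mer (C := C) hq
    (reg_link K hd g _ (coh_zero _ _) fun _ _ => rfl)
    (reg_link K' hd g _ (coh_zero _ _) fun _ _ => rfl) (e := e)
    (Or.inr he) s1 s2 s3 hm (p := p) hp1 hp2
  have rg := reg_link K hd g (muE g K'.edges) (coh_zero _ _) fun _ _ => rfl
  have dc : (dat g (deco1 L p q n j) (muE g K'.edges)).DecOK (K.edges ∪ L.edges) := fun x _ hx =>
    ⟨Or.inr (hl x hx).1, (hl x hx).2⟩
  have hc : VConn L.edges e.out.1 p := PLink.vconn_iff.2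
    (hL.2 _ _ (PLink.moved he (Sym2.out_fst_mem e)) (PLink.moved hpq (by simp)))
  have hc' : VConn (K.edges ∪ L.edges) e.out.1 p :=
    hc.map id fun _ _ k => VConn.edge (Or.inr k)
  have W2 := WE_walk hq hg sub dc rg (Or.inr he) (Sym2.out_fst_mem e) hc' W0 s(p, q) (Or.inr hpq)
    (by simp) p (by simp) (by simp [dat, y1.le])
  have := Dat.W.br (p := p) sub ⟨_, Or.inr hpq, by simp⟩ W2
  rw [deco1_bump] at this
  have m4 := Dat.br_mu (C := C) (a := r)
    (D := dat g (deco1 L p q n (j + 1)) (muE g K'.edges)) (m := muE g K.edges)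
    (hg.mono sub) (add_mu h hg)
  rw [phi, phi, add_tot h hf ha, this, ← m4]
  rfl

theorem ev_meridian1 {I : Type} {l : Filter I} {G : I → Geo Pt}
    (hG : ∀ p, Tendsto (fun i => (G i).pos p) l (𝓝 p))
    (hgen : ∀ E : Set (Sym2 Pt), E.Finite → (∀ e ∈ E, ¬ e.IsDiag) →
      ∀ᶠ i in l, (G i).Gen E ∧ (G i).Pre {p | ∃ e ∈ E, p ∈ e})
    {L : PLink} (hL : IsKnot L) {p q : Pt} (h : s(p, q) ∈ L.edges) (hy : p.2.1 < q.2.1)
    {K K' : Framed L} (hm : AddMeridian K K') (n j : ℕ) :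
    ∀ᶠ i in l, ∀ (C : Type) [Fintype C] [DecidableEq C] [Inhabited C] (a : ℂ), Good C a →
      phi K' (deco1 L p q n j) (G i) C a = phi K (deco1 L p q n (j + 1)) (G i) C a := by
  obtain ⟨a, b, c, h', v, hv, hd, x, hp, hh⟩ := hm
  have ad := add_of h'
  have p1 : x ∈ convexHull ℝ {a, b, c} ∩ L.carrier := hh ▸ rfl
  obtain ⟨s, s0, s1, e1⟩ := mem_oseg.1 hp
  obtain ⟨α, β, γ, a0, b0, c0, e0, e2⟩ := mem_hull3.1 p1.1
  have nb : ∀ y z, s(y, z) ∈ K'.edges → x ∉ segment ℝ y z := fun y z k k' =>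
    Set.disjoint_left.1 K'.disj (PLink.seg_sub k k') p1.2
  have a0' : 0 < α := a0.lt_of_ne (by
    rintro rfl
    exact nb _ _ ad.cb ⟨γ, β, c0, b0, by linarith, by rw [e2]; module⟩)
  have b0' : 0 < β := b0.lt_of_ne (by
    rintro rfl
    exact nb _ _ ad.ac ⟨α, γ, a0, c0, by linarith, by rw [e2]; module⟩)
  have c0' : 0 < γ := c0.lt_of_ne (by
    rintro rfl
    exact nb _ _ ad.ab ⟨α, β, a0, b0, by linarith, by rw [e2]; module⟩)
  have key : ∀ y z, s(y, z) ∈ K.edges ∪ L.edges →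
      Disjoint (segment ℝ y z) (convexHull ℝ {a, b, c}) ∨ s(y, z) = s(v, L.next v) := by
    rintro y w (he | he)
    · exact Or.inl (h'.2.2.2.symm.mono_left (PLink.seg_sub he))
    · by_cases k : s(y, w) = s(v, L.next v)
      · exact Or.inr k
      · refine Or.inl (Set.disjoint_left.2 fun z z1 z2 => ?_)
        obtain rfl : z = x := by
          have : z ∈ convexHull ℝ {a, b, c} ∩ L.carrier := ⟨z2, PLink.seg_sub he z1⟩
          rwa [hh] at this
        have := (PLink.simple' he (L.mk_mem hv) k z1 (openSegment_subset_segment _ _ _ hp)).2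
        have := PLink.open_not_end (Ne.symm hv) hp
        tauto
  filter_upwards [ev_low hG (deco1_ok h hy n j), hgen _ (fin2 (L := L) K'.toPLink) (nd2 _),
    ev_miss' hG (fin2 (L := L) K.toPLink) (P := fun f => f = s(v, L.next v)) key,
    ev_lt hG hy, ev_pierce hG hd s0 s1 a0' b0' c0' e0 (e1.symm.trans e2)]
    with i k1 k2 k3 k4 k6 C _ _ _ r hr
  exact phi_mer1 hL h hy ad h'.1 h'.2.1 n j k1 k2.1 k2.2 (L.mk_mem hv) k4
    (k6 (k2.1.y_ne (Or.inr (L.mk_mem hv))))
    (fun f hf hne => (k3 (k2.1.mono fun e he =>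
      he.imp (fun k => (ad.ed e).2 (Or.inl k)) id) f hf).resolve_right hne) C hr

/-- two orders that agree on the pairs that do not commute give the same product -/
theorem prod_reorder {α M : Type} [Monoid M] (f : α → M) (k : α → ℝ) (r : α → α → Prop)
    (hr : ∀ x y, ¬ r x y → Commute (f x) (f y)) {l m : List α}
    (hl : l.Pairwise fun x y => k x < k y) (hm : m.Pairwise fun x y => r x y → k x < k y)
    (hp : m.Perm l) : (m.map f).prod = (l.map f).prod := by
  induction l generalizing m with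
  | nil => rw [hp.eq_nil]
  | cons x l ih =>
    obtain ⟨m₁, m₂, rfl⟩ := List.append_of_mem (hp.mem_iff.2 List.mem_cons_self)
    have hp' : (m₁ ++ m₂).Perm l := (List.perm_middle.symm.trans hp).cons_inv
    have hl' := List.pairwise_cons.1 hl
    have hm' := List.pairwise_append.1 hm
    have c : Commute (f x) (m₁.map f).prod := Commute.list_prod_right _ _ fun X hX => by
      obtain ⟨y, hy, rfl⟩ := List.mem_map.1 hX
      refine (hr y x fun h => ?_).symm
      exact (hm'.2.2 y hy x List.mem_cons_self h).not_gt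
        (hl'.1 y (hp'.mem_iff.1 (List.mem_append_left _ hy)))
    rw [List.map_cons, List.prod_cons,
      ← ih hl'.2 (hm.sublist ((List.Sublist.refl _).append (List.sublist_cons_self _ _))) hp']
    simp only [List.map_append, List.map_cons, List.prod_append, List.prod_cons]
    rw [← mul_assoc, ← c.eq, mul_assoc]

theorem br_list {V C : Type} [DecidableEq V] [Fintype C] [DecidableEq C] [Inhabited C] {D : Dat V}
    {E : Set (Sym2 V)} (a : ℂ) (hg : D.Gen E) (hd : D.DecOK E) {m : List (Ev V)} (hn : m.Nodup)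
    (hm : ∀ x, x ∈ m ↔ D.IsEv E x)
    (ho : m.Pairwise fun x y => (∃ e ∈ E, Invo x e ∧ Invo y e) → D.lev x < D.lev y) :
    D.br C a E = D.run (C := C) a E m (fun _ => 1) fun _ => default := by
  obtain ⟨l, hl⟩ := Dat.exists_evlist hg
  rw [Dat.br_eq subset_rfl hl, Dat.run, Dat.run,
    prod_reorder (D.evop (C := C) a E) D.lev _ (fun x y h => ?_) hl.pw ho
      ((List.perm_ext_iff_of_nodup hn hl.nodup).2 fun x => (hm x).trans (hl.mem x).symm)]
  exact loc_commute (Dat.evop_loc a hd x) (Dat.evop_loc a hd y) fun k k1 k2 =>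
    h ⟨k.1, k1.1, k1.2, k2.2⟩

/-- the events of the perturbed diagrams, with their order along each edge -/
theorem ev_list {I : Type} {l : Filter I} {G : I → Geo Pt}
    (hG : ∀ p, Tendsto (fun i => (G i).pos p) l (𝓝 p)) {E : Set (Sym2 Pt)} (hE : E.Finite)
    {m : List (Ev Pt)}
    (ho : m.Pairwise fun x y => (∃ e ∈ E, Invo x e ∧ Invo y e) → g0.lev x < g0.lev y)
    (hv : ∀ v, .inl v ∈ m ↔ ∃ e ∈ E, v ∈ e)
    (hc : ∀ e f, .inr (e, f) ∈ m → e ∈ E ∧ f ∈ E ∧ g0.IsCross e f)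
    (hn : ∀ e ∈ E, ∀ f ∈ E, (∃ x ∈ e, x ∈ f) ∨ .inr (e, f) ∈ m ∨ .inr (f, e) ∈ m ∨ Far e f) :
    ∀ᶠ i in l, (∀ x, x ∈ m ↔ (G i).IsEv E x) ∧
      m.Pairwise fun x y => (∃ e ∈ E, Invo x e ∧ Invo y e) → (G i).lev x < (G i).lev y := by
  have hk : ∀ a ∈ m, Tendsto (fun i => (G i).lev a) l (𝓝 (g0.lev a)) := fun a ha => by
    cases a with
    | inl v => exact td_y hG v
    | inr p => exact td_lev hG (hc p.1 p.2 ha).2.2
  have h1 : ∀ᶠ i in l, ∀ a ∈ {a | a ∈ m}, ∀ b ∈ {a | a ∈ m},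
      g0.lev a < g0.lev b → (G i).lev a < (G i).lev b := by
    refine (eventually_all_finite (List.finite_toSet m)).2 fun a ha =>
      (eventually_all_finite (List.finite_toSet m)).2 fun b hb => ?_
    by_cases c : g0.lev a < g0.lev b
    · exact ((hk a ha).eventually_lt (hk b hb) c).mono fun i hi _ => hi
    · simp [c]
  have h2 : ∀ᶠ i in l, ∀ e ∈ E, ∀ f ∈ E, ((G i).IsCross e f ↔ .inr (e, f) ∈ m) := by
    refine (eventually_all_finite hE).2 fun e he => (eventually_all_finite hE).2 fun f hf => ?_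
    by_cases c : .inr (e, f) ∈ m
    · exact (ev_cross hG (hc e f c).2.2).mono fun i hi => iff_of_true hi c
    rcases hn e he f hf with ⟨x, k1, k2⟩ | k | k | ⟨p, q, a, b, rfl, rfl, k⟩
    · exact Eventually.of_forall fun i => iff_of_false (fun k => k.not_share k1 k2) c
    · exact absurd k c
    · exact (ev_cross hG (hc f e k).2.2).mono fun i hi => iff_of_false (fun k => hi.1.not_gt k.1) c
    · exact (ev_ncross hG k).mono fun i hi => iff_of_false hi.1 c
  filter_upwards [h1, h2] with i k1 k2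
  refine ⟨fun a => ?_, ho.imp_of_mem fun {a b} ha hb h h' => k1 a ha b hb (h h')⟩
  cases a with
  | inl v => exact hv v
  | inr p =>
    exact ⟨fun k => ⟨(hc _ _ k).1, (hc _ _ k).2.1, (k2 _ (hc _ _ k).1 _ (hc _ _ k).2.1).2 k⟩,
      fun k => (k2 _ k.1 _ k.2.1).1 k.2.2⟩

end Pool.Agent.P.MP_382f0d_gt.KN
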