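import Pool.Agent.P.MP_382f0d_gt.KN.Shape

/-! Coordinates of the granny polygon and of its parallel copies. -/

namespace Pool.Agent.P.MP_382f0d_gt.KN

namespace PolyK

def vx : Fin 18 → ℤ := ![-2, 4, 2, 4, 0, 0, 4, 2, 4, 4, 2, 4, 0, 0, 4, 2, 4, -2]
def vy : Fin 18 → ℤ := ![-6, 0, 2, 4, 8, -2, 2, 4, 6, 12, 14, 16, 20, 10, 14, 16, 18, 24]
def vz : Fin 18 → ℤ := ![0, -3, 1, 1, -15, 15, -1, -1, 3, -3, 1, 1, -15, 15, -1, -1, 3, 0]
def dx : Fin 18 → ℤ := ![1, -1, -1, -1, 1, 1, -1, -1, -1, -1, -1, -1, 1, 1, -1, -1, -1, 1]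
def dy : Fin 18 → ℤ := ![2, 0, 0, 0, -2, 2, 0, 0, 0, 0, 0, 0, -2, 2, 0, 0, 0, -2]
def mm : Fin 18 → ℤ := ![1, -1, 1, -1, 0, 1, -1, 1, 0, -1, 1, -1, 0, 1, -1, 1, -1, 0]

noncomputable def ss (c : ℕ) : ℝ := c / (8 * (c + 1))

theorem ss_nonneg (c : ℕ) : 0 ≤ ss c := by unfold ss; positivity

theorem ss_lt (c : ℕ) : ss c < 1 / 8 := by
  unfold ss
  rw [div_lt_div_iff₀ (by positivity) (by positivity)]
  linarith

theorem ss_mono {c d : ℕ} (h : c < d) : ss c < ss d := by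
  unfold ss
  have : (c : ℝ) < d := by exact_mod_cast h
  rw [div_lt_div_iff₀ (by positivity) (by positivity)]
  nlinarith

noncomputable def pt (s : ℝ) (t : Fin 18) : Pt := (vx t + s * dx t, vy t + s * dy t, vz t)

theorem d_facts : ∀ t, (dx t = 1 ∨ dx t = -1) ∧ -2 ≤ dy t ∧ dy t ≤ 2 := by decide +kernel

theorem v_inj : ∀ t u, vx t = vx u → vy t = vy u → t = u := by decide +kernel

theorem y_facts : ∀ t, (t ∉ dwn → vy t + 1 ≤ vy (t + 1)) ∧ (t ∈ dwn → vy (t + 1) + 1 ≤ vy t) := by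
  decide +kernel

theorem m_facts : ∀ t, vx (t + 1) - vx t = mm t * (vy (t + 1) - vy t) ∧
    dx (t + 1) - dx t = mm t * (dy (t + 1) - dy t) ∧ mm t ≠ mm (t + 1) := by decide +kernel

theorem dy_bd {s : ℝ} (h0 : 0 ≤ s) (h1 : s < 1 / 8) (t : Fin 18) :
    -(1 / 4) < s * dy t ∧ s * dy t < 1 / 4 := by
  have h2 : (-2 : ℝ) ≤ dy t := by exact_mod_cast (d_facts t).2.1
  have h3 : (dy t : ℝ) ≤ 2 := by exact_mod_cast (d_facts t).2.2
  constructor <;> nlinarith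

theorem dx_bd {s : ℝ} (h0 : 0 ≤ s) (h1 : s < 1 / 8) (t : Fin 18) :
    -(1 / 4) < s * dx t ∧ s * dx t < 1 / 4 := by
  rcases (d_facts t).1 with h | h <;> rw [h] <;> push_cast <;> constructor <;> linarith

theorem int_eq {a b : ℤ} {x y : ℝ} (hx : -(1 / 4) < x ∧ x < 1 / 4) (hy : -(1 / 4) < y ∧ y < 1 / 4)
    (h : a + x = b + y) : a = b := by
  have h1 : (a : ℝ) < b + 1 := by linarith [hx.1, hy.2]
  have h2 : (b : ℝ) < a + 1 := by linarith [hx.2, hy.1]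
  have h3 : a < b + 1 := by exact_mod_cast h1
  have h4 : b < a + 1 := by exact_mod_cast h2
  omega

theorem pt_inj : Function.Injective fun x : ℕ × Fin 18 => pt (ss x.1) x.2 := by
  rintro ⟨c, t⟩ ⟨d, u⟩ h
  have h1 : (vx t : ℝ) + ss c * dx t = vx u + ss d * dx u := congrArg (·.1) h
  have h2 : (vy t : ℝ) + ss c * dy t = vy u + ss d * dy u := congrArg (·.2.1) h
  obtain rfl : t = u := v_inj t u
    (int_eq (dx_bd (ss_nonneg c) (ss_lt c) t) (dx_bd (ss_nonneg d) (ss_lt d) u) h1)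
    (int_eq (dy_bd (ss_nonneg c) (ss_lt c) t) (dy_bd (ss_nonneg d) (ss_lt d) u) h2)
  have h3 : ss c = ss d := by
    rcases (d_facts t).1 with k | k <;> rw [k] at h1 <;> push_cast at h1 <;> linarith
  obtain rfl : c = d := by
    rcases lt_trichotomy c d with k | k | k
    · exact absurd h3 (ss_mono k).ne
    · exact k
    · exact absurd h3 (ss_mono k).ne'
  rfl

noncomputable def WW : ℕ × Fin 18 ↪ Pt := ⟨fun x => pt (ss x.1) x.2, pt_inj⟩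

theorem WW_eq (c : ℕ) (t : Fin 18) : WW (c, t) = pt (ss c) t := rfl

theorem up_pt {s : ℝ} (h0 : 0 ≤ s) (h1 : s < 1 / 8) {t : Fin 18} (h : t ∉ dwn) :
    (pt s t).2.1 < (pt s (t + 1)).2.1 := by
  have h2 : (vy t : ℝ) + 1 ≤ vy (t + 1) := by exact_mod_cast (y_facts t).1 h
  have h3 := dy_bd h0 h1 t
  have h4 := dy_bd h0 h1 (t + 1)
  simp only [pt]
  linarith [h3.2, h4.1]

theorem dn_pt {s : ℝ} (h0 : 0 ≤ s) (h1 : s < 1 / 8) {t : Fin 18} (h : t ∈ dwn) :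
    (pt s (t + 1)).2.1 < (pt s t).2.1 := by
  have h2 : (vy (t + 1) : ℝ) + 1 ≤ vy t := by exact_mod_cast (y_facts t).2 h
  have h3 := dy_bd h0 h1 t
  have h4 := dy_bd h0 h1 (t + 1)
  simp only [pt]
  linarith [h3.1, h4.2]

theorem y_ne {s : ℝ} (h0 : 0 ≤ s) (h1 : s < 1 / 8) (t : Fin 18) :
    (pt s (t + 1)).2.1 - (pt s t).2.1 ≠ 0 := by
  by_cases h : t ∈ dwn
  · exact (sub_neg.2 (dn_pt h0 h1 h)).ne
  · exact (sub_pos.2 (up_pt h0 h1 h)).ne'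

theorem x_sub (s : ℝ) (t : Fin 18) :
    (pt s (t + 1)).1 - (pt s t).1 = mm t * ((pt s (t + 1)).2.1 - (pt s t).2.1) := by
  have h1 : (vx (t + 1) : ℝ) - vx t = mm t * (vy (t + 1) - vy t) := by
    exact_mod_cast (m_facts t).1
  have h2 : (dx (t + 1) : ℝ) - dx t = mm t * (dy (t + 1) - dy t) := by
    exact_mod_cast (m_facts t).2.1
  simp only [pt]
  linear_combination h1 + s * h2

theorem det_pt {s : ℝ} (h0 : 0 ≤ s) (h1 : s < 1 / 8) (t : Fin 18) :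
    det2 (pt s (t + 1) - pt s t) (pt s (t + 1 + 1) - pt s t) ≠ 0 := by
  have h2 := x_sub s t
  have h3 := x_sub s (t + 1)
  have h4 : (mm t : ℝ) - mm (t + 1) ≠ 0 := sub_ne_zero.2 (by exact_mod_cast (m_facts t).2.2)
  have h5 : det2 (pt s (t + 1) - pt s t) (pt s (t + 1 + 1) - pt s t) =
      ((pt s (t + 1)).2.1 - (pt s t).2.1) * ((pt s (t + 1 + 1)).2.1 - (pt s (t + 1)).2.1) *
        ((mm t : ℝ) - mm (t + 1)) := by
    simp only [det2, Prod.fst_sub, Prod.snd_sub]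
    linear_combination ((pt s (t + 1 + 1)).2.1 - (pt s (t + 1)).2.1) * h2 -
      ((pt s (t + 1)).2.1 - (pt s t).2.1) * h3
  rw [h5]
  exact mul_ne_zero (mul_ne_zero (y_ne h0 h1 t) (y_ne h0 h1 (t + 1))) h4

/-! crossings -/

theorem X_line {p q : Pt} (hy : p.2.1 < q.2.1) {m k : ℝ} (hp : p.1 = k + m * p.2.1)
    (hq : q.1 = k + m * q.2.1) : g0.sl s(p, q) = m ∧ ∀ t, g0.X s(p, q) t = k + m * t := by
  have h : q.2.1 - p.2.1 ≠ 0 := (sub_pos.2 hy).ne'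
  refine ⟨?_, fun t => ?_⟩
  · simp only [Geo.sl_mk, g0, hp, hq]
    field_simp
    ring
  · simp only [Geo.X, Geo.val, Geo.icp, Geo.slp, Sym2.lift_mk, g0, hp, hq]
    field_simp
    ring

theorem Z_eq {p q : Pt} (hy : p.2.1 < q.2.1) (t : ℝ) :
    g0.Z s(p, q) t = (p.2.2 * (q.2.1 - t) + q.2.2 * (t - p.2.1)) / (q.2.1 - p.2.1) := by
  have h : q.2.1 - p.2.1 ≠ 0 := (sub_pos.2 hy).ne'
  simp only [Geo.Z, Geo.val, Geo.icp, Geo.slp, Sym2.lift_mk, g0]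
  field_simp
  ring

theorem cross_of {p q a b : Pt} {k l : ℝ} (hp : p.1 = k + 1 * p.2.1) (hq : q.1 = k + 1 * q.2.1)
    (ha : a.1 = l + -1 * a.2.1) (hb : b.1 = l + -1 * b.2.1)
    (h1 : p.2.1 < (l - k) / 2) (h2 : (l - k) / 2 < q.2.1)
    (h3 : a.2.1 < (l - k) / 2) (h4 : (l - k) / 2 < b.2.1)
    (z1 : 0 < p.2.2 * (q.2.1 - (l - k) / 2) + q.2.2 * ((l - k) / 2 - p.2.1))
    (z2 : a.2.2 * (b.2.1 - (l - k) / 2) + b.2.2 * ((l - k) / 2 - a.2.1) < 0) :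
    g0.lev (.inr (s(p, q), s(a, b))) = (l - k) / 2 ∧ g0.IsCross s(p, q) s(a, b) ∧
      g0.Z s(a, b) (g0.lev (.inr (s(p, q), s(a, b)))) <
        g0.Z s(p, q) (g0.lev (.inr (s(p, q), s(a, b)))) := by
  have y1 : p.2.1 < q.2.1 := h1.trans h2
  have y2 : a.2.1 < b.2.1 := h3.trans h4
  obtain ⟨s1, x1⟩ := X_line y1 hp hq
  obtain ⟨s2, x2⟩ := X_line y2 ha hb
  have s3 : g0.sl s(a, b) < g0.sl s(p, q) := by rw [s1, s2]; norm_num
  have x3 : g0.X s(p, q) ((l - k) / 2) = g0.X s(a, b) ((l - k) / 2) := by rw [x1, x2]; ring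
  have e := Geo.lev_eq s3.ne x3
  refine ⟨e, Geo.isCross_of s3 x3 (min_lt_of_left_lt h1) (lt_max_of_lt_right h2)
    (min_lt_of_left_lt h3) (lt_max_of_lt_right h4), ?_⟩
  rw [e, Z_eq y1, Z_eq y2]
  exact (div_neg_of_neg_of_pos z2 (sub_pos.2 y2)).trans (div_pos z1 (sub_pos.2 y1))

theorem cross_pt {s r : ℝ} (s0 : 0 ≤ s) (s1 : s < 1 / 8) (r0 : 0 ≤ r) (r1 : r < 1 / 8) :
    ∀ p ∈ six, g0.lev (.inr (s(pt s p.1, pt s (p.1 + 1)), s(pt r p.2, pt r (p.2 + 1)))) =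
      ((vx p.2 + vy p.2 - r) - (vx p.1 - vy p.1 - s)) / 2 ∧
      g0.IsCross s(pt s p.1, pt s (p.1 + 1)) s(pt r p.2, pt r (p.2 + 1)) ∧
      g0.Z s(pt r p.2, pt r (p.2 + 1))
          (g0.lev (.inr (s(pt s p.1, pt s (p.1 + 1)), s(pt r p.2, pt r (p.2 + 1))))) <
        g0.Z s(pt s p.1, pt s (p.1 + 1))
          (g0.lev (.inr (s(pt s p.1, pt s (p.1 + 1)), s(pt r p.2, pt r (p.2 + 1))))) := by
  intro p hp
  simp only [six, List.mem_cons, List.not_mem_nil, or_false] at hp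
  rcases hp with rfl | rfl | rfl | rfl | rfl | rfl <;>
    refine cross_of ?_ ?_ ?_ ?_ ?_ ?_ ?_ ?_ ?_ ?_ <;>
    simp [pt, vx, vy, vz, dx, dy] <;> linarith

/-! separation -/

def dirs : List (ℤ × ℤ) := [(1, 0), (-1, 0), (0, 1), (0, -1), (1, 1), (1, -1), (-1, 1), (-1, -1)]

def fa (d : ℤ × ℤ) (a : Fin 18) : ℤ := d.1 * vx a + d.2 * vy a
def fb (d : ℤ × ℤ) (a : Fin 18) : ℤ := d.1 * dx a + d.2 * dy a

def okl (d : ℤ × ℤ) (a b : Fin 18) : Prop :=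
  0 ≤ fa d b - fa d a ∧ 0 ≤ 8 * (fa d b - fa d a) + fb d b - fb d a ∧
    0 < 8 * (fa d b - fa d a) + fb d b

def oke (d : ℤ × ℤ) (a b : Fin 18) : Prop :=
  0 < fa d b - fa d a ∧ 0 ≤ 8 * (fa d b - fa d a) + fb d b - fb d a

instance (d : ℤ × ℤ) (a b : Fin 18) : Decidable (okl d a b) := by unfold okl; infer_instance
instance (d : ℤ × ℤ) (a b : Fin 18) : Decidable (oke d a b) := by unfold oke; infer_instance

theorem sep_lt : ∀ t u : Fin 18, (t, u) ∈ six ∨ (u, t) ∈ six ∨ ∃ d ∈ dirs,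
    okl d t u ∧ okl d t (u + 1) ∧ okl d (t + 1) u ∧ okl d (t + 1) (u + 1) := by decide +kernel

theorem sep_eq : ∀ t u : Fin 18, (u = t ∨ u = t + 1 ∨ t = u + 1) ∨ (t, u) ∈ six ∨ (u, t) ∈ six ∨
    ∃ d ∈ dirs, oke d t u ∧ oke d t (u + 1) ∧ oke d (t + 1) u ∧ oke d (t + 1) (u + 1) := by
  decide +kernel

noncomputable def ph (d : ℤ × ℤ) (p : Pt) : ℝ := d.1 * p.1 + d.2 * p.2.1

theorem ph_pt (d : ℤ × ℤ) (s : ℝ) (a : Fin 18) : ph d (pt s a) = fa d a + s * fb d a := by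
  simp only [ph, pt, fa, fb]
  push_cast
  ring

theorem okl_lt {d : ℤ × ℤ} {a b : Fin 18} (h : okl d a b) {s r : ℝ} (s0 : 0 ≤ s) (sr : s < r)
    (r1 : r < 1 / 8) : ph d (pt s a) < ph d (pt r b) := by
  have h1 : (0 : ℝ) ≤ fa d b - fa d a := by exact_mod_cast h.1
  have h2 : (0 : ℝ) ≤ 8 * (fa d b - fa d a) + fb d b - fb d a := by exact_mod_cast h.2.1
  have h3 : (0 : ℝ) < 8 * (fa d b - fa d a) + fb d b := by exact_mod_cast h.2.2
  rw [ph_pt, ph_pt]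
  have k1 := mul_nonneg (show 0 ≤ 1 - 8 * r by linarith) h1
  have k2 := mul_nonneg s0 h2
  have k3 := mul_pos (sub_pos.2 sr) h3
  nlinarith

theorem oke_lt {d : ℤ × ℤ} {a b : Fin 18} (h : oke d a b) {s : ℝ} (s0 : 0 ≤ s)
    (s1 : s < 1 / 8) : ph d (pt s a) < ph d (pt s b) := by
  have h1 : (0 : ℝ) < fa d b - fa d a := by exact_mod_cast h.1
  have h2 : (0 : ℝ) ≤ 8 * (fa d b - fa d a) + fb d b - fb d a := by exact_mod_cast h.2
  rw [ph_pt, ph_pt]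
  have k1 := mul_pos (show 0 < 1 - 8 * s by linarith) h1
  have k2 := mul_nonneg s0 h2
  nlinarith

theorem far_ph (d : ℤ × ℤ) {p q a b : Pt} (h1 : ph d p < ph d a) (h2 : ph d p < ph d b)
    (h3 : ph d q < ph d a) (h4 : ph d q < ph d b) : Far s(p, q) s(a, b) :=
  far_of d.1 d.2 (max (ph d p) (ph d q)) (le_max_left _ _) (le_max_right _ _) (max_lt h1 h3)
    (max_lt h2 h4)

theorem far_lt {c d : ℕ} (h : c < d) (t u : Fin 18) :
    (t, u) ∈ six ∨ (u, t) ∈ six ∨ Far (ee WW c t) (ee WW d u) := by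
  rcases sep_lt t u with k | k | ⟨e, -, k1, k2, k3, k4⟩
  · exact Or.inl k
  · exact Or.inr (Or.inl k)
  · have a := ss_nonneg c
    have b := ss_mono h
    have c := ss_lt d
    exact Or.inr (Or.inr (far_ph e (okl_lt k1 a b c) (okl_lt k2 a b c) (okl_lt k3 a b c)
      (okl_lt k4 a b c)))

theorem gr : Gr WW where
  up c _ h := up_pt (ss_nonneg c) (ss_lt c) h
  dn c _ h := dn_pt (ss_nonneg c) (ss_lt c) h
  det c t := det_pt (ss_nonneg c) (ss_lt c) t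
  cr p hp c d := (cross_pt (ss_nonneg c) (ss_lt c) (ss_nonneg d) (ss_lt d) p hp).2
  o1 p hp c c' d h := by
    have h1 := (cross_pt (ss_nonneg c) (ss_lt c) (ss_nonneg d) (ss_lt d) p hp).1
    have h2 := (cross_pt (ss_nonneg c') (ss_lt c') (ss_nonneg d) (ss_lt d) p hp).1
    have h3 := ss_mono h
    simp only [ee, WW_eq]
    rw [h1, h2]
    linarith
  o2 p hp c d d' h := by
    have h1 := (cross_pt (ss_nonneg c) (ss_lt c) (ss_nonneg d) (ss_lt d) p hp).1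
    have h2 := (cross_pt (ss_nonneg c) (ss_lt c) (ss_nonneg d') (ss_lt d') p hp).1
    have h3 := ss_mono h
    simp only [ee, WW_eq]
    rw [h1, h2]
    linarith
  far c d t u := by
    rcases lt_trichotomy c d with h | rfl | h
    · exact Or.inr (far_lt h t u)
    · rcases sep_eq t u with k | k | k | ⟨e, -, k1, k2, k3, k4⟩
      · exact Or.inl ⟨rfl, k⟩
      · exact Or.inr (Or.inl k)
      · exact Or.inr (Or.inr (Or.inl k))
      · have a := ss_nonneg c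
        have b := ss_lt c
        exact Or.inr (Or.inr (Or.inr (far_ph e (oke_lt k1 a b) (oke_lt k2 a b) (oke_lt k3 a b)
          (oke_lt k4 a b))))
    · rcases far_lt h u t with k | k | k
      · exact Or.inr (Or.inr (Or.inl k))
      · exact Or.inr (Or.inl k)
      · exact Or.inr (Or.inr (Or.inr k.symm))

end PolyK

theorem exists_gr : ∃ W, Gr W := ⟨_, PolyK.gr⟩

end Pool.Agent.P.MP_382f0d_gt.KN
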