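import Pool.Agent.P.MP_382f0d_gt.KN.Mer

/-! The geometric facts about the parallel copies of the granny polygon that the evaluation uses. -/

namespace Pool.Agent.P.MP_382f0d_gt.KN

/-- the edge of the copy `c` from its vertex `t` to its vertex `t + 1` -/
def ee {V : Type} (W : ℕ × Fin 18 ↪ V) (c : ℕ) (t : Fin 18) : Sym2 V := s(W (c, t), W (c, t + 1))

/-- the crossing pairs: the first edge passes over the second one, from left to right -/
def six : List (Fin 18 × Fin 18) := [(5, 1), (2, 6), (7, 3), (13, 9), (10, 14), (15, 11)]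

/-- the edges that run downwards -/
def dwn : List (Fin 18) := [4, 12, 17]

/-- `W (c, t)` is the vertex `t` of the copy `c`; on the edges that run upwards a larger `c` is
further to the left -/
structure Gr (W : ℕ × Fin 18 ↪ Pt) : Prop where
  up : ∀ c t, t ∉ dwn → (W (c, t)).2.1 < (W (c, t + 1)).2.1
  dn : ∀ c t, t ∈ dwn → (W (c, t + 1)).2.1 < (W (c, t)).2.1
  det : ∀ c t, det2 (W (c, t + 1) - W (c, t)) (W (c, t + 1 + 1) - W (c, t)) ≠ 0
  cr : ∀ p ∈ six, ∀ c d, g0.IsCross (ee W c p.1) (ee W d p.2) ∧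
    g0.Z (ee W d p.2) (g0.lev (.inr (ee W c p.1, ee W d p.2))) <
      g0.Z (ee W c p.1) (g0.lev (.inr (ee W c p.1, ee W d p.2)))
  o1 : ∀ p ∈ six, ∀ c c' d, c < c' →
    g0.lev (.inr (ee W c p.1, ee W d p.2)) < g0.lev (.inr (ee W c' p.1, ee W d p.2))
  o2 : ∀ p ∈ six, ∀ c d d', d < d' →
    g0.lev (.inr (ee W c p.1, ee W d' p.2)) < g0.lev (.inr (ee W c p.1, ee W d p.2))
  far : ∀ c d t u, (c = d ∧ (u = t ∨ u = t + 1 ∨ t = u + 1)) ∨ (t, u) ∈ six ∨ (u, t) ∈ six ∨
    Far (ee W c t) (ee W d u)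

end Pool.Agent.P.MP_382f0d_gt.KN
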