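import Pool.Agent.P.MP_382f0d_gt.KN.Alg

/-! Traces of natural families: the value of the cabled granny knot. -/

namespace Pool.Agent.P.MP_382f0d_gt.KN

open Polynomial Finset TL

variable {Λ : Type} [Ring Λ] [Algebra ℂ Λ] [TL Λ] {a : ℂ}

/-- the closure of a family -/
noncomputable def hh (H : ℕ → Λ) : ℂ[X] →ₗ[ℂ] Λ := lam fun m => tr m (H m)

theorem hh_pow (H : ℕ → Λ) (m : ℕ) : hh H (X ^ m) = tr m (H m) := lam_pow _ m

theorem hh_lp (H : ℕ → Λ) (p : ℂ[X]) : hh (fun m => lp (H (m + 1))) p = hh H (X * p) := by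
  rw [hh, hh, ← lam_succ]
  simp only [tr_succ]

theorem hh_tr (H : ℕ → Λ) (k : ℕ) (p : ℂ[X]) :
    hh (fun m => tr k (H (m + k))) p = hh H (X ^ k * p) := by
  have : hh (fun m => tr k (H (m + k))) = hh H ∘ₗ LinearMap.mulLeft ℂ (X ^ k) := lin_ext fun n => by
    simp only [hh_pow, LinearMap.comp_apply, LinearMap.mulLeft_apply, ← pow_add, tr_add,
      add_comm k n]
    rw [← tr_add, ← tr_add, add_comm]
  rw [this]; rfl

theorem Gd.trace_aux (ha : Gd Λ a) (n : ℕ) : ∀ H : ℕ → Λ, Nt H →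
    tr n (cn a n * H n) = hh H (pq a n).1 ∧
      tr (n + 1) (Jn a n * H (n + 1)) = hh H (pq a n).2 := by
  induction n with
  | zero =>
    intro H _
    constructor
    · rw [pq, ← mul_one (Polynomial.C _), ← smul_eq_C_mul, map_smul, ← pow_zero X, hh_pow]
      simp [cn]
    · rw [pq, ← pow_one X, hh_pow, J_zero, one_mul]
  | succ n ih =>
    intro H hH
    have i1 := ih H hH
    have i2 := ih _ hH.lp
    simp only [hh_lp] at i2
    constructor
    · simp only [cn, add_mul, smul_mul_assoc, map_add, map_smul, pq, i1.2]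
      rw [tr_succ, lp_left, i2.1, add_comm]
    · have e : tr (n + 1 + 1) (S (Jn a n) * (η * ε * H (n + 1 + 1))) = hh H (pq a n).1 := by
        rw [mul_assoc, ← hH (Wo.cup n), ← mul_assoc, ← mul_assoc, ← (Wo.cup n).cyc, ← i1.1, ha.c_eq,
          lp_apply]
        simp only [mul_assoc]
      rw [J_succ, mul_assoc, mul_assoc, (wo_σ a n).cyc, mul_assoc, mul_assoc, hH (wo_σ a n),
        ← mul_assoc (σ a), ha.σσ]
      simp only [add_mul, mul_add, smul_mul_assoc, mul_smul_comm, map_add, map_smul, one_mul, e, pq]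
      rw [tr_succ, lp_left, i2.2]

theorem Gd.hh_c (ha : Gd Λ a) {H : ℕ → Λ} (hH : Nt H) (p : ℂ[X]) :
    hh (fun m => cn a m * H m) p = hh H (PP a p) := by
  have : hh (fun m => cn a m * H m) = hh H ∘ₗ PP a := lin_ext fun n => by
    rw [hh_pow, (ha.trace_aux n H hH).1, LinearMap.comp_apply, PP, lam_pow]
  rw [this]; rfl

theorem Gd.trace_pow (ha : Gd Λ a) (j n : ℕ) : ∀ H : ℕ → Λ, Nt H →
    tr n (cn a n ^ j * H n) = hh H ((PP a ^ j) (X ^ n)) := by
  induction j with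
  | zero => intro H _; simp [hh_pow]
  | succ j ih =>
    intro H hH
    rw [pow_succ, mul_assoc, ih _ (ha.c_nat.mul hH), ha.hh_c hH, pow_succ', Module.End.mul_apply]

/-- `E` kills the caps on the first `m` positions -/
def Kl (m : ℕ) (E : Λ) : Prop := ∀ i, i + 2 ≤ m → E * Sp i η = 0

/-- `T` is the scalar `α` up to caps -/
def Sc (m : ℕ) (T : Λ) (α : ℂ) : Prop := ∀ E, Kl m E → E * T = α • E

theorem Sc.one (m : ℕ) : Sc m (1 : Λ) 1 := fun _ _ => by simp

theorem Sc.le {m n : ℕ} {T : Λ} {α : ℂ} (h : Sc m T α) (hn : m ≤ n) : Sc n T α :=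
  fun E hE => h E fun i hi => hE i (hi.trans hn)

theorem Sc.mul {m : ℕ} {T U : Λ} {α β : ℂ} (h : Sc m T α) (k : Sc m U β) : Sc m (T * U) (α * β) :=
  fun E hE => by rw [← mul_assoc, h E hE, smul_mul_assoc, k E hE, smul_smul]

theorem Sc.add {m : ℕ} {T U : Λ} {α β : ℂ} (h : Sc m T α) (k : Sc m U β) : Sc m (T + U) (α + β) :=
  fun E hE => by rw [mul_add, h E hE, k E hE, add_smul]

theorem Sc.smul {m : ℕ} {T : Λ} {α : ℂ} (h : Sc m T α) (c : ℂ) : Sc m (c • T) (c * α) :=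
  fun E hE => by rw [mul_smul_comm, h E hE, smul_smul]

theorem Sc.of_eq {m : ℕ} {T : Λ} {α β : ℂ} (h : Sc m T α) (e : α = β) : Sc m T β := e ▸ h

theorem Sc.sh {m : ℕ} {T : Λ} {α : ℂ} (h : Sc m T α) : Sc (m + 1) (S T) α := by
  obtain ⟨C, _, u, v, h1, h2, -, -⟩ := TL.uv (Λ := Λ)
  intro E hE
  have e : ∀ c, E * S T * (u c * v c) = α • (E * (u c * v c)) := fun c => by
    have := h (E * u c) fun i hi => by
      rw [mul_assoc, ← h2, ← Sp_succ, ← mul_assoc, hE (i + 1) (by omega), zero_mul]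
    rw [← mul_assoc, mul_assoc E, h2, ← mul_assoc, this, smul_mul_assoc, mul_assoc]
  rw [← mul_one (E * S T), ← h1, mul_sum]
  simp only [e, ← smul_sum, ← mul_sum, h1, mul_one]

theorem sc_σ (a : ℂ) (m : ℕ) : Sc (m + 2) (σ a : Λ) a := fun E hE => by
  have := hE 0 (by omega)
  rw [Sp_zero] at this
  simp [σ, mul_add, ← mul_assoc, this]

theorem sc_T (a : ℂ) (m : ℕ) : Sc (m + 1) (Tn a m : Λ) (a ^ m) := by
  induction m with
  | zero => exact (Sc.one _).of_eq (by simp)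
  | succ m ih => exact ((sc_σ a m).mul ih.sh).of_eq (by ring)

theorem sc_U (a : ℂ) (m : ℕ) : Sc (m + 1) (Un a m : Λ) (a ^ m) := by
  induction m with
  | zero => exact (Sc.one _).of_eq (by simp)
  | succ m ih => exact (ih.sh.mul (sc_σ a m)).of_eq (by ring)

theorem sc_J (a : ℂ) (m : ℕ) : Sc (m + 1) (Jn a m : Λ) (a ^ m * a ^ m) := (sc_T a m).mul (sc_U a m)

theorem sc_c (ha : a ≠ 0) (m : ℕ) : Sc m (cn a m : Λ) (ml (a ^ 2) (a⁻¹ ^ 2) (m + 1)) := by
  induction m with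
  | zero => exact ((Sc.one _).smul _).of_eq (by simp [ml]; ring)
  | succ m ih =>
    refine (((sc_J a m).smul _).add (ih.sh.smul _)).of_eq ?_
    rw [← mul_pow, ← sq]
    simp only [ml, pow_succ (a ^ 2), pow_succ (a⁻¹ ^ 2)]
    generalize (a ^ 2) ^ m = u
    generalize (a⁻¹ ^ 2) ^ m = v
    field_simp
    ring

theorem sc_th (a : ℂ) (m : ℕ) : Sc m (th a m : Λ) (tw a m) := by
  induction m with
  | zero => exact (Sc.one _).of_eq (by simp [tw])
  | succ m ih => exact (((sc_J a m).mul ih.sh).smul _).of_eq (by simp only [tw, kap]; ring)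

/-- normal forms with `k` positions below -/
inductive Nf (k : ℕ) : ℕ → Λ → Prop
  | one : Nf k k 1
  | low {m : ℕ} {T : Λ} (i : ℕ) : i ≤ m → Nf k m T → Nf k (m + 2) (T * Sp i ε)
  | cap (m i : ℕ) (Z : Λ) : i + 2 ≤ k → Nf k m (Sp i η * Z)
  | add {m : ℕ} {T U : Λ} : Nf k m T → Nf k m U → Nf k m (T + U)
  | smul {m : ℕ} {T : Λ} (c : ℂ) : Nf k m T → Nf k m (c • T)

theorem Gd.nf_cap (ha : Gd Λ a) {k n : ℕ} {T : Λ} (h : Nf k n T) :
    ∀ m j, n = m + 2 → j ≤ m → Nf k m (T * Sp j η) := by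
  induction h with
  | one =>
    intro m j e hj
    simpa using Nf.cap (Λ := Λ) m j 1 (show j + 2 ≤ k by omega)
  | @low m₀ T i hi hT ih =>
    intro m j e hj
    obtain rfl : m₀ = m := by omega
    rw [mul_assoc]
    rcases (by omega : i = j ∨ j = i + 1 ∨ i = j + 1 ∨ i + 2 ≤ j ∨ j + 2 ≤ i) with
      rfl | rfl | rfl | h | h
    · rw [← map_mul, ha.eq, map_smul, map_one, mul_smul_comm, mul_one]
      exact hT.smul _
    · rwa [Sp_succ', ← map_mul, z1, map_one, mul_one]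
    · rwa [Sp_succ', ← map_mul, z2, map_one, mul_one]
    · obtain ⟨d, rfl⟩ : ∃ d, j = i + (d + 1 + 1) := ⟨j - i - 2, by omega⟩
      obtain ⟨m, rfl⟩ : ∃ m, m₀ = m + 2 := ⟨m₀ - 2, by omega⟩
      rw [Sp_add, ← map_mul, Sp_succ, Sp_succ, sε, map_mul, ← Sp_add, ← mul_assoc]
      exact .low i (by omega) (ih m _ rfl (by omega))
    · obtain ⟨d, rfl⟩ : ∃ d, i = j + (d + 1 + 1) := ⟨i - j - 2, by omega⟩
      obtain ⟨m, rfl⟩ : ∃ m, m₀ = m + 2 := ⟨m₀ - 2, by omega⟩
      rw [Sp_add, ← map_mul, Sp_succ, Sp_succ, sη, map_mul, ← Sp_add, ← mul_assoc]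
      exact .low _ (by omega) (ih m _ rfl (by omega))
  | cap m₀ i Z hi => intro m j _ _; rw [mul_assoc]; exact .cap _ _ _ hi
  | add _ _ i1 i2 => intro m j e hj; rw [add_mul]; exact (i1 m j e hj).add (i2 m j e hj)
  | smul c _ ih => intro m j e hj; rw [smul_mul_assoc]; exact (ih m j e hj).smul c

theorem Gd.nf_mul (ha : Gd Λ a) {m m' : ℕ} {y : Λ} (h : Wo m m' y) :
    ∀ s k Z, Nf k (m' + s) Z → Nf k (m + s) (Z * Sp s y) := by
  induction h with
  | one m => intro s k Z hZ; simpa using hZ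
  | cap m => intro s k Z hZ; exact ha.nf_cap hZ _ _ (by omega) (by omega)
  | cup m => intro s k Z hZ; rw [Nat.add_right_comm]; exact .low s (by omega) hZ
  | sh _ ih =>
    intro s k Z hZ
    rw [← Sp_succ', Nat.add_right_comm]
    rw [Nat.add_right_comm] at hZ
    exact ih (s + 1) k Z hZ
  | mul _ _ i1 i2 => intro s k Z hZ; rw [map_mul, ← mul_assoc]; exact i2 _ _ _ (i1 _ _ _ hZ)
  | add _ _ i1 i2 => intro s k Z hZ; rw [map_add, mul_add]; exact (i1 _ _ _ hZ).add (i2 _ _ _ hZ)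
  | smul c _ ih => intro s k Z hZ; rw [map_smul, mul_smul_comm]; exact (ih _ _ _ hZ).smul c

theorem Nf.sc {k m : ℕ} {T : Λ} (h : Nf k m T) : m ≤ k → ∃ α, Sc k T α ∧ (m < k → α = 0) := by
  induction h with
  | one => exact fun _ => ⟨1, .one _, by omega⟩
  | low i _ _ ih =>
    intro hm
    obtain ⟨α, h1, h2⟩ := ih (by omega)
    obtain rfl := h2 (by omega)
    exact ⟨0, fun E hE => by rw [← mul_assoc, h1 E hE]; simp, fun _ => rfl⟩
  | cap m i Z hi => exact fun _ => ⟨0, fun E hE => by rw [← mul_assoc, hE i hi]; simp, fun _ => rfl⟩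
  | add _ _ i1 i2 =>
    intro hm
    obtain ⟨α, h1, h2⟩ := i1 hm
    obtain ⟨β, h3, h4⟩ := i2 hm
    exact ⟨α + β, h1.add h3, fun h => by simp [h2 h, h4 h]⟩
  | smul c _ ih =>
    intro hm
    obtain ⟨α, h1, h2⟩ := ih hm
    exact ⟨c * α, h1.smul c, fun h => by simp [h2 h]⟩

theorem Gd.sc (ha : Gd Λ a) {m : ℕ} {T : Λ} (h : Wo m m T) : ∃ α, Sc m T α := by
  have := ha.nf_mul h 0 m 1 .one
  rw [one_mul, Sp_zero] at this
  exact (this.sc le_rfl).imp fun _ h => h.1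

/-- the product of `cn - eigenvalue` over the first `d` colours -/
noncomputable def En (a : ℂ) : ℕ → ℕ → Λ
  | 0, _ => 1
  | d + 1, n => En a d n * (cn a n - ml (a ^ 2) (a⁻¹ ^ 2) (d + 1) • 1)

/-- the same on polynomials -/
noncomputable def Pd (a : ℂ) : ℕ → Module.End ℂ ℂ[X]
  | 0 => 1
  | d + 1 => (PP a - ml (a ^ 2) (a⁻¹ ^ 2) (d + 1) • 1) * Pd a d

theorem Gd.En_nat (ha : Gd Λ a) (d : ℕ) : Nt (En a d : ℕ → Λ) := by
  induction d with
  | zero => exact Nt.one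
  | succ d ih => exact ih.mul (ha.c_nat.sub_smul _)

theorem Gd.En_kl_of (ha : Gd Λ a) {n : ℕ} (h : ∀ m < n, ∀ d, m < d → (En a d m : Λ) = 0) :
    Kl n (En a n n : Λ) := fun i hi => by
  obtain ⟨m, rfl⟩ : ∃ m, n = m + 2 + i := ⟨n - 2 - i, by omega⟩
  rw [ha.En_nat _ ((Wo.cap m).sp i), h _ (by omega) _ (by omega), mul_zero]

theorem Gd.En_zero (ha : Gd Λ a) (n : ℕ) : ∀ d, n < d → (En a d n : Λ) = 0 := by
  induction n using Nat.strong_induction_on with
  | _ n ih =>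
    intro d hd
    induction d, hd using Nat.le_induction with
    | base => rw [En, mul_sub, sc_c ha.ne n _ (ha.En_kl_of ih)]; simp
    | succ d _ ih => rw [En, ih, zero_mul]

theorem Gd.En_kl (ha : Gd Λ a) (n : ℕ) : Kl n (En a n n : Λ) :=
  ha.En_kl_of fun m _ => ha.En_zero m

theorem Gd.tr_En (ha : Gd Λ a) (d n : ℕ) : ∀ H : ℕ → Λ, Nt H →
    tr n (En a d n * H n) = hh H (Pd a d (X ^ n)) := by
  induction d with
  | zero => intro H _; simp [En, Pd, hh_pow]
  | succ d ih =>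
    intro H hH
    have e := ih _ (ha.c_nat.mul hH)
    rw [ha.hh_c hH] at e
    simp only [En, Pd, mul_sub, sub_mul, mul_smul_comm, smul_mul_assoc, mul_one, one_mul, map_sub,
      map_smul, mul_assoc, e, ih H hH, LinearMap.sub_apply, LinearMap.smul_apply,
      Module.End.mul_apply]

theorem Pd_TT (ha : a ≠ 0) (d n : ℕ) : Pd a d (TT n) =
    (∏ j ∈ range d, (ml (a ^ 2) (a⁻¹ ^ 2) n - ml (a ^ 2) (a⁻¹ ^ 2) (j + 1))) • TT n := by
  induction d with
  | zero => simp [Pd]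
  | succ d ih =>
    simp only [Pd, Module.End.mul_apply, ih, map_smul, LinearMap.sub_apply, LinearMap.smul_apply,
      PP_TT ha, Module.End.one_apply, prod_range_succ, ← sub_smul, smul_smul]

theorem X_TT (n : ℕ) : X * TT (n + 1) = TT (n + 2) + TT n := by rw [TT]; ring

theorem top_TT {M : Type} [AddCommGroup M] [Module ℂ M] (m : ℕ) : ∀ L : ℂ[X] →ₗ[ℂ] M,
    (∀ i ≤ m, L (TT i) = 0) → L (X ^ m) = L (TT (m + 1)) := by
  induction m with
  | zero => intro L _; simp [TT]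
  | succ m ih =>
    intro L hL
    have := ih (L ∘ₗ LinearMap.mulLeft ℂ X) fun i hi => by
      cases i with
      | zero => simp [TT]
      | succ i => simp [X_TT, hL (i + 2) (by omega), hL i (by omega)]
    simpa [X_TT, ← pow_succ', hL m (by omega)] using this

theorem dl_mul (a : ℂ) (m : ℕ) :
    dl a m * (a ^ 2 - a⁻¹ ^ 2) = (-1) ^ m * ((a ^ 2) ^ (m + 1) - (a⁻¹ ^ 2) ^ (m + 1)) := by
  rw [dl, mul_assoc, ← geom_sum₂_mul _ _ (m + 1)]; rfl

theorem pow_ne_inv (ha : a ≠ 0) (hs : ∀ s : ℕ, 0 < s → a ^ s ≠ 1) (m : ℕ) :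
    (a ^ 2) ^ (m + 1) - (a⁻¹ ^ 2) ^ (m + 1) ≠ 0 := fun h => hs (4 * (m + 1)) (by omega) (by
  have : (a ^ 2) ^ (m + 1) * (a⁻¹ ^ 2) ^ (m + 1) = 1 := by
    rw [← mul_pow, ← mul_pow, mul_inv_cancel₀ ha, one_pow, one_pow]
  rw [← sub_eq_zero.1 h] at this
  rw [← this]; ring)

theorem dl_ne (ha : a ≠ 0) (hs : ∀ s : ℕ, 0 < s → a ^ s ≠ 1) (m : ℕ) : dl a m ≠ 0 := fun h => by
  have := dl_mul a m
  rw [h, zero_mul] at this
  exact mul_ne_zero (pow_ne_zero _ (by norm_num)) (pow_ne_inv ha hs m) this.symm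

theorem TT_dl (ha : a ≠ 0) (hs : ∀ s : ℕ, 0 < s → a ^ s ≠ 1) (m : ℕ) :
    (TT (m + 1)).eval (-a ^ 2 - a⁻¹ ^ 2) = dl a m := by
  have h0 : a ^ 2 - a⁻¹ ^ 2 ≠ 0 := by simpa only [zero_add, pow_one] using pow_ne_inv ha hs 0
  have := TT_eval (z := -a ^ 2) (w := -a⁻¹ ^ 2)
    (by rw [neg_mul_neg, ← mul_pow, mul_inv_cancel₀ ha, one_pow]) (m + 1)
  refine mul_right_cancel₀ h0 ?_
  rw [dl_mul, sub_eq_add_neg (-a ^ 2)]
  rw [neg_pow (a ^ 2), neg_pow (a⁻¹ ^ 2), pow_succ (-1 : ℂ)] at this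
  linear_combination -this

theorem ml_ne (ha : a ≠ 0) (hs : ∀ s : ℕ, 0 < s → a ^ s ≠ 1) {j m : ℕ} (h : j < m) :
    ml (a ^ 2) (a⁻¹ ^ 2) (m + 1) - ml (a ^ 2) (a⁻¹ ^ 2) (j + 1) ≠ 0 := by
  obtain ⟨d, rfl⟩ := Nat.exists_eq_add_of_lt h
  have h1 := sub_ne_zero.2 (hs (2 * (d + 1)) (by omega))
  have h2 := sub_ne_zero.2 (hs (2 * (2 * j + d + 3)) (by omega))
  have e : ml (a ^ 2) (a⁻¹ ^ 2) (j + d + 1 + 1) - ml (a ^ 2) (a⁻¹ ^ 2) (j + 1) =
      -((a ^ (2 * (d + 1)) - 1) * (a ^ (2 * (2 * j + d + 3)) - 1)) / a ^ (2 * (j + d + 2)) := by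
    simp only [ml, inv_pow, ← pow_mul]
    field_simp
    ring
  rw [e]
  exact div_ne_zero (neg_ne_zero.2 (mul_ne_zero h1 h2)) (pow_ne_zero _ ha)

theorem Gd.hh_one (ha : Gd Λ a) (p : ℂ[X]) :
    hh (fun _ => (1 : Λ)) p = p.eval (-a ^ 2 - a⁻¹ ^ 2) • 1 := by
  have e : ∀ n, tr n (1 : Λ) = (-a ^ 2 - a⁻¹ ^ 2) ^ n • 1 := fun n => by
    induction n with
    | zero => simp
    | succ n ih => rw [tr_succ, lp_apply, map_one, mul_one, ha.eq, map_smul, ih, smul_smul,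
        pow_succ' _ n]
  induction p using Polynomial.induction_on' with
  | add p q hp hq => rw [map_add, hp, hq, eval_add, add_smul]
  | monomial n c => rw [← smul_X_eq_monomial, map_smul, hh_pow, e, smul_smul]; simp

theorem Gd.eigen (ha : Gd Λ a) (hs : ∀ s : ℕ, 0 < s → a ^ s ≠ 1) {H : ℕ → Λ} (hH : Nt H) {m : ℕ}
    {α : ℂ} (h : Sc m (H m) α) : hh H (TT (m + 1)) = (α * dl a m) • 1 := by
  have e : Pd a m (X ^ m) = Pd a m (TT (m + 1)) := top_TT m _ fun i hi => by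
    cases i with
    | zero => simp [TT]
    | succ i => rw [Pd_TT ha.ne, prod_eq_zero (mem_range.2 (show i < m by omega)) (sub_self _),
        zero_smul]
  have e1 := ha.tr_En m m H hH
  have e2 := ha.tr_En m m _ Nt.one
  have hne := prod_ne_zero_iff.2 fun j (hj : j ∈ range m) => ml_ne ha.ne hs (mem_range.1 hj)
  rw [e, Pd_TT ha.ne, map_smul] at e1 e2
  rw [mul_one, ha.hh_one, TT_dl ha.ne hs] at e2
  rw [h _ (ha.En_kl m), map_smul, e2, smul_comm, smul_smul α] at e1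
  exact (smul_right_injective Λ hne e1).symm

/-- the operator of one more pair of strands in the half twist -/
noncomputable def Gm (a : ℂ) : Module.End ℂ ℂ[X] :=
  kap a • (a • (LinearMap.mulLeft ℂ X ∘ₗ QQ a) + a⁻¹ • PP a)

theorem Gm_apply (a : ℂ) (p : ℂ[X]) :
    Gm a p = kap a • (a • (X * QQ a p) + a⁻¹ • PP a p) := rfl

theorem Gd.half_step (ha : Gd Λ a) {H : ℕ → Λ} (hH : Nt H) :
    (Nt fun n => kap a • tr 2 (σ a * (S (Jn a n) * H (n + 2)))) ∧ ∀ p,
      hh (fun n => kap a • tr 2 (σ a * (S (Jn a n) * H (n + 2)))) p = hh H (Gm a p) := by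
  have s2 : ∀ T : Λ, Sp 2 T = S (S T) := fun T => rfl
  constructor
  · intro m m' y hy
    rw [smul_mul_assoc, mul_smul_comm, ← tr_right, ← tr_left, mul_assoc, mul_assoc, hH (hy.sp 2),
      s2, ← mul_assoc (S _), ← map_mul, ha.J_nat hy, map_mul S, mul_assoc, σ_comm']
  · have : hh (fun n => kap a • tr 2 (σ a * (S (Jn a n) * H (n + 2)))) = hh H ∘ₗ Gm a :=
      lin_ext fun n => by
        have e1 : tr (n + 2) (S (Jn a n) * H (n + 2)) = hh H (X * QQ a (X ^ n)) := by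
          rw [tr_succ, lp_left, (ha.trace_aux n _ hH.lp).2, hh_lp, QQ, lam_pow]
        have e2 : tr (n + 2) (η * ε * (S (Jn a n) * H (n + 2))) = hh H (PP a (X ^ n)) := by
          rw [mul_assoc, (Wo.cap n).cyc, mul_assoc, mul_assoc, hH (Wo.cap n), PP, lam_pow,
            ← (ha.trace_aux n _ hH).1, ha.c_eq, lp_apply]
          simp only [mul_assoc]
        rw [hh_pow, map_smul, ← tr_add, add_comm 2 n, LinearMap.comp_apply, Gm_apply, σ]
        simp only [add_mul, smul_mul_assoc, one_mul, map_add, map_smul, e1, e2]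
    intro p; rw [this]; rfl

theorem Gd.half (ha : Gd Λ a) (m : ℕ) : ∀ H : ℕ → Λ, Nt H →
    tr (m + m) (Xn a m m * th a m * H (m + m)) = hh H ((Gm a ^ m) 1) := by
  induction m with
  | zero => intro H _; simpa [Xn, th] using (hh_pow H 0).symm
  | succ m ih =>
    intro H hH
    have s2 : ∀ T : Λ, Sp 2 T = S (S T) := fun T => rfl
    obtain ⟨h1, h2⟩ := ha.half_step hH
    have e := ih _ h1
    have wJ : Wo (m + m + 2) (m + m + 2) (Jn a m : Λ) := (wo_J a m).le (by omega)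
    have wU : Wo (m + m + 2) (m + m + 2) (S (Un a m) : Λ) := (wo_U a m).sh.le (by omega)
    have eX : (Xn a (m + 1) (m + 1) : Λ) =
        S (Un a m) * (S (S (Xn a m m)) * (σ a * S (Tn a m))) := by
      rw [Xn, X_succ, Tn, map_mul, mul_assoc]
    have e1 : tr (m + m + 2) (Xn a (m + 1) (m + 1) * (Jn a m * S (th a m)) * H (m + m + 2)) =
        tr (m + m + 2) (Xn a (m + 1) (m + 1) * Sp (m + 1) (Jn a m) *
          (S (th a m) * H (m + m + 2))) := by
      rw [ha.X_l _ (wo_J a m), mul_assoc (Jn a m) (Xn a _ _), wJ.cyc, ha.J_nat (wo_th a m)]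
      simp only [mul_assoc, hH wJ]
    have e2 : (S (th a m) * S (Un a m) : Λ) = S (Un a m) * S (S (th a m)) := by
      rw [← map_mul, ← ha.U_nat (wo_th a m), map_mul]
    have e3 : (S (Jn a (m + m)) * S (S (th a m)) : Λ) = S (S (th a m)) * S (Jn a (m + m)) := by
      rw [← map_mul, ha.J_nat ((wo_th a m).le (Nat.le_add_right m m)), map_mul]
    have e4 : (S (Tn a m) * (S (Sp m (Jn a m)) * S (Un a m)) : Λ) = S (Jn a (m + m)) := by
      rw [J_add, map_mul, map_mul]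
    rw [h2, mul_smul_comm, ← tr_left, map_smul, ← tr_add, add_comm 2] at e
    rw [pow_succ', Module.End.mul_apply, ← e, show m + 1 + (m + 1) = m + m + 2 by omega, th,
      mul_smul_comm, smul_mul_assoc, map_smul, e1, eX, mul_assoc, mul_assoc, wU.cyc]
    simp only [mul_assoc]
    rw [hH wU, ← mul_assoc (S (th a m)), e2, Sp_succ, s2, map_mul S, map_mul S,
      mul_assoc (S (S _)), ← σ_comm' a (th a m), ← mul_assoc (S (S (th a m))), ← e3, ← e4]
    simp only [mul_assoc]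

theorem Gd.H3_th (ha : Gd Λ a) (m : ℕ) : tr m (H3 a m * (th a m * th a m * th a m) : Λ) =
    tr (m + m) (Xn a m m * th a m * th a (m + m)) := by
  have w := wo_th (Λ := Λ) a m
  have r := ha.X_r m (w.mul w)
  have l := ha.X_l m (w.mul w)
  have e : (Xn a m m * th a m * th a (m + m) : Λ) =
      Xn a m m * Xn a m m * Xn a m m * (th a m * th a m) * Sp m (th a m) := by
    rw [mul_assoc, ← ha.th_nat (w.le (Nat.le_add_right m m)), ha.th_add]
    simp only [mul_assoc]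
    rw [w.wd]
  have e' : (th a m * th a m * (Xn a m m * Xn a m m * Xn a m m) : Λ) =
      Xn a m m * Xn a m m * Xn a m m * Sp m (th a m * th a m) := by
    rw [mul_assoc _ (Xn a m m) (Sp m _), l, ← mul_assoc (_ * Xn a m m), mul_assoc _ (Xn a m m) (_ * _),
      r, ← mul_assoc (Xn a m m), l]
    simp only [mul_assoc]
  rw [tr_add, e, tr_right, ← (w.mul w).cyc, e', tr_right, H3]
  simp only [mul_assoc]

theorem Gm_TT (ha : a ≠ 0) (h4 : a ^ 4 ≠ 1) (n : ℕ) : Gm a (TT (n + 1)) =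
    (-a ^ (2 * n + 4)) • TT (n + 3) + (-a⁻¹ ^ (2 * n)) • (X * TT n - TT (n + 1)) := by
  have h := PP_X a (TT (n + 1))
  have h4' : 1 - a ^ 4 ≠ 0 := sub_ne_zero.2 h4.symm
  rw [X_TT, map_add, PP_TT ha, PP_TT ha, PP_TT ha, mul_smul_comm, X_TT] at h
  have e : QQ a (TT (n + 1)) = (a ^ 2) ^ n • TT (n + 2) + ((a⁻¹ ^ 2) ^ n * a⁻¹ ^ 4) • TT n := by
    refine smul_right_injective _ h4' ?_
    simp only
    rw [eq_sub_of_add_eq' h.symm]
    simp only [ml, pow_succ (a ^ 2), pow_succ (a⁻¹ ^ 2)]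
    generalize (a ^ 2) ^ n = u
    generalize (a⁻¹ ^ 2) ^ n = v
    match_scalars <;> field_simp <;> ring
  rw [Gm_apply, e, PP_TT ha, mul_add, mul_smul_comm, mul_smul_comm, X_TT, pow_add, pow_mul, pow_mul]
  simp only [ml, pow_succ (a ^ 2), pow_succ (a⁻¹ ^ 2), kap]
  generalize (a ^ 2) ^ n = u
  generalize (a⁻¹ ^ 2) ^ n = v
  generalize X * TT n = w
  match_scalars <;> field_simp <;> ring

/-- the terms of the fusion formula -/
noncomputable def bb (a : ℂ) (c : ℕ) : ℂ[X] := ((-1) ^ c * a ^ (2 * c * (c + 1))) • TT (2 * c + 1)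

theorem Gm_bb (ha : a ≠ 0) (h4 : a ^ 4 ≠ 1) (c : ℕ) :
    Gm a (bb a c) = bb a (c + 1) + bb a (c - 1) := by
  rw [bb, map_smul, Gm_TT ha h4]
  cases c with
  | zero => simp [bb, TT]
  | succ c =>
    have : X * TT (2 * (c + 1)) - TT (2 * (c + 1) + 1) = TT (2 * c + 1) := by
      rw [show 2 * (c + 1) = 2 * c + 1 + 1 by ring, X_TT]; ring
    rw [this, bb, bb, Nat.add_sub_cancel, show 2 * (c + 1 + 1) + 1 = 2 * (c + 1) + 3 by ring]
    match_scalars
    · ring
    · rw [inv_pow]; field_simp; ring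

theorem aeval_TT (ha : a ≠ 0) (h4 : a ^ 4 ≠ 1) (m : ℕ) :
    aeval (Gm a) (TT (m + 1)) 1 = ∑ c ∈ range (m + 1), bb a c := by
  have h0 : bb a 0 = 1 := by simp [bb, TT]
  have e : ∀ m, Gm a (∑ c ∈ range (m + 2), bb a c) =
      ∑ c ∈ range (m + 3), bb a c + ∑ c ∈ range (m + 1), bb a c := fun m => by
    simp only [map_sum, Gm_bb ha h4, sum_add_distrib]
    rw [sum_range_succ' (fun c => bb a (c - 1)), sum_range_succ' (bb a) (m + 2)]
    simp only [Nat.add_sub_cancel, Nat.zero_sub]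
    ring
  induction m using Nat.twoStepInduction with
  | zero => simp [TT, h0]
  | one =>
    have := Gm_bb ha h4 0
    rw [h0] at this
    simp [TT, sum_range_succ, this, h0, add_comm]
  | more m h1 h2 =>
    rw [TT, map_sub, map_mul, aeval_X, LinearMap.sub_apply, Module.End.mul_apply, h1, h2, e]
    ring

theorem Gd.fv_eq (ha : Gd Λ a) (hs : ∀ s : ℕ, 0 < s → a ^ s ≠ 1) (n : ℕ) :
    hh (fun m => (H3 a m * H3 a m : Λ)) (TT n) = fv a n • 1 := by
  cases n with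
  | zero => simp [TT, fv]
  | succ m =>
    obtain ⟨α, hα⟩ := ha.sc (wo_H3 (Λ := Λ) a m)
    have hK := ha.H3_nat.mul ((ha.th_nat.mul ha.th_nat).mul ha.th_nat)
    have e1 := ha.eigen hs hK (hα.mul (((sc_th a m).mul (sc_th a m)).mul (sc_th a m)))
    have e2 : ∀ p, hh (fun m => (H3 a m * (th a m * th a m * th a m) : Λ)) p =
        hh (th a) (aeval (Gm a) p 1) := fun p => by
      induction p using Polynomial.induction_on' with
      | add p q hp hq => simp only [map_add, hp, hq, LinearMap.add_apply]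
      | monomial n c =>
        rw [← smul_X_eq_monomial, map_smul, hh_pow, ha.H3_th, ha.half n _ ha.th_nat]
        simp
    have e3 : ∀ c, hh (th a : ℕ → Λ) (bb a c) =
        ((-1) ^ c * a ^ (6 * c * (c + 1)) * dl a (2 * c)) • 1 := fun c => by
      rw [bb, map_smul, ha.eigen hs ha.th_nat (sc_th a (2 * c)), smul_smul, tw, pow_mul (-1 : ℂ)]
      congr 1
      ring
    rw [e2, aeval_TT ha.ne (hs 4 (by norm_num)), map_sum] at e1
    simp only [e3, ← sum_smul] at e1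
    rw [ha.eigen hs (ha.H3_nat.mul ha.H3_nat) (hα.mul hα), fv]
    rcases subsingleton_or_nontrivial Λ with h | h
    · exact Subsingleton.elim _ _
    have e4 : sm a m = α * (tw a m * tw a m * tw a m) * dl a m := smul_left_injective ℂ one_ne_zero e1
    have := dl_ne ha.ne hs m
    have : tw a m ≠ 0 := mul_ne_zero (pow_ne_zero _ (by norm_num)) (pow_ne_zero _ ha.ne)
    rw [e4]
    congr 1
    field_simp

theorem Gd.value (ha : Gd Λ a) : ∃ g : ℂ[X] →ₗ[ℂ] Λ,
    ((∀ s : ℕ, 0 < s → a ^ s ≠ 1) → ∀ k n, g (X ^ k * TT n) = vv a k n • 1) ∧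
      ∀ k n j, tr (k + n) (Sp k (cn a n ^ j) * (H3 a (k + n) * H3 a (k + n))) =
        g (X ^ k * (PP a ^ j) (X ^ n)) := by
  have hH := ha.H3_nat.mul ha.H3_nat
  refine ⟨hh fun m => H3 a m * H3 a m, fun hs k => ?_, fun k n j => ?_⟩
  · induction k with
    | zero => intro n; rw [pow_zero, one_mul, ha.fv_eq hs, vv]
    | succ k ih =>
      intro n
      cases n with
      | zero => simp [TT, vv]
      | succ n => rw [pow_succ, mul_assoc, X_TT, mul_add, map_add, ih, ih, vv, add_smul]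
  · rw [tr_add, tr_left, add_comm k n, ha.trace_pow j n _ (hH.tr k),
      hh_tr fun m => H3 a m * H3 a m]

end Pool.Agent.P.MP_382f0d_gt.KN
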